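import Pool.Agent.H460BZ.Prefix

/-!
# Balancing vectors of norm at most `1/100` in a symmetric closed convex set of Gaussian measure at
least `99/100`
-/

set_option autoImplicit false

namespace Pool.Agent.Q156.Ban

open MeasureTheory ProbabilityTheory Set
open Pool.Agent.H460BZ
open Pool.Agent.H902R3.ZA (gm)

/-- balancing with vectors of norm exactly `1/100` -/
theorem bal_eq {n : ℕ} (m : ℕ) : ∀ (K : Set (EE n)), IsClosed K → Convex ℝ K → (∀ x ∈ K, -x ∈ K) →
    99 / 100 ≤ (stdGaussian (EE n) K).toReal → ∀ u : Fin m → EE n, (∀ i, ‖u i‖ = 1 / 100) →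
    ∃ ε : Fin m → ℤˣ, ∑ i, ((ε i : ℤ) : ℝ) • u i ∈ K := by
  induction m with
  | zero =>
    intro K hK hc hs hm u hu
    refine ⟨fun i => 1, ?_⟩
    simp only [Finset.univ_eq_empty, Finset.sum_empty]
    have hne : K.Nonempty := by
      by_contra hcon
      rw [Set.not_nonempty_iff_eq_empty] at hcon
      rw [hcon, measure_empty, ENNReal.toReal_zero] at hm
      linarith
    obtain ⟨x, hx⟩ := hne
    have := hc hx (hs x hx) (a := 1 / 2) (b := 1 / 2) (by norm_num) (by norm_num) (by norm_num)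
    simpa using this
  | succ m ih =>
    intro K hK hc hs hm u hu
    have h1 := key_lemma n K hK hc (u 0) (hu 0) hm
    obtain ⟨ε, hε⟩ := ih (star K (u 0)) (star_closed hK _) (star_convex hc _) (star_symm hs _)
      (hm.trans (ENNReal.toReal_mono (measure_ne_top _ _) h1)) (fun i => u i.succ) (fun i => hu _)
    rcases star_step hc (u 0) hε with h | h
    · refine ⟨Fin.cons 1 ε, ?_⟩
      rw [Fin.sum_univ_succ]
      simpa [add_comm] using h
    · refine ⟨Fin.cons (-1) ε, ?_⟩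
      rw [Fin.sum_univ_succ]
      simpa [sub_eq_add_neg, add_comm] using h

/-- dropping the first coordinate -/
noncomputable def dropL (n : ℕ) : EE (n + 1) →ₗ[ℝ] EE n where
  toFun x := WithLp.toLp 2 fun i : Fin n => x i.succ
  map_add' x y := by ext i; simp
  map_smul' c x := by ext i; simp

theorem dropL_apply {n : ℕ} (x : EE (n + 1)) (i : Fin n) : dropL n x i = x i.succ := rfl

/-- cylinder over `K` -/
def cyl {n : ℕ} (K : Set (EE n)) : Set (EE (n + 1)) := {x | dropL n x ∈ K}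

theorem dropL_cont (n : ℕ) : Continuous (dropL n) := (dropL n).continuous_of_finiteDimensional

theorem cyl_meas {n : ℕ} (K : Set (EE n)) (hK : MeasurableSet K) :
    stdGaussian (EE (n + 1)) (cyl K) = stdGaussian (EE n) K := by
  have hm1 : Measurable (WithLp.toLp 2 : (Fin (n + 1) → ℝ) → EE (n + 1)) := by fun_prop
  have hm2 : Measurable (WithLp.toLp 2 : (Fin n → ℝ) → EE n) := by fun_prop
  have hc : MeasurableSet (cyl K) := (dropL_cont n).measurable hK
  rw [← map_pi_eq_stdGaussian, ← map_pi_eq_stdGaussian, Measure.map_apply hm1 hc,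
    Measure.map_apply hm2 hK]
  change gm (n + 1) _ = gm n _
  have hmp := Pool.Agent.H902R3.ZA.PLNaux.mp n
  rw [← hmp.measure_preimage_equiv]
  have e : (Pool.Agent.H902R3.ZA.PLNaux.ee n).symm ⁻¹' (WithLp.toLp 2 ⁻¹' cyl K) =
      (univ : Set ℝ) ×ˢ (WithLp.toLp 2 ⁻¹' K : Set (Fin n → ℝ)) := by
    ext ⟨z, y⟩
    simp only [mem_preimage, mem_prod, mem_univ, true_and, cyl, Set.mem_ofPred_eq]
    have : dropL n (WithLp.toLp 2 ((Pool.Agent.H902R3.ZA.PLNaux.ee n).symm (z, y))) =
        WithLp.toLp 2 y := by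
      ext i
      rw [dropL_apply]
      exact Pool.Agent.H902R3.ZA.PLNaux.ee_symm_succ n z y i
    rw [this]
  rw [e, Measure.prod_prod, measure_univ, one_mul]

/-- balancing with vectors of norm at most `1/100` -/
theorem bal_le {n : ℕ} (m : ℕ) (K : Set (EE n)) (hK : IsClosed K) (hc : Convex ℝ K)
    (hs : ∀ x ∈ K, -x ∈ K) (hm : 99 / 100 ≤ (stdGaussian (EE n) K).toReal) (u : Fin m → EE n)
    (hu : ∀ i, ‖u i‖ ≤ 1 / 100) :
    ∃ ε : Fin m → ℤˣ, ∑ i, ((ε i : ℤ) : ℝ) • u i ∈ K := by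
  set v : Fin m → EE (n + 1) := fun i =>
    WithLp.toLp 2 (Fin.cons (Real.sqrt ((1 / 100) ^ 2 - ‖u i‖ ^ 2)) (fun j => u i j)) with hv
  have hdrop : ∀ i, dropL n (v i) = u i := by
    intro i
    ext j
    rw [dropL_apply, hv]
    simp
  have hnorm : ∀ i, ‖v i‖ = 1 / 100 := by
    intro i
    have h0 : 0 ≤ (1 / 100 : ℝ) ^ 2 - ‖u i‖ ^ 2 := by
      have h1 := hu i
      have h2 := norm_nonneg (u i)
      nlinarith
    have h1 : ‖v i‖ ^ 2 = (1 / 100) ^ 2 := by
      rw [EuclideanSpace.norm_sq_eq, Fin.sum_univ_succ, hv]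
      simp only [Fin.cons_zero, Fin.cons_succ]
      rw [Real.norm_eq_abs, sq_abs, Real.sq_sqrt h0, EuclideanSpace.norm_sq_eq (u i)]
      ring
    exact (pow_left_inj₀ (norm_nonneg _) (by norm_num) (by norm_num)).1 h1
  obtain ⟨ε, hε⟩ := bal_eq m (cyl K) (hK.preimage (dropL_cont n))
    (hc.linear_preimage (dropL n)) (fun x hx => by
      show dropL n (-x) ∈ K
      rw [map_neg]; exact hs _ hx)
    (by rw [cyl_meas K hK.measurableSet]; exact hm) v hnorm
  refine ⟨ε, ?_⟩
  have h1 : dropL n (∑ i, ((ε i : ℤ) : ℝ) • v i) ∈ K := hε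
  rw [map_sum] at h1
  simp only [map_smul, hdrop] at h1
  exact h1

end Pool.Agent.Q156.Ban
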