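import Pool.Agent.H460BZ.Prefix
import Pool.Agent.H320R2.LD.MGF

/-!
# Dimension-free dilation of a symmetric closed convex set
-/

set_option autoImplicit false

namespace Pool.Agent.Q156.Ban

open MeasureTheory ProbabilityTheory Set
open scoped RealInnerProductSpace
open Pool.Agent.H460BZ
open Pool.Agent.H902R3.ZA (gm)

/-- the Gaussian measure of an interval around zero -/
theorem interval_le (r : ℝ) (hr : 0 ≤ r) : (gaussianReal 0 1 (Icc (-r) r)).toReal ≤ 2 * r := by
  have h1 : gaussianReal 0 1 (Icc (-r) r) ≤ ENNReal.ofReal (2 * r) := by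
    rw [gaussianReal_apply 0 one_ne_zero]
    calc ∫⁻ x in Icc (-r) r, gaussianPDF 0 1 x ≤ ∫⁻ _x in Icc (-r) r, 1 := by
          apply lintegral_mono
          intro x
          rw [gaussianPDF]
          exact ENNReal.ofReal_le_one.2 (Pool.Agent.H902R3.ZA.PLAaux.pdf_le x)
      _ = ENNReal.ofReal (2 * r) := by
          rw [setLIntegral_one, Real.volume_Icc]
          congr 1; ring
  have h2 := ENNReal.toReal_mono ENNReal.ofReal_ne_top h1
  rwa [ENNReal.toReal_ofReal (by linarith)] at h2

/-- the Gaussian measure of a slab -/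
theorem slab_le {n : ℕ} (a : EE n) (ha : ‖a‖ = 1) (r : ℝ) (hr : 0 ≤ r) :
    (stdGaussian (EE n) {x | |⟪a, x⟫| ≤ r}).toReal ≤ 2 * r := by
  have h1 : (stdGaussian (EE n)).map (innerSL ℝ a) = gaussianReal 0 1 := by
    rw [IsGaussian.map_eq_gaussianReal, integral_strongDual_stdGaussian,
      variance_dual_stdGaussian, innerSL_apply_norm, ha]
    norm_num
  have h2 : {x : EE n | |⟪a, x⟫| ≤ r} = (innerSL ℝ a) ⁻¹' (Icc (-r) r) := by
    ext x
    simp [abs_le]
  rw [h2, ← Measure.map_apply (innerSL ℝ a).continuous.measurable measurableSet_Icc, h1]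
  exact interval_le r hr

/-- a symmetric closed convex set of Gaussian measure `p` contains the ball of radius `p / 2` -/
theorem ball_sub {n : ℕ} (W : Set (EE n)) (hW : IsClosed W) (hc : Convex ℝ W)
    (hs : ∀ x ∈ W, -x ∈ W) (p : ℝ) (hp : 0 < p) (hpW : p ≤ (stdGaussian (EE n) W).toReal)
    (x : EE n) (hx : ‖x‖ < p / 2) : x ∈ W := by
  by_contra hcon
  have hne : W.Nonempty := by
    by_contra h
    rw [Set.not_nonempty_iff_eq_empty] at h
    rw [h, measure_empty, ENNReal.toReal_zero] at hpW
    linarith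
  obtain ⟨f, s, h1, h2⟩ := geometric_hahn_banach_closed_point hc hW hcon
  obtain ⟨b, rfl⟩ := (InnerProductSpace.toDual ℝ (EE n)).surjective f
  simp only [InnerProductSpace.toDual_apply_apply] at h1 h2
  obtain ⟨w, hw⟩ := hne
  have h0 : (0 : EE n) ∈ W := by
    have := hc hw (hs w hw) (a := 1 / 2) (b := 1 / 2) (by norm_num) (by norm_num) (by norm_num)
    simpa using this
  have hs0 : 0 < s := by simpa using h1 0 h0
  have hb : b ≠ 0 := by
    rintro rfl
    simp at h2
    linarith
  have hbn : 0 < ‖b‖ := norm_pos_iff.2 hb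
  have hsub : W ⊆ {y : EE n | |⟪‖b‖⁻¹ • b, y⟫| ≤ ‖x‖} := by
    intro y hy
    have e1 := h1 y hy
    have e2 := h1 _ (hs y hy)
    rw [inner_neg_right] at e2
    have e3 : |⟪b, y⟫| ≤ s := by rw [abs_le]; constructor <;> linarith
    have e4 : s ≤ ‖b‖ * ‖x‖ := h2.le.trans (real_inner_le_norm b x)
    rw [Set.mem_ofPred_eq, inner_smul_left, abs_mul]
    simp only [map_inv₀, conj_trivial, abs_inv, abs_norm]
    rw [inv_mul_le_iff₀ hbn]
    linarith
  have h3 := ENNReal.toReal_mono (measure_ne_top _ _) (measure_mono (μ := stdGaussian (EE n)) hsub)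
  have h4 := slab_le (‖b‖⁻¹ • b) (by rw [norm_smul, norm_inv, norm_norm, inv_mul_cancel₀ hbn.ne'])
    ‖x‖ (norm_nonneg _)
  linarith

/-- Gaussian concentration for the distance to a set -/
theorem conc {n : ℕ} (W : Set (EE n)) (hW : IsClosed W) (t : ℝ) (ht : 0 < t) :
    (stdGaussian (EE n) W).toReal * (stdGaussian (EE n) {x | t ≤ Metric.infDist x W}).toReal ≤
      Real.exp (-(t ^ 2 / 4)) := by
  have hm : Measurable (WithLp.toLp 2 : (Fin n → ℝ) → EE n) := by fun_prop
  have hcont : Continuous fun x : Fin n → ℝ => Metric.infDist (WithLp.toLp 2 x : EE n) W :=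
    (Metric.continuous_infDist_pt W).comp (by fun_prop)
  have hset : MeasurableSet {x : EE n | t ≤ Metric.infDist x W} :=
    (isClosed_le continuous_const (Metric.continuous_infDist_pt W)).measurableSet
  have key := Pool.Agent.H320R2.LD.MGF.main_fin n
    (fun x => t / 2 * Metric.infDist (WithLp.toLp 2 x : EE n) W) (hcont.measurable.const_mul _)
    (t / 2) (by
      intro x y
      have h1 : Metric.infDist (WithLp.toLp 2 y : EE n) W ≤
          Metric.infDist (WithLp.toLp 2 x : EE n) W +
            dist (WithLp.toLp 2 y : EE n) (WithLp.toLp 2 x) := Metric.infDist_le_infDist_add_dist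
      have h2 : dist (WithLp.toLp 2 y : EE n) (WithLp.toLp 2 x) =
          Pool.Agent.H320R2.LD.nrm (x - y) := by
        rw [dist_comm, EuclideanSpace.dist_eq]
        unfold Pool.Agent.H320R2.LD.nrm Pool.Agent.H320R2.LD.nsq
        congr 1
        apply Finset.sum_congr rfl
        intro i _
        rw [Real.dist_eq, sq_abs]
        rfl
      rw [h2] at h1
      have h3 : 0 ≤ t / 2 := by positivity
      nlinarith)
  have hgam : Pool.Agent.H320R2.LD.gam (Fin n) = Measure.pi fun _ => gaussianReal 0 1 := rfl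
  rw [hgam] at key
  have e1 : stdGaussian (EE n) W ≤ ∫⁻ x, ENNReal.ofReal
      (Real.exp (-(t / 2 * Metric.infDist (WithLp.toLp 2 x : EE n) W)))
        ∂(Measure.pi fun _ : Fin n => gaussianReal 0 1) := by
    rw [← map_pi_eq_stdGaussian, Measure.map_apply hm hW.measurableSet,
      ← lintegral_indicator_one (hm hW.measurableSet)]
    apply lintegral_mono
    intro x
    by_cases hx : x ∈ (WithLp.toLp 2 ⁻¹' W : Set (Fin n → ℝ))
    · rw [indicator_of_mem hx]
      have : Metric.infDist (WithLp.toLp 2 x : EE n) W = 0 := Metric.infDist_zero_of_mem hx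
      simp [this]
    · rw [indicator_of_notMem hx]
      exact zero_le
  have e2 : ENNReal.ofReal (Real.exp (t / 2 * t)) * stdGaussian (EE n)
      {x | t ≤ Metric.infDist x W} ≤ ∫⁻ x, ENNReal.ofReal
      (Real.exp (t / 2 * Metric.infDist (WithLp.toLp 2 x : EE n) W))
        ∂(Measure.pi fun _ : Fin n => gaussianReal 0 1) := by
    rw [← map_pi_eq_stdGaussian, Measure.map_apply hm hset,
      ← lintegral_indicator_one (hm hset), ← lintegral_const_mul _
        (measurable_one.indicator (hm hset))]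
    apply lintegral_mono
    intro x
    by_cases hx : x ∈ (WithLp.toLp 2 ⁻¹' {x | t ≤ Metric.infDist x W} : Set (Fin n → ℝ))
    · beta_reduce
      rw [indicator_of_mem hx]
      simp only [Pi.one_apply, mul_one]
      apply ENNReal.ofReal_le_ofReal
      apply Real.exp_le_exp.2
      have : t ≤ Metric.infDist (WithLp.toLp 2 x : EE n) W := hx
      have h3 : 0 ≤ t / 2 := by positivity
      nlinarith
    · beta_reduce
      rw [indicator_of_notMem hx, mul_zero]
      exact zero_le
  have e3 := (mul_le_mul' e1 e2).trans key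
  have e4 := ENNReal.toReal_mono ENNReal.ofReal_ne_top e3
  rw [ENNReal.toReal_mul, ENNReal.toReal_mul, ENNReal.toReal_ofReal (Real.exp_pos _).le,
    ENNReal.toReal_ofReal (Real.exp_pos _).le] at e4
  have e5 : Real.exp (-(t ^ 2 / 4)) = Real.exp ((t / 2) ^ 2) * (Real.exp (t / 2 * t))⁻¹ := by
    rw [← Real.exp_neg, ← Real.exp_add]
    congr 1; ring
  rw [e5, ← div_eq_mul_inv, le_div_iff₀ (Real.exp_pos _)]
  linarith

/-- dilation -/
theorem dil {n : ℕ} (W : Set (EE n)) (hW : IsClosed W) (hc : Convex ℝ W)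
    (hs : ∀ x ∈ W, -x ∈ W) (p : ℝ) (hp : 0 < p) (hpW : p ≤ (stdGaussian (EE n) W).toReal)
    (t : ℝ) (ht : 0 < t) :
    1 - Real.exp (-(t ^ 2 / 4)) / p ≤
      (stdGaussian (EE n) {x | (1 + 4 * t / p)⁻¹ • x ∈ W}).toReal := by
  have hne : W.Nonempty := by
    by_contra h
    rw [Set.not_nonempty_iff_eq_empty] at h
    rw [h, measure_empty, ENNReal.toReal_zero] at hpW
    linarith
  have hsub : {x | (1 + 4 * t / p)⁻¹ • x ∈ W}ᶜ ⊆ {x | t ≤ Metric.infDist x W} := by
    intro x hx
    by_contra hcon
    apply hx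
    rw [Set.mem_ofPred_eq, not_le] at hcon
    obtain ⟨w, hw, hd⟩ := (Metric.infDist_lt_iff hne).1 hcon
    rw [dist_eq_norm] at hd
    have h1 : (p / (4 * t)) • (x - w) ∈ W := by
      apply ball_sub W hW hc hs p hp hpW
      rw [norm_smul, Real.norm_of_nonneg (by positivity)]
      calc p / (4 * t) * ‖x - w‖ < p / (4 * t) * t * 2 := by
            have : 0 < p / (4 * t) := by positivity
            nlinarith
        _ = p / 2 := by field_simp; ring
    have hq : 0 < 1 + 4 * t / p := by positivity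
    have h2 := hc hw h1 (a := (1 + 4 * t / p)⁻¹) (b := (1 + 4 * t / p)⁻¹ * (4 * t / p))
      (by positivity) (by positivity) (by field_simp)
    have h3 : (1 + 4 * t / p)⁻¹ • w + ((1 + 4 * t / p)⁻¹ * (4 * t / p)) • (p / (4 * t)) • (x - w)
        = (1 + 4 * t / p)⁻¹ • x := by
      rw [smul_smul, mul_assoc, show 4 * t / p * (p / (4 * t)) = 1 by field_simp, mul_one,
        ← smul_add]
      congr 1; abel
    rw [h3] at h2
    exact h2
  have hK : MeasurableSet {x : EE n | (1 + 4 * t / p)⁻¹ • x ∈ W} :=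
    (hW.preimage (continuous_const_smul _)).measurableSet
  have h1 := ENNReal.toReal_mono (measure_ne_top _ _) (measure_mono (μ := stdGaussian (EE n)) hsub)
  rw [prob_compl_eq_one_sub hK, ENNReal.toReal_sub_of_le prob_le_one ENNReal.one_ne_top,
    ENNReal.toReal_one] at h1
  have h2 := conc W hW t ht
  have h3 : (stdGaussian (EE n) {x | t ≤ Metric.infDist x W}).toReal ≤
      Real.exp (-(t ^ 2 / 4)) / p := by
    rw [le_div_iff₀ hp]
    have h4 : 0 ≤ (stdGaussian (EE n) {x | t ≤ Metric.infDist x W}).toReal :=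
      ENNReal.toReal_nonneg
    nlinarith
  linarith

end Pool.Agent.Q156.Ban
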