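import Pool.Agent.H460BZ.Prefix
import Pool.Agent.H902R3.ZA.JEN
import Pool.Agent.H902R3.ZA.QJ
import Pool.Agent.H902R3.ZA.ROT

/-!
# A closed convex set with Gaussian barycenter at the origin is nearly symmetric
-/

set_option autoImplicit false

namespace Pool.Agent.Q156.Ban

open MeasureTheory ProbabilityTheory Set Filter
open scoped RealInnerProductSpace Topology
open Pool.Agent.H460BZ
open Pool.Agent.H902R3.ZA (gm)

/-- the distance to a closed convex set is convex -/
theorem infDist_convex {n : ℕ} (V : Set (EE n)) (hV : IsClosed V) (hc : Convex ℝ V)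
    (hne : V.Nonempty) : ConvexOn ℝ univ fun x : EE n => Metric.infDist x V := by
  refine ⟨convex_univ, fun x _ y _ a b ha hb hab => ?_⟩
  obtain ⟨v, hv, hv2⟩ := hV.exists_infDist_eq_dist hne x
  obtain ⟨w, hw, hw2⟩ := hV.exists_infDist_eq_dist hne y
  have h1 : a • v + b • w ∈ V := hc hv hw ha hb hab
  simp only [smul_eq_mul]
  rw [hv2, hw2]
  calc Metric.infDist (a • x + b • y) V ≤ dist (a • x + b • y) (a • v + b • w) :=
        Metric.infDist_le_dist_of_mem h1
    _ = ‖a • (x - v) + b • (y - w)‖ := by
        rw [dist_eq_norm]; congr 1; rw [smul_sub, smul_sub]; abel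
    _ ≤ a * dist x v + b * dist y w := by
        refine (norm_add_le _ _).trans ?_
        rw [norm_smul, norm_smul, Real.norm_of_nonneg ha, Real.norm_of_nonneg hb, dist_eq_norm,
          dist_eq_norm]

theorem tend_exp (d : ℝ) (hd : 0 < d) :
    Tendsto (fun k : ℕ => Real.exp (-((k : ℝ) * d))) atTop (𝓝 0) := by
  apply Real.tendsto_exp_atBot.comp
  apply tendsto_neg_atTop_atBot.comp
  exact tendsto_natCast_atTop_atTop.atTop_mul_const hd

/-- the symmetrisation -/
def Dd {n : ℕ} (V : Set (EE n)) : Set (EE n) :=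
  {x | (Real.sqrt 2)⁻¹ • x ∈ V ∧ -((Real.sqrt 2)⁻¹ • x) ∈ V}

theorem Dd_closed {n : ℕ} (V : Set (EE n)) (hV : IsClosed V) : IsClosed (Dd V) :=
  (hV.preimage (continuous_const_smul _)).inter (hV.preimage (continuous_const_smul _).neg)

theorem Dd_convex {n : ℕ} (V : Set (EE n)) (hV : Convex ℝ V) : Convex ℝ (Dd V) := by
  intro x hx y hy a b ha hb hab
  constructor
  · have := hV hx.1 hy.1 ha hb hab
    rw [smul_add, smul_comm _ a x, smul_comm _ b y]
    exact this
  · have := hV hx.2 hy.2 ha hb hab
    have e : -((Real.sqrt 2)⁻¹ • (a • x + b • y)) =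
        a • (-((Real.sqrt 2)⁻¹ • x)) + b • (-((Real.sqrt 2)⁻¹ • y)) := by
      rw [smul_add, smul_comm _ a x, smul_comm _ b y, smul_neg, smul_neg]; abel
    rw [e]
    exact this

theorem Dd_symm {n : ℕ} (V : Set (EE n)) : ∀ x ∈ Dd V, -x ∈ Dd V := by
  intro x hx
  refine ⟨?_, ?_⟩
  · rw [smul_neg]; exact hx.2
  · rw [smul_neg, neg_neg]; exact hx.1

theorem symz {n : ℕ} (V : Set (EE n)) (hV : IsClosed V) (hc : Convex ℝ V)
    (hb : ∫ x in V, x ∂(stdGaussian (EE n)) = 0) :
    (stdGaussian (EE n) V).toReal ^ 2 ≤ (stdGaussian (EE n) (Dd V)).toReal := by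
  rcases eq_or_ne (stdGaussian (EE n) V).toReal 0 with h0 | h0
  · rw [h0]; simp
  have hne : V.Nonempty := by
    by_contra h
    rw [Set.not_nonempty_iff_eq_empty] at h
    rw [h, measure_empty, ENNReal.toReal_zero] at h0
    exact h0 rfl
  have hm : Measurable (WithLp.toLp 2 : (Fin n → ℝ) → EE n) := by fun_prop
  have hcl : Continuous (WithLp.toLp 2 : (Fin n → ℝ) → EE n) := by fun_prop
  set V' : Set (Fin n → ℝ) := WithLp.toLp 2 ⁻¹' V with hV'
  set D' : Set (Fin n → ℝ) := WithLp.toLp 2 ⁻¹' (Dd V) with hD'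
  have mV : MeasurableSet V' := hm hV.measurableSet
  have mD : MeasurableSet D' := hm (Dd_closed V hV).measurableSet
  set d : (Fin n → ℝ) → ℝ := fun x => Metric.infDist (WithLp.toLp 2 x : EE n) V with hd
  have hdc : Continuous d := (Metric.continuous_infDist_pt V).comp hcl
  have hd0 : ∀ x, 0 ≤ d x := fun x => Metric.infDist_nonneg
  have hdx : ConvexOn ℝ univ d := by
    have h1 := infDist_convex V hV hc hne
    refine ⟨convex_univ, fun x _ y _ a b ha hb hab => ?_⟩
    exact h1.2 (mem_univ _) (mem_univ _) ha hb hab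
  have hdV : ∀ x ∈ V', d x = 0 := fun x hx => Metric.infDist_zero_of_mem hx
  have hdp : ∀ x, x ∉ V' → 0 < d x := fun x hx =>
    (hV.notMem_iff_infDist_pos hne).1 hx
  have eP : gm n V' = stdGaussian (EE n) V := by
    rw [← map_pi_eq_stdGaussian, Measure.map_apply hm hV.measurableSet]; rfl
  have eD : gm n D' = stdGaussian (EE n) (Dd V) := by
    rw [← map_pi_eq_stdGaussian, Measure.map_apply hm (Dd_closed V hV).measurableSet]; rfl
  rw [← eP] at h0 ⊢
  rw [← eD]
  -- coordinates of the barycenter
  have hbj : ∀ j, ∫ x, V'.indicator (fun x => x j) x ∂(gm n) = 0 := by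
    intro j
    have h1 : ∫ x in V, x ∂(stdGaussian (EE n)) = ∫ y in V', (WithLp.toLp 2 y : EE n) ∂(gm n) := by
      rw [← map_pi_eq_stdGaussian]
      rw [setIntegral_map hV.measurableSet (by fun_prop) hm.aemeasurable]
      rfl
    have hint : Integrable (fun y : Fin n → ℝ => (WithLp.toLp 2 y : EE n)) (gm n) := by
      have h2 : Integrable (fun y : Fin n → ℝ => y) (gm n) := by
        apply Integrable.of_eval
        intro i
        exact Pool.Agent.H902R3.ZA.JENaux.coord_int i
      exact (PiLp.continuousLinearEquiv 2 ℝ (fun _ : Fin n => ℝ)).symm.toContinuousLinearMap.integrable_comp h2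
    rw [h1] at hb
    have h3 := congrArg (fun z : EE n => (EuclideanSpace.proj j : EE n →L[ℝ] ℝ) z) hb
    simp only [map_zero] at h3
    rw [← ContinuousLinearMap.integral_comp_comm _ hint.integrableOn] at h3
    rw [integral_indicator mV]
    exact h3
  -- the approximations
  set W : ℕ → (Fin n → ℝ) → ℝ := fun k x => (k : ℝ) * d x with hW
  have hWx : ∀ k, ConvexOn ℝ univ (W k) := fun k => by
    have := hdx.smul (c := (k : ℝ)) (Nat.cast_nonneg k)
    exact this
  have hWc : ∀ k, Continuous (W k) := fun k => continuous_const.mul hdc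
  have hW0 : ∀ k x, 0 ≤ W k x := fun k x => mul_nonneg (Nat.cast_nonneg k) (hd0 x)
  have hWle : ∀ k x, Real.exp (-W k x) ≤ 1 := fun k x => by
    rw [Real.exp_le_one_iff]; linarith [hW0 k x]
  set p : ℕ → ℝ := fun k => ∫ g, Real.exp (-W k g) ∂(gm n) with hp
  have hsm : ∀ k, AEStronglyMeasurable (fun g => Real.exp (-W k g)) (gm n) := fun k =>
    (Real.continuous_exp.comp (hWc k).neg).aestronglyMeasurable
  have hppos : ∀ k, 0 < p k := fun k => integral_exp_pos (by
    refine Integrable.of_bound (C := 1) (hsm k) (Eventually.of_forall fun x => ?_)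
    rw [Real.norm_of_nonneg (Real.exp_pos _).le]
    exact hWle k x)
  set b : ℕ → (Fin n → ℝ) := fun k j => (∫ g, g j * Real.exp (-W k g) ∂(gm n)) / p k with hbdef
  have key : ∀ k, p k ^ 2 ≤ ∫ y, Real.exp (-W k (fun j => b k j + y j / Real.sqrt 2)) *
      Real.exp (-W k (fun j => b k j - y j / Real.sqrt 2)) ∂(gm n) := by
    intro k
    refine Pool.Agent.H902R3.ZA.JEN_ok (Pool.Agent.H902R3.ZA.PLN_ok
      (Pool.Agent.H902R3.ZA.PLA_ok Pool.Agent.H902R3.ZA.LBM_ok)) Pool.Agent.H902R3.ZA.ROT_ok
      Pool.Agent.H902R3.ZA.QJ_ok n (W k) (hWx k) (hWc k) (hW0 k) (p k) (b k) rfl ?_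
    intro j
    rw [hbdef]
    exact mul_div_cancel₀ _ (hppos k).ne'
  -- pointwise limits
  have hpt : ∀ x, Tendsto (fun k => Real.exp (-W k x)) atTop (𝓝 (V'.indicator 1 x)) := by
    intro x
    by_cases hx : x ∈ V'
    · rw [indicator_of_mem hx]
      have : (fun k => Real.exp (-W k x)) = fun _ => 1 := by
        funext k
        simp [hW, hdV x hx]
      rw [this]
      exact tendsto_const_nhds
    · rw [indicator_of_notMem hx]
      exact tend_exp _ (hdp x hx)
  have hplim : Tendsto p atTop (𝓝 (gm n V').toReal) := by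
    have h1 : (gm n V').toReal = ∫ x, V'.indicator (1 : (Fin n → ℝ) → ℝ) x ∂(gm n) := by
      rw [integral_indicator_one mV]; rfl
    rw [h1]
    refine tendsto_integral_of_dominated_convergence (fun _ => 1) hsm (integrable_const _) ?_ ?_
    · intro k
      refine Eventually.of_forall fun x => ?_
      rw [Real.norm_of_nonneg (Real.exp_pos _).le]
      exact hWle k x
    · exact Eventually.of_forall hpt
  have hblim : ∀ j, Tendsto (fun k => b k j) atTop (𝓝 0) := by
    intro j
    have h1 : Tendsto (fun k => ∫ g, g j * Real.exp (-W k g) ∂(gm n)) atTop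
        (𝓝 (∫ x, V'.indicator (fun x => x j) x ∂(gm n))) := by
      refine tendsto_integral_of_dominated_convergence (fun g => |g j|) ?_ ?_ ?_ ?_
      · intro k
        exact ((continuous_apply j).aestronglyMeasurable).mul (hsm k)
      · exact (Pool.Agent.H902R3.ZA.JENaux.coord_int j).abs
      · intro k
        refine Eventually.of_forall fun x => ?_
        rw [norm_mul, Real.norm_eq_abs, Real.norm_of_nonneg (Real.exp_pos _).le]
        calc |x j| * Real.exp (-W k x) ≤ |x j| * 1 :=
              mul_le_mul_of_nonneg_left (hWle k x) (abs_nonneg _)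
          _ = |x j| := mul_one _
      · refine Eventually.of_forall fun x => ?_
        have h2 := (hpt x).const_mul (x j)
        have h3 : x j * V'.indicator (1 : (Fin n → ℝ) → ℝ) x = V'.indicator (fun x => x j) x := by
          by_cases hx : x ∈ V'
          · rw [indicator_of_mem hx, indicator_of_mem hx]; simp
          · rw [indicator_of_notMem hx, indicator_of_notMem hx]; simp
        rw [h3] at h2
        exact h2
    rw [hbj j] at h1
    have h2 := h1.div hplim h0
    rw [zero_div] at h2
    exact h2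
  have hbv : Tendsto (fun k => (WithLp.toLp 2 (b k) : EE n)) atTop (𝓝 0) := by
    have h1 : Tendsto b atTop (𝓝 0) := tendsto_pi_nhds.2 hblim
    have h2 := (hcl.tendsto 0).comp h1
    rw [WithLp.toLp_zero] at h2
    exact h2
  -- the error term
  set F : ℕ → (Fin n → ℝ) → ℝ := fun k y =>
    Real.exp (-W k (fun j => b k j + y j / Real.sqrt 2)) *
      Real.exp (-W k (fun j => b k j - y j / Real.sqrt 2)) with hF
  have hF0 : ∀ k y, 0 ≤ F k y := fun k y => mul_nonneg (Real.exp_pos _).le (Real.exp_pos _).le
  have hF1 : ∀ k y, F k y ≤ 1 := fun k y =>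
    mul_le_one₀ (hWle _ _) (Real.exp_pos _).le (hWle _ _)
  have hFc : ∀ k, Continuous (F k) := fun k => by
    have c1 : Continuous fun y : Fin n → ℝ => (fun j => b k j + y j / Real.sqrt 2) := by fun_prop
    have c2 : Continuous fun y : Fin n → ℝ => (fun j => b k j - y j / Real.sqrt 2) := by fun_prop
    exact (Real.continuous_exp.comp ((hWc k).comp c1).neg).mul
      (Real.continuous_exp.comp ((hWc k).comp c2).neg)
  have hFi : ∀ k, Integrable (F k) (gm n) := fun k => by
    refine Integrable.of_bound (C := 1) (hFc k).aestronglyMeasurable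
      (Eventually.of_forall fun x => ?_)
    rw [Real.norm_of_nonneg (hF0 k x)]
    exact hF1 k x
  -- a point outside
  have hout : ∀ (z : EE n), z ∉ V → ∀ zz : ℕ → EE n, Tendsto zz atTop (𝓝 z) →
      Tendsto (fun k : ℕ => Real.exp (-((k : ℝ) * Metric.infDist (zz k) V))) atTop (𝓝 0) := by
    intro z hz zz hzz
    have hpos : 0 < Metric.infDist z V := (hV.notMem_iff_infDist_pos hne).1 hz
    have h1 : Tendsto (fun k => Metric.infDist (zz k) V) atTop (𝓝 (Metric.infDist z V)) :=
      ((Metric.continuous_infDist_pt V).tendsto z).comp hzz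
    have h2 : ∀ᶠ k in atTop, Metric.infDist z V / 2 < Metric.infDist (zz k) V :=
      h1.eventually (lt_mem_nhds (by linarith))
    refine tendsto_of_tendsto_of_tendsto_of_le_of_le' tendsto_const_nhds
      (tend_exp (Metric.infDist z V / 2) (by linarith))
      (Eventually.of_forall fun k => (Real.exp_pos _).le) ?_
    filter_upwards [h2] with k hk
    apply Real.exp_le_exp.2
    have : (0 : ℝ) ≤ k := Nat.cast_nonneg k
    nlinarith
  have hFlim : Tendsto (fun k => ∫ y, D'ᶜ.indicator (F k) y ∂(gm n)) atTop (𝓝 0) := by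
    have h1 : (0 : ℝ) = ∫ y, (fun _ : Fin n → ℝ => (0:ℝ)) y ∂(gm n) := by simp
    rw [h1]
    refine tendsto_integral_of_dominated_convergence (fun _ => 1) ?_ (integrable_const _) ?_ ?_
    · intro k
      exact ((hFc k).aestronglyMeasurable).indicator mD.compl
    · intro k
      refine Eventually.of_forall fun y => ?_
      rw [Real.norm_of_nonneg (indicator_nonneg (fun x _ => hF0 k x) y)]
      exact (indicator_le_self' (fun x _ => hF0 k x) y).trans (hF1 k y)
    · refine Eventually.of_forall fun y => ?_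
      by_cases hy : y ∈ D'
      · have : (fun k => D'ᶜ.indicator (F k) y) = fun _ => 0 := by
          funext k
          exact indicator_of_notMem (by simpa using hy) _
        rw [this]
        exact tendsto_const_nhds
      · have e1 : (fun k => D'ᶜ.indicator (F k) y) = fun k => F k y := by
          funext k
          exact indicator_of_mem (by simpa using hy) _
        rw [e1]
        have hy2 : ¬ ((Real.sqrt 2)⁻¹ • (WithLp.toLp 2 y : EE n) ∈ V ∧
          -((Real.sqrt 2)⁻¹ • (WithLp.toLp 2 y : EE n)) ∈ V) := hy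
        have t1 : Tendsto (fun k => (WithLp.toLp 2 (fun j => b k j + y j / Real.sqrt 2) : EE n))
            atTop (𝓝 ((Real.sqrt 2)⁻¹ • (WithLp.toLp 2 y : EE n))) := by
          have h2 := hbv.add_const ((Real.sqrt 2)⁻¹ • (WithLp.toLp 2 y : EE n))
          rw [zero_add] at h2
          refine h2.congr fun k => ?_
          ext j
          simp [div_eq_inv_mul]
        have t2 : Tendsto (fun k => (WithLp.toLp 2 (fun j => b k j - y j / Real.sqrt 2) : EE n))
            atTop (𝓝 (-((Real.sqrt 2)⁻¹ • (WithLp.toLp 2 y : EE n)))) := by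
          have h2 := hbv.add_const (-((Real.sqrt 2)⁻¹ • (WithLp.toLp 2 y : EE n)))
          rw [zero_add] at h2
          refine h2.congr fun k => ?_
          ext j
          simp [div_eq_inv_mul, sub_eq_add_neg]
        by_cases hy3 : (Real.sqrt 2)⁻¹ • (WithLp.toLp 2 y : EE n) ∈ V
        · have hy4 : -((Real.sqrt 2)⁻¹ • (WithLp.toLp 2 y : EE n)) ∉ V := fun h => hy2 ⟨hy3, h⟩
          have h5 := hout _ hy4 _ t2
          refine squeeze_zero (hF0 · y) (fun k => ?_) h5
          calc F k y ≤ 1 * Real.exp (-W k (fun j => b k j - y j / Real.sqrt 2)) :=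
                mul_le_mul_of_nonneg_right (hWle _ _) (Real.exp_pos _).le
            _ = _ := one_mul _
        · have h5 := hout _ hy3 _ t1
          refine squeeze_zero (hF0 · y) (fun k => ?_) h5
          calc F k y ≤ Real.exp (-W k (fun j => b k j + y j / Real.sqrt 2)) * 1 :=
                mul_le_mul_of_nonneg_left (hWle _ _) (Real.exp_pos _).le
            _ = _ := mul_one _
  have hfin : ∀ k, p k ^ 2 ≤ (gm n D').toReal + ∫ y, D'ᶜ.indicator (F k) y ∂(gm n) := by
    intro k
    refine (key k).trans ?_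
    have h1 : (gm n D').toReal = ∫ x, D'.indicator (1 : (Fin n → ℝ) → ℝ) x ∂(gm n) := by
      rw [integral_indicator_one mD]; rfl
    have i1 : Integrable (D'.indicator (1 : (Fin n → ℝ) → ℝ)) (gm n) :=
      (integrable_const (1:ℝ)).indicator mD
    have i2 : Integrable (D'ᶜ.indicator (F k)) (gm n) := (hFi k).indicator mD.compl
    rw [h1, ← integral_add i1 i2]
    refine integral_mono (hFi k) (i1.add i2) fun y => ?_
    change F k y ≤ D'.indicator 1 y + D'ᶜ.indicator (F k) y
    by_cases hy : y ∈ D'
    · rw [indicator_of_mem hy, indicator_of_notMem (by simpa using hy)]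
      simpa using hF1 k y
    · rw [indicator_of_notMem hy, indicator_of_mem (by simpa using hy), zero_add]
  have hl := le_of_tendsto_of_tendsto' (hplim.pow 2) (tendsto_const_nhds.add hFlim) hfin
  rwa [add_zero] at hl

end Pool.Agent.Q156.Ban
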