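import Pool.Agent.Q156.BanA
import Pool.Agent.Q156.BanB
import Pool.Agent.Q156.BanC
import Pool.Agent.H988R2.Gauss

/-!
# Balancing in a closed convex set with Gaussian barycenter at the origin
-/

set_option autoImplicit false

namespace Pool.Agent.Q156.Ban

open MeasureTheory ProbabilityTheory Set Filter
open scoped RealInnerProductSpace Topology ENNReal
open Pool.Agent.H460BZ

/-- the bound -/
noncomputable def G (p : ℝ) : ℝ := 100 * Real.sqrt 2 * (1 + 80 / p ^ 3)

theorem G_anti : AntitoneOn G (Ioi 0) := by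
  intro a ha b hb hab
  have ha' : (0:ℝ) < a := ha
  unfold G
  have h1 : a ^ 3 ≤ b ^ 3 := pow_le_pow_left₀ ha'.le hab 3
  have h2 : 80 / b ^ 3 ≤ 80 / a ^ 3 := by
    apply div_le_div_of_nonneg_left (by norm_num) (by positivity) h1
  have h3 : 0 ≤ 100 * Real.sqrt 2 := by positivity
  exact mul_le_mul_of_nonneg_left (by linarith) h3

theorem G_pos (p : ℝ) (hp : 0 < p) : 0 < G p := by
  unfold G; positivity

theorem bal_main {n m : ℕ} (V : Set (EE n)) (hV : IsClosed V) (hc : Convex ℝ V)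
    (hb : ∫ x in V, x ∂(stdGaussian (EE n)) = 0) (hpos : 0 < (stdGaussian (EE n) V).toReal)
    (u : Fin m → EE n) (hu : ∀ i, ‖u i‖ ≤ 1) :
    ∃ ε : Fin m → ℤˣ, (G (stdGaussian (EE n) V).toReal)⁻¹ • ∑ i, ((ε i : ℤ) : ℝ) • u i ∈ V := by
  set p := (stdGaussian (EE n) V).toReal with hp
  have hsym := symz V hV hc hb
  rw [← hp] at hsym
  set K : Set (EE n) := {x | (1 + 4 * (20 / p) / p ^ 2)⁻¹ • x ∈ Dd V} with hK
  have hdil := dil (Dd V) (Dd_closed V hV) (Dd_convex V hc) (Dd_symm V) (p ^ 2) (by positivity)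
    hsym (20 / p) (by positivity)
  have hexp : Real.exp (-((20 / p) ^ 2 / 4)) / p ^ 2 ≤ 1 / 100 := by
    rw [div_le_iff₀ (by positivity), Real.exp_neg, inv_le_comm₀ (Real.exp_pos _) (by positivity)]
    calc (1 / 100 * p ^ 2)⁻¹ = (20 / p) ^ 2 / 4 := by field_simp; norm_num
      _ ≤ Real.exp ((20 / p) ^ 2 / 4) := by
          linarith [Real.add_one_le_exp ((20 / p) ^ 2 / 4)]
  have hKm : 99 / 100 ≤ (stdGaussian (EE n) K).toReal := by linarith
  have hKcl : IsClosed K := (Dd_closed V hV).preimage (continuous_const_smul _)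
  have hKcv : Convex ℝ K := by
    intro x hx y hy a b ha hb hab
    show (1 + 4 * (20 / p) / p ^ 2)⁻¹ • (a • x + b • y) ∈ Dd V
    rw [smul_add, smul_comm _ a x, smul_comm _ b y]
    exact Dd_convex V hc hx hy ha hb hab
  have hKs : ∀ x ∈ K, -x ∈ K := by
    intro x hx
    show (1 + 4 * (20 / p) / p ^ 2)⁻¹ • (-x) ∈ Dd V
    rw [smul_neg]
    exact Dd_symm V _ hx
  obtain ⟨ε, hε⟩ := bal_le m K hKcl hKcv hKs hKm (fun i => (1 / 100 : ℝ) • u i) (by
    intro i
    rw [norm_smul, Real.norm_of_nonneg (by norm_num)]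
    linarith [hu i])
  refine ⟨ε, ?_⟩
  have h1 := hε.1
  have e : (Real.sqrt 2)⁻¹ • (1 + 4 * (20 / p) / p ^ 2)⁻¹ •
      ∑ i, ((ε i : ℤ) : ℝ) • (1 / 100 : ℝ) • u i = (G p)⁻¹ • ∑ i, ((ε i : ℤ) : ℝ) • u i := by
    have e1 : ∑ i, ((ε i : ℤ) : ℝ) • (1 / 100 : ℝ) • u i =
        (1 / 100 : ℝ) • ∑ i, ((ε i : ℤ) : ℝ) • u i := by
      rw [Finset.smul_sum]
      exact Finset.sum_congr rfl fun i _ => smul_comm _ _ _
    rw [e1, smul_smul, smul_smul]
    congr 1
    unfold G
    rw [mul_inv, mul_inv]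
    have e2 : 4 * (20 / p) / p ^ 2 = 80 / p ^ 3 := by field_simp; norm_num
    rw [e2]
    ring
  rw [e] at h1
  exact h1

/-- the vector balancing constant `β(B_2^n, V)`: the supremum over all `n`-tuples of vectors of the
closed unit ball of the minimum over signs of the gauge of the signed sum -/
noncomputable def beta {n : ℕ} (V : Set (EuclideanSpace ℝ (Fin n))) : ℝ≥0∞ :=
  ⨆ u : Fin n → Metric.closedBall (0 : EuclideanSpace ℝ (Fin n)) 1, ⨅ ε : Fin n → ℤˣ,
    ENNReal.ofReal (gauge V (∑ i, ((ε i : ℤ) : ℝ) • (u i : EuclideanSpace ℝ (Fin n))))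

theorem gpos {n : ℕ} (V : Set (EE n)) (hne : (interior V).Nonempty) :
    0 < (stdGaussian (EE n) V).toReal := by
  rw [ENNReal.toReal_pos_iff]
  refine ⟨?_, measure_lt_top _ _⟩
  rw [pos_iff_ne_zero]
  intro h
  have h1 : (volume : Measure (EE n)) ≪ stdGaussian (EE n) := by
    rw [Pool.Agent.H988R2.stdGaussian_eq]
    apply withDensity_absolutelyContinuous'
    · exact (Pool.Agent.H988R2.continuous_gdens (Fin n)).measurable.ennreal_ofReal.aemeasurable
    · refine Eventually.of_forall fun x => ?_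
      exact (ENNReal.ofReal_pos.2 (Pool.Agent.H988R2.gdens_pos (Fin n) x)).ne'
  have h2 := h1 h
  have h3 : volume (interior V) = 0 := measure_mono_null interior_subset h2
  exact (isOpen_interior.measure_pos volume hne).ne' h3

theorem beta_le {n : ℕ} (V : Set (EE n)) (hV : IsClosed V) (hc : Convex ℝ V)
    (h0 : (0 : EE n) ∈ interior V)
    (hb : ∫ x in V, x ∂(stdGaussian (EE n)) = 0) :
    beta V ≤ ENNReal.ofReal (G (stdGaussian (EE n) V).toReal) := by
  have hpos := gpos V ⟨0, h0⟩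
  have hG := G_pos _ hpos
  refine iSup_le fun u => ?_
  obtain ⟨ε, hε⟩ := bal_main V hV hc hb hpos (fun i => (u i : EE n))
    (fun i => mem_closedBall_zero_iff.1 (u i).2)
  refine (iInf_le _ ε).trans ?_
  apply ENNReal.ofReal_le_ofReal
  apply gauge_le_of_mem hG.le
  rw [mem_smul_set_iff_inv_smul_mem₀ hG.ne']
  exact hε

end Pool.Agent.Q156.Ban
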