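import Pool.Agent.Q156.BanD

/-!
# The translate of maximal Gaussian measure has its Gaussian barycenter at the origin
-/

set_option autoImplicit false

namespace Pool.Agent.Q156.Ban

open MeasureTheory ProbabilityTheory Set Filter
open scoped RealInnerProductSpace Topology ENNReal
open Pool.Agent.H460BZ

/-- the translate `V + x` -/
def tr {n : ℕ} (V : Set (EuclideanSpace ℝ (Fin n))) (x : EuclideanSpace ℝ (Fin n)) :
    Set (EuclideanSpace ℝ (Fin n)) := (fun y => y - x) ⁻¹' V

variable {n : ℕ}

theorem tr_closed {V : Set (EE n)} (hV : IsClosed V) (x : EE n) : IsClosed (tr V x) :=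
  hV.preimage (continuous_id.sub continuous_const)

theorem tr_image (V : Set (EE n)) (x : EE n) : tr V x = (fun y => y + x) '' V := by
  ext y
  constructor
  · intro hy
    exact ⟨y - x, hy, by simp⟩
  · rintro ⟨z, hz, rfl⟩
    show z + x - x ∈ V
    simpa using hz

theorem tr_compact {V : Set (EE n)} (hV : IsCompact V) (x : EE n) : IsCompact (tr V x) := by
  rw [tr_image]
  exact hV.image (continuous_id.add continuous_const)

theorem tr_convex {V : Set (EE n)} (hV : Convex ℝ V) (x : EE n) : Convex ℝ (tr V x) := by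
  intro y hy z hz a b ha hb hab
  show a • y + b • z - x ∈ V
  have h1 := hV hy hz ha hb hab
  have e : a • (y - x) + b • (z - x) = a • y + b • z - x := by
    have : a • x + b • x = x := by rw [← add_smul, hab, one_smul]
    rw [smul_sub, smul_sub]
    nth_rewrite 3 [← this]
    abel
  rw [← e]
  exact h1

theorem tr_interior {V : Set (EE n)} (hV : (interior V).Nonempty) (x : EE n) :
    (interior (tr V x)).Nonempty := by
  obtain ⟨y, hy⟩ := hV
  refine ⟨y + x, ?_⟩
  rw [mem_interior_iff_mem_nhds] at hy ⊢
  have h1 : Tendsto (fun z : EE n => z - x) (𝓝 (y + x)) (𝓝 y) :=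
    (by fun_prop : Continuous fun z : EE n => z - x).tendsto' _ _ (by simp)
  exact h1 hy

theorem tr_tr (V : Set (EE n)) (x h : EE n) : tr (tr V x) h = tr V (x + h) := by
  ext y
  show y - h - x ∈ V ↔ y - (x + h) ∈ V
  rw [sub_sub, add_comm h x]

/-- the Gaussian measure of a translate -/
theorem tr_formula {V : Set (EE n)} (hV : IsClosed V) (x : EE n) :
    (stdGaussian (EE n) (tr V x)).toReal =
      Real.exp (-‖x‖ ^ 2 / 2) * ∫ y in V, Real.exp (-⟪y, x⟫) ∂(stdGaussian (EE n)) := by
  have h1 := Pool.Agent.H988R2.integral_stdGaussian_add (Fin n)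
    (V.indicator (1 : EE n → ℝ)) (-x)
  have h2 : ∫ y, V.indicator (1 : EE n → ℝ) (y + -x) ∂(stdGaussian (EE n)) =
      (stdGaussian (EE n) (tr V x)).toReal := by
    have : (fun y : EE n => V.indicator (1 : EE n → ℝ) (y + -x)) = (tr V x).indicator 1 := by
      funext y
      rw [← sub_eq_add_neg]
      rfl
    rw [this, integral_indicator_one (tr_closed hV x).measurableSet]
    rfl
  rw [h2] at h1
  rw [h1, norm_neg]
  congr 1
  rw [← integral_indicator hV.measurableSet]
  refine integral_congr_ae (Eventually.of_forall fun y => ?_)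
  simp only [inner_neg_right]
  by_cases hy : y ∈ V
  · rw [indicator_of_mem hy, indicator_of_mem hy]; simp
  · rw [indicator_of_notMem hy, indicator_of_notMem hy]; simp

theorem tr_cont {V : Set (EE n)} (hV : IsCompact V) :
    Continuous fun x => (stdGaussian (EE n) (tr V x)).toReal := by
  have h1 : Continuous fun x : EE n => ∫ y in V, Real.exp (-⟪y, x⟫) ∂(stdGaussian (EE n)) := by
    apply continuous_parametric_integral_of_continuous _ hV
    exact Real.continuous_exp.comp (continuous_snd.inner continuous_fst).neg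
  have h2 : (fun x => (stdGaussian (EE n) (tr V x)).toReal) = fun x =>
      Real.exp (-‖x‖ ^ 2 / 2) * ∫ y in V, Real.exp (-⟪y, x⟫) ∂(stdGaussian (EE n)) :=
    funext fun x => tr_formula hV.isClosed x
  rw [h2]
  have h3 : Continuous fun x : EE n => Real.exp (-‖x‖ ^ 2 / 2) := by fun_prop
  exact h3.mul h1

theorem exp_int {V : Set (EE n)} (hV : IsCompact V) (x : EE n) :
    IntegrableOn (fun y => Real.exp (-⟪y, x⟫)) V (stdGaussian (EE n)) := by
  apply ContinuousOn.integrableOn_compact hV
  apply Continuous.continuousOn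
  exact Real.continuous_exp.comp (continuous_id.inner continuous_const).neg

theorem tr_lim {V : Set (EE n)} (hV : IsCompact V) :
    Tendsto (fun x => (stdGaussian (EE n) (tr V x)).toReal) (cocompact (EE n)) (𝓝 0) := by
  obtain ⟨R, hR0, hR⟩ : ∃ R : ℝ, 0 < R ∧ ∀ y ∈ V, ‖y‖ ≤ R := by
    obtain ⟨R, hR⟩ := hV.isBounded.exists_norm_le
    exact ⟨max R 1, by positivity, fun y hy => (hR y hy).trans (le_max_left _ _)⟩
  have hle : ∀ x : EE n, (stdGaussian (EE n) (tr V x)).toReal ≤
      Real.exp (-‖x‖ ^ 2 / 2) * Real.exp (R * ‖x‖) := by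
    intro x
    rw [tr_formula hV.isClosed x]
    apply mul_le_mul_of_nonneg_left _ (Real.exp_pos _).le
    calc ∫ y in V, Real.exp (-⟪y, x⟫) ∂(stdGaussian (EE n)) ≤
          ∫ _y in V, Real.exp (R * ‖x‖) ∂(stdGaussian (EE n)) := by
          apply setIntegral_mono_on (exp_int hV x) (integrable_const _).integrableOn
            hV.isClosed.measurableSet
          intro y hy
          apply Real.exp_le_exp.2
          have h1 := abs_real_inner_le_norm y x
          have h2 := neg_abs_le ⟪y, x⟫
          have h3 : ‖y‖ * ‖x‖ ≤ R * ‖x‖ := mul_le_mul_of_nonneg_right (hR y hy) (norm_nonneg _)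
          linarith
      _ = (stdGaussian (EE n) V).toReal * Real.exp (R * ‖x‖) := by
          rw [setIntegral_const, smul_eq_mul]; rfl
      _ ≤ 1 * Real.exp (R * ‖x‖) := by
          apply mul_le_mul_of_nonneg_right _ (Real.exp_pos _).le
          exact measureReal_le_one
      _ = _ := one_mul _
  have hlim : Tendsto (fun x : EE n => Real.exp (-‖x‖ ^ 2 / 2) * Real.exp (R * ‖x‖))
      (cocompact (EE n)) (𝓝 0) := by
    have h1 : Tendsto (fun r : ℝ => Real.exp (-r ^ 2 / 2) * Real.exp (R * r)) atTop (𝓝 0) := by
      have h2 : (fun r : ℝ => Real.exp (-r ^ 2 / 2) * Real.exp (R * r)) =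
          fun r => Real.exp (-(r * (r / 2 - R))) := by
        funext r
        rw [← Real.exp_add]
        congr 1; ring
      rw [h2]
      apply Real.tendsto_exp_atBot.comp
      apply tendsto_neg_atTop_atBot.comp
      apply Tendsto.atTop_mul_atTop₀ tendsto_id
      apply tendsto_atTop_add_const_right
      exact tendsto_id.atTop_div_const (by norm_num)
    exact h1.comp (tendsto_norm_cocompact_atTop)
  exact squeeze_zero (fun x => ENNReal.toReal_nonneg) hle hlim

theorem exists_max {V : Set (EE n)} (hV : IsCompact V) (hne : (interior V).Nonempty) :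
    ∃ x, ∀ y, (stdGaussian (EE n) (tr V y)).toReal ≤ (stdGaussian (EE n) (tr V x)).toReal := by
  have h0 := gpos (tr V 0) (tr_interior hne 0)
  have h1 := (tr_lim hV).eventually (gt_mem_nhds h0)
  exact (tr_cont hV).exists_forall_ge' 0 (h1.mono fun x hx => hx.le)

/-- a convex body which cannot be translated to a body of larger Gaussian measure has Gaussian
barycenter at the origin -/
theorem bary_zero {U : Set (EE n)} (hU : IsCompact U)
    (hmax : ∀ h, (stdGaussian (EE n) (tr U h)).toReal ≤ (stdGaussian (EE n) U).toReal) :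
    ∫ y in U, y ∂(stdGaussian (EE n)) = 0 := by
  set v : EE n := ∫ y in U, y ∂(stdGaussian (EE n)) with hv
  by_contra hne
  have hvn : 0 < ‖v‖ := norm_pos_iff.2 hne
  set q := (stdGaussian (EE n) U).toReal with hq
  have hq1 : q ≤ 1 := measureReal_le_one
  have hq0 : 0 ≤ q := ENNReal.toReal_nonneg
  have hid : IntegrableOn (fun y : EE n => y) U (stdGaussian (EE n)) :=
    continuous_id.continuousOn.integrableOn_compact hU
  have key : ∀ s : ℝ, 0 < s → Real.exp (-(s ^ 2 * ‖v‖ ^ 2) / 2) * (q + s * ‖v‖ ^ 2) ≤ q := by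
    intro s hs
    have h1 := hmax (-(s • v))
    rw [tr_formula hU.isClosed, norm_neg, norm_smul, Real.norm_of_nonneg hs.le, mul_pow] at h1
    have h2 : q + s * ‖v‖ ^ 2 ≤ ∫ y in U, Real.exp (-⟪y, -(s • v)⟫) ∂(stdGaussian (EE n)) := by
      have h3 : ∫ y in U, (1 + ⟪y, s • v⟫) ∂(stdGaussian (EE n)) = q + s * ‖v‖ ^ 2 := by
        have i1 : IntegrableOn (fun y : EE n => ⟪y, s • v⟫) U (stdGaussian (EE n)) := by
          apply ContinuousOn.integrableOn_compact hU
          exact (continuous_id.inner continuous_const).continuousOn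
        rw [integral_add (integrable_const _) i1, setIntegral_const, smul_eq_mul, mul_one]
        congr 1
        have h4 : (fun y : EE n => ⟪y, s • v⟫) = fun y => ⟪s • v, y⟫ := by
          funext y
          exact real_inner_comm _ _
        rw [h4, integral_inner hid, inner_smul_left, real_inner_self_eq_norm_sq]
        rfl
      rw [← h3]
      apply setIntegral_mono_on _ (exp_int hU _) hU.isClosed.measurableSet
      · intro y _
        rw [inner_neg_right, neg_neg]
        linarith [Real.add_one_le_exp ⟪y, s • v⟫]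
      · apply ContinuousOn.integrableOn_compact hU
        exact (continuous_const.add (continuous_id.inner continuous_const)).continuousOn
    refine (mul_le_mul_of_nonneg_left h2 (Real.exp_pos _).le).trans ?_
    exact h1
  -- choose `s` small
  set s : ℝ := min (1 / 2) (1 / ‖v‖) with hs
  have hs0 : 0 < s := by positivity
  have hs1 : s ≤ 1 / 2 := min_le_left _ _
  have hs2 : s * ‖v‖ ≤ 1 := by
    have := min_le_right (1 / 2) (1 / ‖v‖)
    calc s * ‖v‖ ≤ 1 / ‖v‖ * ‖v‖ := mul_le_mul_of_nonneg_right this hvn.le
      _ = 1 := by field_simp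
  have h1 := key s hs0
  set z := s ^ 2 * ‖v‖ ^ 2 with hz
  have hz1 : z ≤ 1 := by
    rw [hz, ← mul_pow]
    exact pow_le_one₀ (by positivity) hs2
  have h2 : 1 - z / 2 ≤ Real.exp (-z / 2) := by
    linarith [Real.add_one_le_exp (-z / 2)]
  have h3 : (1 - z / 2) * (q + s * ‖v‖ ^ 2) ≤ q :=
    (mul_le_mul_of_nonneg_right h2 (by positivity)).trans h1
  have h4 : z = s * (s * ‖v‖ ^ 2) := by rw [hz]; ring
  have h5 : 0 < s * ‖v‖ ^ 2 := by positivity
  have h6 : 0 < z := by positivity
  nlinarith [mul_pos h5 h6, mul_le_mul_of_nonneg_right hs1 h5.le, mul_le_mul_of_nonneg_right hz1 h5.le]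

/-- a convex body with Gaussian barycenter at the origin contains the origin in its interior -/
theorem zero_mem {U : Set (EE n)} (hU : IsCompact U) (hc : Convex ℝ U)
    (hne : (interior U).Nonempty) (hb : ∫ y in U, y ∂(stdGaussian (EE n)) = 0) :
    (0 : EE n) ∈ interior U := by
  by_contra hcon
  obtain ⟨f, hf⟩ := geometric_hahn_banach_open_point hc.interior isOpen_interior hcon
  rw [map_zero] at hf
  have hle : ∀ y ∈ U, f y ≤ 0 := by
    intro y hy
    have h1 : y ∈ closure (interior U) := by
      rw [hc.closure_interior_eq_closure_of_nonempty_interior hne]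
      exact subset_closure hy
    have h2 : closure (interior U) ⊆ {y | f y ≤ 0} :=
      closure_minimal (fun z hz => (hf z hz).le) (isClosed_le f.continuous continuous_const)
    exact h2 h1
  have hid : IntegrableOn (fun y : EE n => y) U (stdGaussian (EE n)) :=
    continuous_id.continuousOn.integrableOn_compact hU
  have h1 : ∫ y in U, f y ∂(stdGaussian (EE n)) = 0 := by
    rw [ContinuousLinearMap.integral_comp_comm f hid, hb, map_zero]
  have h2 : ∫ y in U, -(f y) ∂(stdGaussian (EE n)) = 0 := by rw [integral_neg, h1, neg_zero]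
  have hfi : IntegrableOn (fun y : EE n => -(f y)) U (stdGaussian (EE n)) :=
    (f.continuous.neg).continuousOn.integrableOn_compact hU
  rw [setIntegral_eq_zero_iff_of_nonneg_ae] at h2
  · have h3 : (stdGaussian (EE n)) (interior U) = 0 := by
      have h4 : ∀ᵐ y ∂(stdGaussian (EE n)), y ∈ U → -(f y) = 0 := by
        have := (ae_restrict_iff' hU.isClosed.measurableSet).1 h2
        exact this
      have h5 : ∀ᵐ y ∂(stdGaussian (EE n)), y ∉ interior U := by
        filter_upwards [h4] with y hy hyi
        have := hf y hyi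
        have h6 := hy (interior_subset hyi)
        linarith
      exact measure_eq_zero_iff_ae_notMem.2 h5
    have h4 := gpos (interior U) (by rwa [interior_interior])
    rw [h3] at h4
    simp at h4
  · rw [EventuallyLE, ae_restrict_iff' hU.isClosed.measurableSet]
    exact Eventually.of_forall fun y hy => by
      have := hle y hy
      simp only [Pi.zero_apply]
      linarith
  · exact hfi

/-- the main statement for translates -/
theorem exists_translate {V : Set (EE n)} (hV : IsCompact V) (hc : Convex ℝ V)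
    (hne : (interior V).Nonempty) : ∃ x : EE n, (0 : EE n) ∈ interior (tr V x) ∧
      ∀ y : EE n, beta (tr V x) ≤ ENNReal.ofReal (G (stdGaussian (EE n) (tr V y)).toReal) := by
  obtain ⟨x, hx⟩ := exists_max hV hne
  have hU := tr_compact hV x
  have hb : ∫ y in tr V x, y ∂(stdGaussian (EE n)) = 0 := by
    apply bary_zero hU
    intro h
    rw [tr_tr]
    exact hx _
  have h0 := zero_mem hU (tr_convex hc x) (tr_interior hne x) hb
  refine ⟨x, h0, fun y => ?_⟩
  refine (beta_le _ hU.isClosed (tr_convex hc x) h0 hb).trans ?_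
  apply ENNReal.ofReal_le_ofReal
  exact G_anti (gpos _ (tr_interior hne y)) (gpos _ (tr_interior hne x)) (hx y)

theorem iInf_translate {V : Set (EuclideanSpace ℝ (Fin n))} (hV : IsCompact V) (hc : Convex ℝ V)
    (hne : (interior V).Nonempty) :
    (⨅ x : {x : EuclideanSpace ℝ (Fin n) // (0 : EuclideanSpace ℝ (Fin n)) ∈ interior (tr V x)},
      beta (tr V x)) ≤ ⨅ y : EuclideanSpace ℝ (Fin n),
        ENNReal.ofReal (G (stdGaussian (EuclideanSpace ℝ (Fin n)) (tr V y)).toReal) := by
  obtain ⟨x, hx, hy⟩ := exists_translate hV hc hne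
  refine le_iInf fun y => ?_
  refine le_trans ?_ (hy y)
  exact iInf_le (fun x : {x : EuclideanSpace ℝ (Fin n) //
    (0 : EuclideanSpace ℝ (Fin n)) ∈ interior (tr V x)} => beta (tr V x.1)) ⟨x, hx⟩

end Pool.Agent.Q156.Ban
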