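import Mathlib

/-!
Completely symmetric sets in a Euclidean space, and a criterion for completeness of a group of
isometries of a Euclidean plane: it is enough that the group contains a rotation of order at
least three.
-/

open MeasureTheory Metric Module
open scoped RealInnerProductSpace

namespace Pool.Agent.Q156

variable {V : Type*} [NormedAddCommGroup V] [InnerProductSpace ℝ V]

/-- The symmetry group of `A`: all isometries `T` of `V` with `T A = A`. -/
def symGroup (A : Set V) : Set (V ≃ᵢ V) := {T | T '' A = A}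

/-- An ellipsoid: the image of the closed unit ball under an affine bijection. -/
def IsEllipsoid (E : Set V) : Prop := ∃ f : V ≃ᵃ[ℝ] V, E = f '' closedBall (0 : V) 1

/-- A Euclidean ball (closed, of positive radius). -/
def IsEuclideanBall (E : Set V) : Prop := ∃ (c : V) (r : ℝ), 0 < r ∧ E = closedBall c r

/-- A set of isometries is complete if every ellipsoid whose symmetry group contains it is a
Euclidean ball. -/
def IsCompleteGroup (G : Set (V ≃ᵢ V)) : Prop :=
  ∀ E : Set V, IsEllipsoid E → G ⊆ symGroup E → IsEuclideanBall E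

/-- The affine conjugate of a symmetry fixes the centre of the unit ball. -/
theorem ball_center_fixed (g : V ≃ᵃ[ℝ] V) (hg : g '' closedBall (0 : V) 1 = closedBall (0 : V) 1) :
    g 0 = 0 := by
  by_contra hw
  have hpos : 0 < ‖g 0‖ := norm_pos_iff.mpr hw
  -- the point - w / |w| is in the ball
  have h1 : (-(‖g 0‖⁻¹ • g 0)) ∈ closedBall (0 : V) 1 := by
    rw [mem_closedBall, dist_zero_right, norm_neg, norm_smul, norm_inv, norm_norm,
      inv_mul_cancel₀ hpos.ne']
  rw [← hg] at h1
  obtain ⟨y, hy, hgy⟩ := h1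
  have h2 : g (-y) ∈ closedBall (0 : V) 1 := by
    rw [← hg]
    refine ⟨-y, ?_, rfl⟩
    rw [mem_closedBall, dist_zero_right, norm_neg]
    rwa [mem_closedBall, dist_zero_right] at hy
  have hlin : ∀ x, g x = g.linear x + g 0 := by
    intro x
    have := g.map_vadd 0 x
    simpa using this
  have h3 : g (-y) = (2 : ℝ) • g 0 - g y := by
    rw [hlin (-y), hlin y, map_neg]
    module
  rw [h3, hgy, mem_closedBall, dist_zero_right] at h2
  have h4 : (2 : ℝ) • g 0 - -(‖g 0‖⁻¹ • g 0) = (2 + ‖g 0‖⁻¹) • g 0 := by module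
  rw [h4, norm_smul, Real.norm_of_nonneg (by positivity), add_mul, inv_mul_cancel₀ hpos.ne'] at h2
  linarith

/-- In a plane, a rotation (other than the two trivial ones) makes a group complete. -/
theorem isCompleteGroup_of_rotation (hd : finrank ℝ V = 2) (R : V ≃ₗᵢ[ℝ] V) (c : ℝ)
    (hc : |c| < 2) (hR : ∀ x, R (R x) = c • R x - x) (G : Set (V ≃ᵢ V))
    (hG : R.toIsometryEquiv ∈ G) : IsCompleteGroup G := by
  intro E hE hGE
  have hsym : R.toIsometryEquiv '' E = E := hGE hG
  obtain ⟨hc1, hc2⟩ := abs_lt.mp hc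
  obtain ⟨f, rfl⟩ := hE
  have hfix : ∀ w : V, R w = w → w = 0 := by
    intro w hw
    have h1 := hR w
    rw [hw, hw] at h1
    have h2 : (2 - c) • w = 0 := by
      have : (2 - c) • w = w - (c • w - w) := by module
      rw [this, ← h1, sub_self]
    rcases smul_eq_zero.mp h2 with h | h
    · linarith
    · exact h
  -- conjugate symmetry
  have hf0 : f 0 = 0 := by
    apply hfix
    let g : V ≃ᵃ[ℝ] V := (f.trans R.toLinearEquiv.toAffineEquiv).trans f.symm
    have hg : g '' closedBall (0 : V) 1 = closedBall (0 : V) 1 := by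
      have : (g : V → V) = f.symm ∘ (R.toIsometryEquiv ∘ f) := rfl
      rw [this, Set.image_comp, Set.image_comp, hsym, ← Set.image_comp]
      have : (f.symm ∘ f : V → V) = id := by
        ext x; simp
      rw [this, Set.image_id]
    have hg0 := ball_center_fixed g hg
    have : f.symm (R (f 0)) = 0 := hg0
    have h2 := congrArg f this
    rwa [f.apply_symm_apply] at h2
  have hlin : ∀ x, f x = f.linear x := by
    intro x
    have := f.map_vadd 0 x
    simpa [hf0] using this
  set L : V ≃ₗ[ℝ] V := f.linear with hL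
  -- the gauge
  have hmem : ∀ x, x ∈ f '' closedBall (0 : V) 1 ↔ ‖L.symm x‖ ≤ 1 := by
    intro x
    constructor
    · rintro ⟨y, hy, rfl⟩
      rw [hlin, L.symm_apply_apply]
      rwa [mem_closedBall, dist_zero_right] at hy
    · intro h
      refine ⟨L.symm x, ?_, ?_⟩
      · rwa [mem_closedBall, dist_zero_right]
      · rw [hlin, L.apply_symm_apply]
  have hmemR : ∀ x, ‖L.symm (R x)‖ ≤ 1 ↔ ‖L.symm x‖ ≤ 1 := by
    intro x
    rw [← hmem, ← hmem]
    constructor
    · intro h
      rw [← hsym] at h
      obtain ⟨y, hy, hyx⟩ := h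
      have : y = x := R.injective hyx
      rwa [← this]
    · intro h
      rw [← hsym]
      exact ⟨x, h, rfl⟩
  have hle : ∀ x, ‖L.symm (R x)‖ ≤ ‖L.symm x‖ := by
    intro x
    rcases eq_or_ne x 0 with rfl | hx
    · simp
    have hpos : 0 < ‖L.symm x‖ := norm_pos_iff.mpr (by simpa using hx)
    have h := (hmemR (‖L.symm x‖⁻¹ • x)).mpr (by
      rw [map_smul, norm_smul, norm_inv, norm_norm, inv_mul_cancel₀ hpos.ne'])
    rw [map_smul, map_smul, norm_smul, norm_inv, norm_norm, inv_mul_le_iff₀ hpos, mul_one] at h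
    exact h
  have hge : ∀ x, ‖L.symm x‖ ≤ ‖L.symm (R x)‖ := by
    intro x
    rcases eq_or_ne x 0 with rfl | hx
    · simp
    have hpos : 0 < ‖L.symm (R x)‖ := norm_pos_iff.mpr (by simpa using hx)
    have h := (hmemR (‖L.symm (R x)‖⁻¹ • x)).mp (by
      rw [map_smul, map_smul, norm_smul, norm_inv, norm_norm, inv_mul_cancel₀ hpos.ne'])
    rw [map_smul, norm_smul, norm_inv, norm_norm, inv_mul_le_iff₀ hpos, mul_one] at h
    exact h
  have heq : ∀ x, ‖L.symm (R x)‖ = ‖L.symm x‖ := fun x => le_antisymm (hle x) (hge x)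
  -- pick a nonzero vector
  have hnt : Nontrivial V := by
    apply Module.nontrivial_of_finrank_pos (R := ℝ)
    rw [hd]; norm_num
  obtain ⟨v, hv⟩ := exists_ne (0 : V)
  have : FiniteDimensional ℝ V := FiniteDimensional.of_finrank_pos (by rw [hd]; norm_num)
  have hinner : ∀ x : V, 2 * ⟪R x, x⟫ = c * ‖x‖ ^ 2 := by
    intro x
    have h1 : ⟪R x, R (R x)⟫ = ⟪x, R x⟫ := R.inner_map_map x (R x)
    rw [hR x, inner_sub_right, inner_smul_right, real_inner_self_eq_norm_sq, R.norm_map,
      real_inner_comm (R x) x] at h1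
    linarith [h1]
  have hpol : ∀ x y : V, ⟪L.symm (R x), L.symm (R y)⟫ = ⟪L.symm x, L.symm y⟫ := by
    intro x y
    rw [real_inner_eq_norm_mul_self_add_norm_mul_self_sub_norm_sub_mul_self_div_two,
      real_inner_eq_norm_mul_self_add_norm_mul_self_sub_norm_sub_mul_self_div_two,
      ← map_sub, ← map_sub, ← map_sub, heq, heq, heq]
  have hinnerL : ∀ x : V, 2 * ⟪L.symm (R x), L.symm x⟫ = c * ‖L.symm x‖ ^ 2 := by
    intro x
    have h1 := hpol x (R x)
    rw [hR x, map_sub, map_smul, inner_sub_right, inner_smul_right, real_inner_self_eq_norm_sq,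
      heq, real_inner_comm (L.symm (R x)) (L.symm x)] at h1
    linarith [h1]
  have hli : LinearIndependent ℝ ![v, R v] := by
    rw [LinearIndependent.pair_iff]
    intro s t hst
    have h1 : s * ‖v‖ ^ 2 + t * (c / 2 * ‖v‖ ^ 2) = 0 := by
      have := congrArg (fun z => ⟪z, v⟫) hst
      simp only [inner_add_left, inner_smul_left, inner_zero_left, real_inner_self_eq_norm_sq,
        RCLike.conj_to_real] at this
      have h2 := hinner v
      linear_combination this - (t / 2) * h2
    have h2 : s * (c / 2 * ‖v‖ ^ 2) + t * ‖v‖ ^ 2 = 0 := by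
      have := congrArg (fun z => ⟪R v, z⟫) hst
      simp only [inner_add_right, inner_smul_right, inner_zero_right, real_inner_self_eq_norm_sq,
        R.norm_map] at this
      have h2 := hinner v
      linear_combination this - (s / 2) * h2
    have hvp : 0 < ‖v‖ ^ 2 := by
      have := norm_pos_iff.mpr hv
      positivity
    have h3 : s + t * (c / 2) = 0 := by
      have : (s + t * (c / 2)) * ‖v‖ ^ 2 = 0 := by linarith
      rcases mul_eq_zero.mp this with h | h
      · exact h
      · exact absurd h hvp.ne'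
    have h4 : s * (c / 2) + t = 0 := by
      have : (s * (c / 2) + t) * ‖v‖ ^ 2 = 0 := by linarith
      rcases mul_eq_zero.mp this with h | h
      · exact h
      · exact absurd h hvp.ne'
    have h5 : t * (1 - (c / 2) ^ 2) = 0 := by
      have : s = -(t * (c / 2)) := by linarith
      rw [this] at h4
      linarith [h4]
    have h6 : (1 - (c / 2) ^ 2) ≠ 0 := by
      have : 0 < (1 - c / 2) * (1 + c / 2) := mul_pos (by linarith) (by linarith)
      intro h
      nlinarith
    have ht : t = 0 := by
      rcases mul_eq_zero.mp h5 with h | h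
      · exact h
      · exact absurd h h6
    refine ⟨?_, ht⟩
    rw [ht] at h3
    linarith
  have hspan : ∀ x : V, ∃ a b : ℝ, x = a • v + b • R v := by
    intro x
    have htop : Submodule.span ℝ (Set.range ![v, R v]) = ⊤ := by
      apply hli.span_eq_top_of_card_eq_finrank
      simp [hd]
    have hx : x ∈ Submodule.span ℝ (Set.range ![v, R v]) := by rw [htop]; trivial
    rw [Matrix.range_cons, Matrix.range_cons, Matrix.range_empty, Set.union_empty,
      Set.singleton_union, Submodule.mem_span_pair] at hx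
    obtain ⟨a, b, hab⟩ := hx
    exact ⟨a, b, hab.symm⟩
  have hvpos : 0 < ‖v‖ := norm_pos_iff.mpr hv
  have hLvpos : 0 < ‖L.symm v‖ := norm_pos_iff.mpr (by simpa using hv)
  have hquad : ∀ x : V, ‖L.symm x‖ ^ 2 * ‖v‖ ^ 2 = ‖x‖ ^ 2 * ‖L.symm v‖ ^ 2 := by
    intro x
    obtain ⟨a, b, rfl⟩ := hspan x
    have e1 : ‖a • v + b • R v‖ ^ 2 = (a ^ 2 + b ^ 2 + a * b * c) * ‖v‖ ^ 2 := by
      rw [@norm_add_sq_real, norm_smul, norm_smul, R.norm_map, mul_pow, mul_pow,
        Real.norm_eq_abs, Real.norm_eq_abs, sq_abs, sq_abs, inner_smul_left, inner_smul_right,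
        RCLike.conj_to_real, real_inner_comm]
      have := hinner v
      linear_combination (a * b) * this
    have e2 : ‖L.symm (a • v + b • R v)‖ ^ 2 =
        (a ^ 2 + b ^ 2 + a * b * c) * ‖L.symm v‖ ^ 2 := by
      rw [map_add, map_smul, map_smul, @norm_add_sq_real, norm_smul, norm_smul, heq, mul_pow,
        mul_pow, Real.norm_eq_abs, Real.norm_eq_abs, sq_abs, sq_abs, inner_smul_left,
        inner_smul_right, RCLike.conj_to_real, real_inner_comm]
      have := hinnerL v
      linear_combination (a * b) * this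
    rw [e1, e2]; ring
  refine ⟨0, ‖v‖ / ‖L.symm v‖, div_pos hvpos hLvpos, ?_⟩
  ext x
  rw [hmem, mem_closedBall, dist_zero_right, le_div_iff₀ hLvpos]
  have h := hquad x
  rw [← mul_pow, ← mul_pow] at h
  have h' : ‖L.symm x‖ * ‖v‖ = ‖x‖ * ‖L.symm v‖ := by
    have := (sq_eq_sq₀ (by positivity) (by positivity)).mp h
    exact this
  rw [← h']
  constructor
  · intro hx
    nlinarith
  · intro hx
    nlinarith

end Pool.Agent.Q156
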