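import Mathlib

/-!
# Cuts of a finite graph, uncrossing, and the number of edges of a graph of small cutwidth

`Sep X e` : the set `X` separates the two ends of `e`; `cut E X` is the number of separated edges.
`Con E V m X` : `X` can be reached from `∅` by adding and removing single vertices of `V` while all the
cuts stay at most `m`.

* `mono_of_con` : if `V` itself can be reached then it can be reached monotonically
  (uncrossing of submodular functions, as in the theorem of Bienstock and Seymour for cutwidth);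
* `card_le_of_con` : then `2 l |E| ≤ |V| (2 m + l (l - 1))` for every `l`.
-/

set_option linter.unusedSectionVars false

namespace Q156.LC
open Finset

variable {α : Type*} [DecidableEq α]

/-- `X` separates the two ends of `e`. -/
def Sep (X : Finset α) (e : Sym2 α) : Prop := ∃ p q, e = s(p, q) ∧ p ∈ X ∧ q ∉ X

theorem sep_mk {X : Finset α} {p q : α} :
    Sep X s(p, q) ↔ (p ∈ X ∧ q ∉ X) ∨ (q ∈ X ∧ p ∉ X) := by
  constructor
  · rintro ⟨a, b, h, ha, hb⟩
    rw [Sym2.eq_iff] at h
    rcases h with ⟨rfl, rfl⟩ | ⟨rfl, rfl⟩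
    · exact Or.inl ⟨ha, hb⟩
    · exact Or.inr ⟨ha, hb⟩
  · rintro (⟨h1, h2⟩ | ⟨h1, h2⟩)
    · exact ⟨p, q, rfl, h1, h2⟩
    · exact ⟨q, p, Sym2.eq_swap, h1, h2⟩

open Classical in
/-- number of edges of `E` separated by `X` -/
noncomputable def cut (E : Finset (Sym2 α)) (X : Finset α) : ℕ := (E.filter (Sep X)).card

theorem cut_empty (E : Finset (Sym2 α)) : cut E ∅ = 0 := by
  classical
  unfold cut
  rw [Finset.card_eq_zero, Finset.filter_eq_empty_iff]
  rintro e - ⟨p, q, -, h, -⟩
  simp at h

open Classical in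
theorem cut_eq_sum (E : Finset (Sym2 α)) (X : Finset α) :
    cut E X = ∑ e ∈ E, if Sep X e then 1 else 0 := by
  unfold cut
  rw [Finset.card_filter]

theorem cut_submod (E : Finset (Sym2 α)) (X Y : Finset α) :
    cut E (X ∪ Y) + cut E (X ∩ Y) ≤ cut E X + cut E Y := by
  classical
  simp only [cut_eq_sum]
  rw [← Finset.sum_add_distrib, ← Finset.sum_add_distrib]
  refine Finset.sum_le_sum fun e _ => ?_
  induction e using Sym2.ind with
  | _ p q =>
    simp only [sep_mk, Finset.mem_union, Finset.mem_inter]
    by_cases h1 : p ∈ X <;> by_cases h2 : p ∈ Y <;> by_cases h3 : q ∈ X <;> by_cases h4 : q ∈ Y <;>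
      simp [h1, h2, h3, h4]

/-- one elementary step between low sets inside `V` -/
def Step (E : Finset (Sym2 α)) (V : Finset α) (m : ℕ) (X Y : Finset α) : Prop :=
  cut E X ≤ m ∧ cut E Y ≤ m ∧ X ⊆ V ∧ Y ⊆ V ∧ ∃ v, Y = insert v X ∨ X = insert v Y

/-- `X` is reachable from the empty set through low sets -/
def Con (E : Finset (Sym2 α)) (V : Finset α) (m : ℕ) (X : Finset α) : Prop :=
  Relation.ReflTransGen (Step E V m) ∅ X

theorem con_empty (E : Finset (Sym2 α)) (V : Finset α) (m : ℕ) : Con E V m ∅ :=
  Relation.ReflTransGen.refl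

theorem Step.symm {E : Finset (Sym2 α)} {V : Finset α} {m : ℕ} {X Y : Finset α}
    (h : Step E V m X Y) : Step E V m Y X := by
  obtain ⟨h1, h2, h3, h4, v, hv⟩ := h
  exact ⟨h2, h1, h4, h3, v, hv.symm⟩

theorem con_iff_of_step {E : Finset (Sym2 α)} {V : Finset α} {m : ℕ} {X Y : Finset α}
    (h : Step E V m X Y) : Con E V m X ↔ Con E V m Y :=
  ⟨fun hX => Relation.ReflTransGen.tail hX h, fun hY => Relation.ReflTransGen.tail hY h.symm⟩

/-- sequences of low sets in which at most one element is added at each time -/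
def Valid (E : Finset (Sym2 α)) (V : Finset α) (m N : ℕ) (Z : ℕ → Finset α) : Prop :=
  Z 0 = ∅ ∧ Z N = V ∧ (∀ i ≤ N, Z i ⊆ V) ∧ (∀ i < N, (Z (i + 1) \ Z i).card ≤ 1) ∧
    ∀ i ≤ N, cut E (Z i) ≤ m

theorem exists_valid_of_con {E : Finset (Sym2 α)} {V : Finset α} {m : ℕ} {X : Finset α}
    (h : Con E V m X) :
    ∃ N, ∃ Z : ℕ → Finset α, Z 0 = ∅ ∧ Z N = X ∧ (∀ i ≤ N, Z i ⊆ V) ∧
      (∀ i < N, (Z (i + 1) \ Z i).card ≤ 1) ∧ ∀ i ≤ N, cut E (Z i) ≤ m := by
  induction h with
  | refl =>
    refine ⟨0, fun _ => ∅, rfl, rfl, fun _ _ => by simp, fun _ _ => by simp, fun _ _ => ?_⟩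
    rw [cut_empty]; exact Nat.zero_le _
  | @tail Y W hY hstep ih =>
    obtain ⟨N, Z, h0, hN, hsub, hone, hcut⟩ := ih
    obtain ⟨h1, h2, h3, h4, v, hv⟩ := hstep
    refine ⟨N + 1, fun i => if i ≤ N then Z i else W, by simpa using h0, by simp, ?_, ?_, ?_⟩
    · intro i hi
      by_cases h : i ≤ N
      · simpa [h] using hsub i h
      · simpa [h] using h4
    · intro i hi
      by_cases h : i + 1 ≤ N
      · have h' : i ≤ N := by omega
        simpa [h, h'] using hone i (by omega)
      · have h' : i = N := by omega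
        subst h'
        simp only [le_refl, if_true, h, if_false, hN]
        rcases hv with rfl | rfl
        · refine (Finset.card_le_card (t := {v}) ?_).trans (by simp)
          intro x hx
          simp only [Finset.mem_sdiff, Finset.mem_insert] at hx
          simp only [Finset.mem_singleton]
          tauto
        · refine (Finset.card_le_card (t := ∅) ?_).trans (by simp)
          intro x hx
          simp only [Finset.mem_sdiff, Finset.mem_insert] at hx
          tauto
    · intro i hi
      by_cases h : i ≤ N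
      · simpa [h] using hcut i h
      · simpa [h] using h2

/-- weight used in the uncrossing argument -/
noncomputable def wt (E : Finset (Sym2 α)) (V : Finset α) (N : ℕ) (Z : ℕ → Finset α) : ℕ :=
  ∑ i ∈ Finset.range (N + 1), (cut E (Z i) * (V.card + 1) + (Z i).card)

theorem wt_update (E : Finset (Sym2 α)) (V : Finset α) {N : ℕ} (Z : ℕ → Finset α) {j : ℕ}
    (hj : j ≤ N) (U : Finset α) :
    wt E V N (Function.update Z j U) + (cut E (Z j) * (V.card + 1) + (Z j).card) =
      wt E V N Z + (cut E U * (V.card + 1) + U.card) := by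
  unfold wt
  have hj' : j ∈ Finset.range (N + 1) := Finset.mem_range.2 (by omega)
  rw [← Finset.add_sum_erase _ _ hj', ← Finset.add_sum_erase (Finset.range (N + 1))
    (fun i => cut E (Z i) * (V.card + 1) + (Z i).card) hj']
  have : ∑ x ∈ (Finset.range (N + 1)).erase j, (cut E (Function.update Z j U x) * (V.card + 1) +
      (Function.update Z j U x).card) =
      ∑ x ∈ (Finset.range (N + 1)).erase j, (cut E (Z x) * (V.card + 1) + (Z x).card) := by
    refine Finset.sum_congr rfl fun x hx => ?_
    rw [Function.update_of_ne (Finset.ne_of_mem_erase hx)]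
  rw [this]
  simp only [Function.update_self]
  ring

/-- **Uncrossing.** -/
theorem exists_mono_of_con {E : Finset (Sym2 α)} {V : Finset α} {m : ℕ}
    (h : Con E V m V) : ∃ N, ∃ Z : ℕ → Finset α, Valid E V m N Z ∧ ∀ i < N, Z i ⊆ Z (i + 1) := by
  classical
  obtain ⟨N, Z0, hZ0⟩ := exists_valid_of_con h
  have hex : ∃ w, ∃ Z : ℕ → Finset α, Valid E V m N Z ∧ wt E V N Z = w := ⟨_, Z0, hZ0, rfl⟩
  obtain ⟨Z, hZ, hw⟩ := Nat.find_spec hex
  have hmin : ∀ Z' : ℕ → Finset α, Valid E V m N Z' → wt E V N Z ≤ wt E V N Z' := by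
    intro Z' hZ'
    rw [hw]
    exact Nat.find_min' hex ⟨Z', hZ', rfl⟩
  refine ⟨N, Z, hZ, ?_⟩
  intro i hi
  obtain ⟨h0, hN, hsub, hone, hcut⟩ := hZ
  have hsm := cut_submod E (Z i) (Z (i + 1))
  by_cases hU : cut E (Z i ∪ Z (i + 1)) < cut E (Z (i + 1))
  · exfalso
    set U := Z i ∪ Z (i + 1) with hUdef
    have hUV : U ⊆ V := Finset.union_subset (hsub i (by omega)) (hsub (i + 1) (by omega))
    have hval : Valid E V m N (Function.update Z (i + 1) U) := by
      refine ⟨?_, ?_, ?_, ?_, ?_⟩
      · rw [Function.update_of_ne (by omega)]; exact h0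
      · by_cases hiN : i + 1 = N
        · subst hiN
          rw [Function.update_self]
          refine Finset.Subset.antisymm hUV ?_
          rw [hUdef, hN]
          exact Finset.subset_union_right
        · rw [Function.update_of_ne (by omega)]; exact hN
      · intro j hj
        by_cases hji : j = i + 1
        · subst hji; rw [Function.update_self]; exact hUV
        · rw [Function.update_of_ne hji]; exact hsub j hj
      · intro j hj
        by_cases h1 : j = i
        · subst h1
          rw [Function.update_self, Function.update_of_ne (by omega)]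
          refine (Finset.card_le_card ?_).trans (hone j hj)
          intro x hx
          rw [hUdef] at hx
          simp only [Finset.mem_sdiff, Finset.mem_union] at hx ⊢
          tauto
        · by_cases h2 : j = i + 1
          · subst h2
            rw [Function.update_self, Function.update_of_ne (by omega)]
            refine (Finset.card_le_card ?_).trans (hone _ hj)
            intro x hx
            rw [hUdef] at hx
            simp only [Finset.mem_sdiff, Finset.mem_union] at hx ⊢
            tauto
          · rw [Function.update_of_ne (by omega), Function.update_of_ne h2]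
            exact hone j hj
      · intro j hj
        by_cases hji : j = i + 1
        · subst hji; rw [Function.update_self]; exact hU.le.trans (hcut _ hj)
        · rw [Function.update_of_ne hji]; exact hcut j hj
    have h1 := hmin _ hval
    have h2 := wt_update E V Z (show i + 1 ≤ N by omega) U
    have h3 : U.card ≤ V.card := Finset.card_le_card hUV
    have h4 : cut E U * (V.card + 1) + (V.card + 1) ≤ cut E (Z (i + 1)) * (V.card + 1) := by
      have : (cut E U + 1) * (V.card + 1) ≤ cut E (Z (i + 1)) * (V.card + 1) :=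
        Nat.mul_le_mul_right _ hU
      linarith [this, Nat.add_mul (cut E U) 1 (V.card + 1)]
    omega
  · have hU' : cut E (Z (i + 1)) ≤ cut E (Z i ∪ Z (i + 1)) := not_lt.1 hU
    have hI : cut E (Z i ∩ Z (i + 1)) ≤ cut E (Z i) := by omega
    set I := Z i ∩ Z (i + 1) with hIdef
    have hIZ : I ⊆ Z i := Finset.inter_subset_left
    have hval : Valid E V m N (Function.update Z i I) := by
      refine ⟨?_, ?_, ?_, ?_, ?_⟩
      · by_cases hi0 : i = 0
        · subst hi0
          rw [Function.update_self]
          rw [h0] at hIZ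
          exact Finset.subset_empty.1 hIZ
        · rw [Function.update_of_ne (by omega)]; exact h0
      · rw [Function.update_of_ne (by omega)]; exact hN
      · intro j hj
        by_cases hji : j = i
        · subst hji; rw [Function.update_self]; exact hIZ.trans (hsub _ hj)
        · rw [Function.update_of_ne hji]; exact hsub j hj
      · intro j hj
        by_cases h1 : j = i
        · subst h1
          rw [Function.update_self, Function.update_of_ne (by omega)]
          refine (Finset.card_le_card ?_).trans (hone j hj)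
          intro x hx
          rw [hIdef] at hx
          simp only [Finset.mem_sdiff, Finset.mem_inter] at hx ⊢
          tauto
        · by_cases h2 : j + 1 = i
          · subst h2
            rw [Function.update_self, Function.update_of_ne (by omega)]
            refine (Finset.card_le_card ?_).trans (hone _ hj)
            intro x hx
            rw [hIdef] at hx
            simp only [Finset.mem_sdiff, Finset.mem_inter] at hx ⊢
            tauto
          · rw [Function.update_of_ne h2, Function.update_of_ne h1]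
            exact hone j hj
      · intro j hj
        by_cases hji : j = i
        · subst hji; rw [Function.update_self]; exact hI.trans (hcut _ hj)
        · rw [Function.update_of_ne hji]; exact hcut j hj
    have h1 := hmin _ hval
    have h2 := wt_update E V Z (show i ≤ N by omega) I
    have h3 : cut E I * (V.card + 1) ≤ cut E (Z i) * (V.card + 1) := Nat.mul_le_mul_right _ hI
    have h4 : (Z i).card ≤ I.card := by omega
    have h5 : I = Z i := Finset.eq_of_subset_of_card_le hIZ h4
    rw [← h5, hIdef]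
    exact Finset.inter_subset_right

/-- If `V` is reachable there is an injective order all of whose initial segments are low. -/
theorem exists_order_of_con {E : Finset (Sym2 α)} {V : Finset α} {m : ℕ}
    (h : Con E V m V) : ∃ τ : α → ℕ, Set.InjOn τ V ∧
      ∀ u ∈ V, cut E (V.filter fun v => τ v ≤ τ u) ≤ m := by
  classical
  obtain ⟨N, Z, ⟨h0, hN, hsub, hone, hcut⟩, hmono⟩ := exists_mono_of_con h
  have hmono' : ∀ i j, i ≤ j → j ≤ N → Z i ⊆ Z j := by
    intro i j hij
    induction j, hij using Nat.le_induction with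
    | base => intro _; exact Finset.Subset.refl _
    | succ j hij ih => intro hj; exact (ih (by omega)).trans (hmono j (by omega))
  have hex : ∀ v ∈ V, ∃ i, i ≤ N ∧ v ∈ Z i := fun v hv => ⟨N, le_refl _, by rw [hN]; exact hv⟩
  let τ : α → ℕ := fun v => if hv : v ∈ V then Nat.find (hex v hv) else 0
  have hτ : ∀ v ∈ V, τ v ≤ N ∧ v ∈ Z (τ v) := by
    intro v hv
    simp only [τ, hv, dite_true]
    exact Nat.find_spec (hex v hv)
  have hτmin : ∀ v ∈ V, ∀ i, i ≤ N → v ∈ Z i → τ v ≤ i := by
    intro v hv i hi hvi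
    simp only [τ, hv, dite_true]
    exact Nat.find_min' (hex v hv) ⟨hi, hvi⟩
  have hpos : ∀ v ∈ V, 1 ≤ τ v := by
    intro v hv
    rcases Nat.eq_zero_or_pos (τ v) with h | h
    · have := (hτ v hv).2
      rw [h, h0] at this
      simp at this
    · exact h
  have hseg : ∀ i ≤ N, V.filter (fun v => τ v ≤ i) = Z i := by
    intro i hi
    ext v
    simp only [Finset.mem_filter]
    constructor
    · rintro ⟨hv, hvi⟩
      exact hmono' _ _ hvi hi (hτ v hv).2
    · intro hv
      have hvV := hsub i hi hv
      exact ⟨hvV, hτmin v hvV i hi hv⟩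
  refine ⟨τ, ?_, ?_⟩
  · intro v hv w hw hvw
    have hv' : v ∈ V := hv
    have hw' : w ∈ V := hw
    have h1 := hpos v hv'
    obtain ⟨i, hi⟩ : ∃ i, τ v = i + 1 := ⟨τ v - 1, by omega⟩
    have hiN : i + 1 ≤ N := by rw [← hi]; exact (hτ v hv').1
    have hc := hone i (by omega)
    rw [Finset.card_le_one] at hc
    refine hc v ?_ w ?_
    · rw [Finset.mem_sdiff]
      refine ⟨by rw [← hi]; exact (hτ v hv').2, fun hvi => ?_⟩
      have := hτmin v hv' i (by omega) hvi
      omega
    · rw [Finset.mem_sdiff]
      refine ⟨by rw [← hi, hvw]; exact (hτ w hw').2, fun hwi => ?_⟩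
      have := hτmin w hw' i (by omega) hwi
      omega
  · intro u hu
    rw [hseg _ (hτ u hu).1]
    exact hcut _ (hτ u hu).1

/-- The number of edges of a graph on `V` with an order all of whose initial cuts are at most `m`. -/
theorem card_le_of_order {E : Finset (Sym2 α)} {V : Finset α} {m : ℕ} {τ : α → ℕ}
    (hE : ∀ e ∈ E, ∃ p ∈ V, ∃ q ∈ V, p ≠ q ∧ e = s(p, q)) (hτ : Set.InjOn τ V)
    (hcut : ∀ u ∈ V, cut E (V.filter fun v => τ v ≤ τ u) ≤ m) (l : ℕ) :
    2 * l * E.card ≤ V.card * (2 * m + l * (l - 1)) := by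
  classical
  let E' : Finset (α × α) := (V ×ˢ V).filter fun p => τ p.1 < τ p.2 ∧ s(p.1, p.2) ∈ E
  have hE'mem : ∀ p : α × α, p ∈ E' ↔ (p.1 ∈ V ∧ p.2 ∈ V) ∧ τ p.1 < τ p.2 ∧ s(p.1, p.2) ∈ E := by
    intro p
    simp only [E', Finset.mem_filter, Finset.mem_product]
  clear_value E'
  have hinj : Set.InjOn (fun p : α × α => s(p.1, p.2)) E' := by
    rintro ⟨a, b⟩ hab ⟨c, d⟩ hcd h
    have h1 := (hE'mem _).1 hab
    have h2 := (hE'mem _).1 hcd
    simp only at h h1 h2
    rw [Sym2.eq_iff] at h
    rcases h with ⟨rfl, rfl⟩ | ⟨rfl, rfl⟩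
    · rfl
    · omega
  have himg : E'.image (fun p : α × α => s(p.1, p.2)) = E := by
    ext e
    simp only [Finset.mem_image]
    constructor
    · rintro ⟨p, hp, rfl⟩
      exact ((hE'mem _).1 hp).2.2
    · intro he
      obtain ⟨p, hp, q, hq, hpq, rfl⟩ := hE e he
      have hne : τ p ≠ τ q := fun h => hpq (hτ hp hq h)
      rcases lt_or_gt_of_ne hne with h | h
      · exact ⟨(p, q), (hE'mem _).2 ⟨⟨hp, hq⟩, h, he⟩, rfl⟩
      · refine ⟨(q, p), (hE'mem _).2 ⟨⟨hq, hp⟩, h, ?_⟩, Sym2.eq_swap⟩
        rw [Sym2.eq_swap]; exact he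
  have hcard : E'.card = E.card := by
    rw [← himg, Finset.card_image_of_injOn hinj]
  let d : α × α → ℕ := fun p => (V.filter fun u => τ p.1 ≤ τ u ∧ τ u < τ p.2).card
  -- total of the cuts
  have htot : ∑ p ∈ E', d p ≤ m * V.card := by
    calc ∑ p ∈ E', d p = ∑ p ∈ E', ∑ u ∈ V, (if τ p.1 ≤ τ u ∧ τ u < τ p.2 then 1 else 0) := by
          refine Finset.sum_congr rfl fun p _ => ?_
          simp only [d, Finset.card_filter]
      _ = ∑ u ∈ V, ∑ p ∈ E', (if τ p.1 ≤ τ u ∧ τ u < τ p.2 then 1 else 0) := Finset.sum_comm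
      _ = ∑ u ∈ V, cut E (V.filter fun v => τ v ≤ τ u) := by
          refine Finset.sum_congr rfl fun u _ => ?_
          rw [cut_eq_sum]
          conv_rhs => rw [← himg]
          rw [Finset.sum_image hinj]
          refine Finset.sum_congr rfl fun p hp => ?_
          obtain ⟨⟨h1, h2⟩, h3, h4⟩ := (hE'mem _).1 hp
          simp only [sep_mk, Finset.mem_filter, h1, h2, true_and]
          congr 1
          apply propext
          constructor
          · rintro ⟨h5, h6⟩; exact Or.inl ⟨h5, by omega⟩
          · rintro (⟨h5, h6⟩ | ⟨h5, h6⟩)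
            · exact ⟨h5, by omega⟩
            · omega
      _ ≤ ∑ _u ∈ V, m := Finset.sum_le_sum hcut
      _ = m * V.card := by rw [Finset.sum_const, smul_eq_mul, mul_comm]
  -- few pairs of small span
  have hd1 : ∀ p ∈ E', 1 ≤ d p := by
    intro p hp
    obtain ⟨⟨h1, h2⟩, h3, h4⟩ := (hE'mem _).1 hp
    refine Finset.card_pos.2 ⟨p.1, ?_⟩
    simp only [Finset.mem_filter]
    exact ⟨h1, le_refl _, h3⟩
  have hdinj : Set.InjOn (fun p : α × α => (p.1, d p)) E' := by
    rintro ⟨a, b⟩ hab ⟨c, b'⟩ hcd h
    obtain ⟨⟨h1, h2⟩, h3, h4⟩ := (hE'mem _).1 hab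
    obtain ⟨⟨h1', h2'⟩, h3', h4'⟩ := (hE'mem _).1 hcd
    simp only [Prod.mk.injEq] at h h1 h2 h3 h1' h2' h3' ⊢
    obtain ⟨rfl, hd⟩ := h
    refine ⟨rfl, ?_⟩
    by_contra hne
    have hne' : τ b ≠ τ b' := fun h => hne (hτ h2 h2' h)
    have key : ∀ x y : α, x ∈ V → y ∈ V → τ a < τ x → τ x < τ y → d (a, x) < d (a, y) := by
      intro x y hx hy hax hxy
      refine Finset.card_lt_card ⟨?_, ?_⟩
      · intro u hu
        simp only [Finset.mem_filter] at hu ⊢
        exact ⟨hu.1, hu.2.1, by omega⟩
      · intro hsub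
        have : x ∈ V.filter (fun u => τ a ≤ τ u ∧ τ u < τ y) := by
          simp only [Finset.mem_filter]; exact ⟨hx, hax.le, hxy⟩
        have h5 := hsub this
        simp only [Finset.mem_filter] at h5
        omega
    rcases lt_or_gt_of_ne hne' with hlt | hlt
    · exact absurd hd (key b b' h2 h2' h3 hlt).ne
    · exact absurd hd (key b' b h2' h2 h3' hlt).ne'
  have hsmall : ∑ p ∈ E', (l - d p) ≤ V.card * ∑ j ∈ Finset.Ico 1 l, (l - j) := by
    calc ∑ p ∈ E', (l - d p) = ∑ p ∈ E'.filter (fun p => d p < l), (l - d p) := by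
          rw [Finset.sum_filter]
          refine Finset.sum_congr rfl fun p _ => ?_
          split_ifs with h
          · rfl
          · omega
      _ = ∑ x ∈ (E'.filter (fun p => d p < l)).image (fun p : α × α => (p.1, d p)), (l - x.2) := by
          rw [Finset.sum_image]
          intro x hx y hy hxy
          exact hdinj (Finset.mem_of_mem_filter x hx) (Finset.mem_of_mem_filter y hy) hxy
      _ ≤ ∑ x ∈ V ×ˢ Finset.Ico 1 l, (l - x.2) := by
          refine Finset.sum_le_sum_of_subset ?_
          intro x hx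
          simp only [Finset.mem_image, Finset.mem_filter] at hx
          obtain ⟨p, ⟨hp, hpl⟩, rfl⟩ := hx
          rw [Finset.mem_product, Finset.mem_Ico]
          exact ⟨((hE'mem _).1 hp).1.1, hd1 p hp, hpl⟩
      _ = V.card * ∑ j ∈ Finset.Ico 1 l, (l - j) := by
          rw [Finset.sum_product]
          simp
  have hgauss : 2 * ∑ j ∈ Finset.Ico 1 l, (l - j) = l * (l - 1) := by
    clear_value d
    have h1 : ∑ j ∈ Finset.Ico 1 l, (l - j) = ∑ j ∈ Finset.range l, j := by
      rw [← Finset.sum_range_reflect (fun j => j) l, Finset.range_eq_Ico]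
      rcases Nat.eq_zero_or_pos l with h | h
      · subst h; rfl
      · have e1 : ∑ j ∈ Finset.Ico 1 l, (l - j) = ∑ j ∈ Finset.Ico 0 (l - 1), (l - 1 - j) := by
          rw [Finset.sum_Ico_eq_sum_range, Finset.sum_Ico_eq_sum_range]
          simp only [Nat.sub_zero]
          refine Finset.sum_congr rfl fun j _ => ?_
          omega
        rw [e1]
        obtain ⟨l', rfl⟩ : ∃ l', l = l' + 1 := ⟨l - 1, by omega⟩
        simp only [Nat.add_sub_cancel]
        rw [Finset.sum_Ico_succ_top (by omega)]
        simp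
    rw [h1, mul_comm, Finset.sum_range_id_mul_two]
  have hl : l * E.card ≤ ∑ p ∈ E', d p + ∑ p ∈ E', (l - d p) := by
    rw [← Finset.sum_add_distrib, ← hcard, mul_comm, ← smul_eq_mul, ← Finset.sum_const]
    refine Finset.sum_le_sum fun p _ => ?_
    omega
  calc 2 * l * E.card = 2 * (l * E.card) := by ring
    _ ≤ 2 * (m * V.card + V.card * ∑ j ∈ Finset.Ico 1 l, (l - j)) := by
        have := hl.trans (Nat.add_le_add htot hsmall)
        omega
    _ = V.card * (2 * m + 2 * ∑ j ∈ Finset.Ico 1 l, (l - j)) := by ring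
    _ = V.card * (2 * m + l * (l - 1)) := by rw [hgauss]

theorem card_le_of_con {E : Finset (Sym2 α)} {V : Finset α} {m : ℕ}
    (hE : ∀ e ∈ E, ∃ p ∈ V, ∃ q ∈ V, p ≠ q ∧ e = s(p, q)) (h : Con E V m V) (l : ℕ) :
    2 * l * E.card ≤ V.card * (2 * m + l * (l - 1)) := by
  obtain ⟨τ, h1, h2⟩ := exists_order_of_con h
  exact card_le_of_order hE h1 h2 l

end Q156.LC
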