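import Pool.Agent.Q156.GeomLines

/-!
# Geometric graphs with many edges, few of which are met by one line

Points `(i, i²)`, `i < n`, on a parabola; `i` and `j > i` are joined when `j - i ≤ s`, and also when
`j = i + s + 1` and `i mod (s + 1) < c`.
-/

set_option linter.unusedSectionVars false

namespace Q156.LC
open Finset

/-- the points -/
def pt (i : ℕ) : ℝ × ℝ := ((i : ℝ), (i : ℝ) ^ 2)

theorem pt_inj : Function.Injective pt := by
  intro i j h
  have := congrArg Prod.fst h
  simpa [pt] using this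

/-- index pairs of the edges -/
def idx (n s c : ℕ) : Finset (ℕ × ℕ) :=
  (Finset.range n ×ˢ Finset.range n).filter fun p =>
    p.1 < p.2 ∧ (p.2 - p.1 ≤ s ∨ (p.2 = p.1 + s + 1 ∧ p.1 % (s + 1) < c))

theorem mem_idx {n s c : ℕ} {p : ℕ × ℕ} : p ∈ idx n s c ↔ (p.1 < n ∧ p.2 < n) ∧
    p.1 < p.2 ∧ (p.2 - p.1 ≤ s ∨ (p.2 = p.1 + s + 1 ∧ p.1 % (s + 1) < c)) := by
  unfold idx
  rw [Finset.mem_filter, Finset.mem_product, Finset.mem_range, Finset.mem_range]

open Classical in
/-- the edges -/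
noncomputable def edg (n s c : ℕ) : Finset (Sym2 (ℝ × ℝ)) :=
  (idx n s c).image fun p => s(pt p.1, pt p.2)

theorem edg_injOn (n s c : ℕ) : Set.InjOn (fun p : ℕ × ℕ => s(pt p.1, pt p.2)) (idx n s c) := by
  rintro ⟨a, b⟩ h1 ⟨a', b'⟩ h2 h
  have h1' := (mem_idx.1 h1).2.1
  have h2' := (mem_idx.1 h2).2.1
  simp only at h h1' h2'
  rw [Sym2.eq_iff] at h
  rcases h with ⟨h3, h4⟩ | ⟨h3, h4⟩
  · rw [pt_inj h3, pt_inj h4]
  · have := pt_inj h3
    have := pt_inj h4
    omega

theorem card_edg (n s c : ℕ) : (edg n s c).card = (idx n s c).card := by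
  classical
  unfold edg
  rw [Finset.card_image_of_injOn (edg_injOn n s c)]

theorem det_of_collinear {p q r : ℝ × ℝ} (h : Collinear ℝ {p, q, r}) :
    (q.1 - p.1) * (r.2 - p.2) = (r.1 - p.1) * (q.2 - p.2) := by
  rw [collinear_iff_of_mem (p₀ := p) (by simp)] at h
  obtain ⟨v, hv⟩ := h
  obtain ⟨t, ht⟩ := hv q (by simp)
  obtain ⟨t', ht'⟩ := hv r (by simp)
  rw [ht, ht']
  simp only [vadd_eq_add, Prod.fst_add, Prod.smul_fst, Prod.snd_add, Prod.smul_snd, smul_eq_mul]
  ring

theorem isGeom (n s c : ℕ) : IsGeometricGraph ((Finset.range n).image pt) (edg n s c) := by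
  classical
  constructor
  · intro p hp q hq r hr hpq hqr hpr hcol
    obtain ⟨i, -, rfl⟩ := Finset.mem_image.1 hp
    obtain ⟨j, -, rfl⟩ := Finset.mem_image.1 hq
    obtain ⟨k, -, rfl⟩ := Finset.mem_image.1 hr
    have h := det_of_collinear hcol
    simp only [pt] at h
    have hij : (j : ℝ) - i ≠ 0 := fun h0 => hpq (by
      have : (i : ℝ) = j := by linarith
      rw [Nat.cast_injective this])
    have hik : (k : ℝ) - i ≠ 0 := fun h0 => hpr (by
      have : (i : ℝ) = k := by linarith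
      rw [Nat.cast_injective this])
    have h1 : ((j : ℝ) - i) * ((k : ℝ) - i) * ((k : ℝ) - j) = 0 := by linear_combination h
    have h2 : (k : ℝ) - j = 0 := by
      rcases mul_eq_zero.1 h1 with h2 | h2
      · exact absurd h2 (mul_ne_zero hij hik)
      · exact h2
    apply hqr
    have : (j : ℝ) = k := by linarith
    rw [Nat.cast_injective this]
  · intro e he
    unfold edg at he
    obtain ⟨⟨i, j⟩, hij, rfl⟩ := Finset.mem_image.1 he
    obtain ⟨⟨h1, h2⟩, h3, -⟩ := mem_idx.1 hij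
    simp only at h1 h2 h3
    refine ⟨pt i, Finset.mem_image_of_mem _ (Finset.mem_range.2 h1), pt j,
      Finset.mem_image_of_mem _ (Finset.mem_range.2 h2), fun h => ?_, rfl⟩
    have := pt_inj h
    omega

theorem card_pts (n : ℕ) [DecidableEq (ℝ × ℝ)] : ((Finset.range n).image pt).card = n := by
  rw [Finset.card_image_of_injective _ pt_inj, Finset.card_range]

/-- few edges pass over the place `g` -/
theorem over_le (n s c g : ℕ) : 2 * ((idx n s c).filter fun p => p.1 ≤ g ∧ g < p.2).card ≤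
    s * (s + 1) + 2 * c := by
  classical
  set F := (idx n s c).filter fun p => p.1 ≤ g ∧ g < p.2 with hF
  set F1 := F.filter fun p => p.2 - p.1 ≤ s with hF1
  set F2 := F.filter fun p => ¬ p.2 - p.1 ≤ s with hF2
  have hsum : F.card = F1.card + F2.card := by
    rw [hF1, hF2, Finset.card_filter_add_card_filter_not]
  have h1 : F1.card ≤ ∑ d ∈ Finset.range (s + 1), d := by
    have : ((Finset.range (s + 1)).sigma fun d => Finset.range d).card =
        ∑ d ∈ Finset.range (s + 1), d := by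
      rw [Finset.card_sigma]; simp
    rw [← this]
    refine Finset.card_le_card_of_injOn (fun p => (⟨p.2 - p.1, g - p.1⟩ : Σ _ : ℕ, ℕ)) ?_ ?_
    · intro p hp
      have hp' := Finset.mem_coe.1 hp
      rw [hF1, hF, Finset.mem_filter, Finset.mem_filter] at hp'
      obtain ⟨⟨-, h3, h4⟩, h5⟩ := hp'
      simp only [Finset.coe_sigma, Set.mem_sigma_iff, Finset.mem_coe, Finset.mem_range]
      constructor <;> omega
    · rintro ⟨a, b⟩ hp ⟨a', b'⟩ hp' h
      rw [hF1, hF, Finset.mem_coe, Finset.mem_filter, Finset.mem_filter] at hp hp'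
      obtain ⟨⟨-, h3, h4⟩, h5⟩ := hp
      obtain ⟨⟨-, h3', h4'⟩, h5'⟩ := hp'
      simp only [Sigma.mk.injEq, heq_eq_eq] at h h3 h4 h5 h3' h4' h5'
      rw [Prod.mk.injEq]
      constructor <;> omega
  have h2 : F2.card ≤ c := by
    rw [← Finset.card_range c]
    refine Finset.card_le_card_of_injOn (fun p => p.1 % (s + 1)) ?_ ?_
    · intro p hp
      have hp' := Finset.mem_coe.1 hp
      rw [hF2, hF, Finset.mem_filter, Finset.mem_filter, mem_idx] at hp'
      obtain ⟨⟨⟨-, -, h3⟩, -, -⟩, h5⟩ := hp'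
      simp only [Finset.mem_coe, Finset.mem_range]
      exact (h3.resolve_left h5).2
    · rintro ⟨a, b⟩ hp ⟨a', b'⟩ hp' h
      rw [hF2, hF, Finset.mem_coe, Finset.mem_filter, Finset.mem_filter, mem_idx] at hp hp'
      obtain ⟨⟨⟨-, -, h3⟩, h6, h7⟩, h5⟩ := hp
      obtain ⟨⟨⟨-, -, h3'⟩, h6', h7'⟩, h5'⟩ := hp'
      have h8 := (h3.resolve_left h5).1
      have h8' := (h3'.resolve_left h5').1
      simp only at h h6 h7 h8 h6' h7' h8'
      have key : a = a' := by
        have e1 := Nat.div_add_mod a (s + 1)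
        have e2 := Nat.div_add_mod a' (s + 1)
        rw [h] at e1
        have e3 : a / (s + 1) = a' / (s + 1) := by
          rcases lt_trichotomy (a / (s + 1)) (a' / (s + 1)) with hlt | heq | hlt
          · exfalso
            have : (s + 1) * (a / (s + 1) + 1) ≤ (s + 1) * (a' / (s + 1)) :=
              Nat.mul_le_mul_left _ hlt
            rw [Nat.mul_add, Nat.mul_one] at this
            omega
          · exact heq
          · exfalso
            have : (s + 1) * (a' / (s + 1) + 1) ≤ (s + 1) * (a / (s + 1)) :=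
              Nat.mul_le_mul_left _ hlt
            rw [Nat.mul_add, Nat.mul_one] at this
            omega
        rw [e3] at e1
        omega
      rw [Prod.mk.injEq]
      constructor <;> omega
  have h3 := Finset.sum_range_id_mul_two (s + 1)
  have h4 : (s + 1) * (s + 1 - 1) = s * (s + 1) := by rw [Nat.add_sub_cancel, mul_comm]
  rw [h4] at h3
  omega

open Classical in
/-- a line meets few edges -/
theorem met_le (n s c : ℕ) (a b c0 : ℝ) (hab : (a, b) ≠ (0, 0)) :
    met (edg n s c) a b c0 ≤ s * (s + 1) + 2 * c := by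
  -- polynomial whose roots are the intersections with the parabola
  set q : Polynomial ℝ := Polynomial.C b * Polynomial.X ^ 2 + Polynomial.C a * Polynomial.X +
    Polynomial.C (-c0) with hq
  have hev : ∀ t : ℝ, q.eval t = a * t + b * t ^ 2 - c0 := by
    intro t; simp [hq]; ring
  have hq0 : q ≠ 0 := by
    intro h
    apply hab
    have h2 : q.coeff 2 = b := by
      simp [hq, Polynomial.coeff_X, Polynomial.coeff_C]
    have h1 : q.coeff 1 = a := by
      simp [hq, Polynomial.coeff_X, Polynomial.coeff_C]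
    rw [h] at h1 h2
    simp only [Polynomial.coeff_zero] at h1 h2
    rw [← h1, ← h2]
  have hdeg : q.natDegree ≤ 2 := by
    rw [hq]
    exact Polynomial.natDegree_quadratic_le
  have hR : q.roots.toFinset.card ≤ 2 :=
    (Multiset.toFinset_card_le _).trans ((Polynomial.card_roots' q).trans hdeg)
  -- every edge met passes over a root
  have hsub : (edg n s c).filter (Meets a b c0) ⊆
      q.roots.toFinset.biUnion fun ρ => ((idx n s c).filter fun p => p.1 ≤ ⌊ρ⌋₊ ∧ ⌊ρ⌋₊ < p.2).image
        fun p => s(pt p.1, pt p.2) := by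
    intro e he
    rw [Finset.mem_filter] at he
    obtain ⟨he1, he2⟩ := he
    unfold edg at he1
    obtain ⟨⟨i, j⟩, hij, rfl⟩ := Finset.mem_image.1 he1
    have hlt := (mem_idx.1 hij).2.1
    simp only at hlt he2
    have hltR : (i : ℝ) < j := by exact_mod_cast hlt
    -- a root in `[i, j)`
    have hroot : ∃ ρ : ℝ, q.eval ρ = 0 ∧ (i : ℝ) ≤ ρ ∧ ρ < j := by
      have hcomb : ∃ u v : ℝ, 0 < u ∧ 0 < v ∧ u * q.eval (i : ℝ) + v * q.eval (j : ℝ) = 0 := by
        obtain ⟨p', q', hpq, z, ⟨u, v, hu, hv, huv, rfl⟩, hz⟩ := he2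
        rw [Sym2.eq_iff] at hpq
        rcases hpq with ⟨rfl, rfl⟩ | ⟨rfl, rfl⟩
        · refine ⟨u, v, hu, hv, ?_⟩
          rw [hev, hev]
          simp only [pt, Prod.fst_add, Prod.smul_fst, Prod.snd_add, Prod.smul_snd,
            smul_eq_mul] at hz
          linear_combination hz - c0 * huv
        · refine ⟨v, u, hv, hu, ?_⟩
          rw [hev, hev]
          simp only [pt, Prod.fst_add, Prod.smul_fst, Prod.snd_add, Prod.smul_snd,
            smul_eq_mul] at hz
          linear_combination hz - c0 * huv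
      obtain ⟨u, v, hu, hv, huv⟩ := hcomb
      have hcont : ContinuousOn (fun t => q.eval t) (Set.Icc (i : ℝ) j) := q.continuous.continuousOn
      rcases lt_trichotomy (q.eval (i : ℝ)) 0 with h | h | h
      · have h' : 0 < q.eval (j : ℝ) := by
          by_contra hcon
          have : v * q.eval (j : ℝ) ≤ 0 := mul_nonpos_of_nonneg_of_nonpos hv.le (not_lt.1 hcon)
          have : u * q.eval (i : ℝ) < 0 := mul_neg_of_pos_of_neg hu h
          linarith
        obtain ⟨ρ, hρ, hρ0⟩ := intermediate_value_Ioo hltR.le hcont (show (0 : ℝ) ∈ Set.Ioo _ _ from ⟨h, h'⟩)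
        exact ⟨ρ, hρ0, hρ.1.le, hρ.2⟩
      · exact ⟨i, h, le_refl _, hltR⟩
      · have h' : q.eval (j : ℝ) < 0 := by
          by_contra hcon
          have : 0 ≤ v * q.eval (j : ℝ) := mul_nonneg hv.le (not_lt.1 hcon)
          have : 0 < u * q.eval (i : ℝ) := mul_pos hu h
          linarith
        obtain ⟨ρ, hρ, hρ0⟩ := intermediate_value_Ioo' hltR.le hcont (show (0 : ℝ) ∈ Set.Ioo _ _ from ⟨h', h⟩)
        exact ⟨ρ, hρ0, hρ.1.le, hρ.2⟩
    obtain ⟨ρ, h1, h2, h3⟩ := hroot
    rw [Finset.mem_biUnion]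
    have hρ0 : 0 ≤ ρ := le_trans (Nat.cast_nonneg i) h2
    refine ⟨ρ, by rw [Multiset.mem_toFinset, Polynomial.mem_roots hq0]; exact h1, ?_⟩
    refine Finset.mem_image.2 ⟨(i, j), Finset.mem_filter.2 ⟨hij, ?_, ?_⟩, rfl⟩
    · exact Nat.le_floor h2
    · exact (Nat.floor_lt hρ0).2 h3
  unfold met
  refine (Finset.card_le_card hsub).trans (Finset.card_biUnion_le.trans ?_)
  have h1 : ∀ ρ ∈ q.roots.toFinset, 2 * (((idx n s c).filter fun p => p.1 ≤ ⌊ρ⌋₊ ∧ ⌊ρ⌋₊ < p.2).image
      fun p => s(pt p.1, pt p.2)).card ≤ s * (s + 1) + 2 * c := by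
    intro ρ _
    have := Finset.card_image_le (s := (idx n s c).filter fun p => p.1 ≤ ⌊ρ⌋₊ ∧ ⌊ρ⌋₊ < p.2)
      (f := fun p : ℕ × ℕ => s(pt p.1, pt p.2))
    have h2 := over_le n s c ⌊ρ⌋₊
    omega
  have h2 := Finset.sum_le_sum h1
  rw [← Finset.mul_sum, Finset.sum_const, smul_eq_mul] at h2
  have h3 : q.roots.toFinset.card * (s * (s + 1) + 2 * c) ≤ 2 * (s * (s + 1) + 2 * c) :=
    Nat.mul_le_mul_right _ hR
  omega

/-- number of edges -/
theorem card_idx_ge (n s c : ℕ) (hc : c ≤ s) :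
    n * (2 * (s * (s + 1)) + 2 * c) ≤ 2 * (s + 1) * (idx n s c).card +
      2 * (s + 1) * (s * (s + 1) + 2 * c) := by
  classical
  set N := (n - (s + 1)) / (s + 1) with hN
  -- two families of pairs
  set S1 : Finset (ℕ × ℕ) := (idx n s c).filter fun p => p.2 - p.1 ≤ s with hS1
  set S2 : Finset (ℕ × ℕ) := (idx n s c).filter fun p => ¬ p.2 - p.1 ≤ s with hS2
  have hsum : (idx n s c).card = S1.card + S2.card := by
    rw [hS1, hS2, Finset.card_filter_add_card_filter_not]
  have h1 : ∑ d ∈ Finset.Icc 1 s, (n - d) ≤ S1.card := by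
    have : ((Finset.Icc 1 s).sigma fun d => Finset.range (n - d)).card =
        ∑ d ∈ Finset.Icc 1 s, (n - d) := by
      rw [Finset.card_sigma]; simp
    rw [← this]
    refine Finset.card_le_card_of_injOn (fun p : (Σ _ : ℕ, ℕ) => (p.2, p.2 + p.1)) ?_ ?_
    · rintro ⟨d, i⟩ hp
      simp only [Finset.coe_sigma, Set.mem_sigma_iff, Finset.mem_coe, Finset.mem_range,
        Finset.mem_Icc] at hp
      rw [Finset.mem_coe, hS1, Finset.mem_filter, mem_idx]
      simp only
      refine ⟨⟨⟨by omega, by omega⟩, by omega, Or.inl (by omega)⟩, by omega⟩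
    · rintro ⟨d, i⟩ _ ⟨d', i'⟩ _ h
      simp only [Prod.mk.injEq] at h
      obtain ⟨rfl, h⟩ := h
      have : d = d' := by omega
      rw [this]
  have h2 : c * N ≤ S2.card := by
    have : (Finset.range c ×ˢ Finset.range N).card = c * N := by
      rw [Finset.card_product, Finset.card_range, Finset.card_range]
    rw [← this]
    refine Finset.card_le_card_of_injOn
      (fun p : ℕ × ℕ => (p.1 + (s + 1) * p.2, p.1 + (s + 1) * p.2 + s + 1)) ?_ ?_
    · rintro ⟨r, t⟩ hp
      rw [Finset.mem_coe, Finset.mem_product, Finset.mem_range, Finset.mem_range] at hp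
      obtain ⟨hr, ht⟩ := hp
      simp only at hr ht
      have e1 : (s + 1) * (t + 1) ≤ n - (s + 1) := by
        refine (Nat.mul_le_mul_left (s + 1) ht).trans ?_
        rw [hN]; exact Nat.mul_div_le _ _
      rw [Nat.mul_add, Nat.mul_one] at e1
      have e2 : (r + (s + 1) * t) % (s + 1) = r := by
        rw [Nat.add_mul_mod_self_left, Nat.mod_eq_of_lt (by omega)]
      rw [Finset.mem_coe, hS2, Finset.mem_filter, mem_idx]
      simp only
      have hpos : 0 < (s + 1) * t + (s + 1) := by omega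
      have g1 : r + (s + 1) * t + s + 1 < n := by omega
      refine ⟨⟨⟨by omega, g1⟩, by omega, Or.inr ⟨trivial, ?_⟩⟩, by omega⟩
      rw [e2]; exact hr
    · rintro ⟨r, t⟩ hp ⟨r', t'⟩ hp' h
      rw [Finset.mem_coe, Finset.mem_product, Finset.mem_range, Finset.mem_range] at hp hp'
      simp only [Prod.mk.injEq] at h hp hp'
      have e := h.1
      have e2 : (r + (s + 1) * t) % (s + 1) = r := by
        rw [Nat.add_mul_mod_self_left, Nat.mod_eq_of_lt (by omega)]
      have e2' : (r' + (s + 1) * t') % (s + 1) = r' := by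
        rw [Nat.add_mul_mod_self_left, Nat.mod_eq_of_lt (by omega)]
      have e3 : r = r' := by rw [← e2, ← e2', e]
      rw [e3] at e
      have e4 : (s + 1) * t = (s + 1) * t' := by omega
      rw [e3, Nat.eq_of_mul_eq_mul_left (Nat.succ_pos s) e4]
  -- estimates
  have h3 : n * s ≤ ∑ d ∈ Finset.Icc 1 s, (n - d) + ∑ d ∈ Finset.Icc 1 s, d := by
    rw [← Finset.sum_add_distrib]
    calc n * s = ∑ _d ∈ Finset.Icc 1 s, n := by simp [mul_comm]
      _ ≤ ∑ d ∈ Finset.Icc 1 s, (n - d + d) := Finset.sum_le_sum fun d _ => by omega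
  have h4 : 2 * ∑ d ∈ Finset.Icc 1 s, d = s * (s + 1) := by
    have e := Finset.sum_range_id_mul_two (s + 1)
    rw [Nat.add_sub_cancel] at e
    have e2 : ∑ d ∈ Finset.range (s + 1), d = ∑ d ∈ Finset.Icc 1 s, d := by
      rw [Finset.range_eq_Ico, Finset.sum_eq_sum_Ico_succ_bot (Nat.succ_pos s)]
      simp only [zero_add]
      rfl
    rw [e2] at e
    rw [mul_comm, e, mul_comm]
  have h5 : n ≤ (s + 1) * N + (2 * s + 1) := by
    have e1 := Nat.div_add_mod (n - (s + 1)) (s + 1)
    have e2 := Nat.mod_lt (n - (s + 1)) (show 0 < s + 1 by omega)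
    rw [← hN] at e1
    omega
  have h6 : c * n ≤ (s + 1) * (c * N) + c * (2 * s + 1) := by
    calc c * n ≤ c * ((s + 1) * N + (2 * s + 1)) := Nat.mul_le_mul_left _ h5
      _ = _ := by ring
  rw [hsum]
  nlinarith [h1, h2, h3, h4, h6, Nat.mul_le_mul_left (s + 1) h1, Nat.mul_le_mul_left (s + 1) h2,
    Nat.mul_le_mul_left (s + 1) h3, Nat.zero_le (s * (s + 1) * (s + 1)), Nat.zero_le c]

end Q156.LC
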