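import Pool.Agent.Q156.LineSweep

/-!
# Geometric graphs and lines meeting many edges: the upper bound

`upper` : if no line meets more than `2 m + 1` edges of a geometric graph on `n` points (and `K` is a
bound for the number of edges met by a line), then `2 l |E| ≤ n (2 m + l (l - 1)) + 4 l K` for all `l`.
-/

set_option linter.unusedSectionVars false

namespace Q156.LC
open Finset Filter Topology

/-- The line `a x + b y = c` meets the relative interior of the segment joining the two ends of `e`. -/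
def Meets (a b c : ℝ) (e : Sym2 (ℝ × ℝ)) : Prop :=
  ∃ p q, e = s(p, q) ∧ ∃ z ∈ openSegment ℝ p q, a * z.1 + b * z.2 = c

/-- `(P, E)` is a geometric graph: `P` is a finite set of points of the plane, no three on a line,
and every element of `E` is a pair of two distinct points of `P`. -/
structure IsGeometricGraph (P : Finset (ℝ × ℝ)) (E : Finset (Sym2 (ℝ × ℝ))) : Prop where
  general : ∀ p ∈ P, ∀ q ∈ P, ∀ r ∈ P, p ≠ q → q ≠ r → p ≠ r → ¬ Collinear ℝ {p, q, r}
  edges : ∀ e ∈ E, ∃ p ∈ P, ∃ q ∈ P, p ≠ q ∧ e = s(p, q)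

open Classical in
/-- Number of edges of `E` met by the line `a x + b y = c`. -/
noncomputable def met (E : Finset (Sym2 (ℝ × ℝ))) (a b c : ℝ) : ℕ := (E.filter (Meets a b c)).card

theorem meets_of_lt {a b c : ℝ} {p q : ℝ × ℝ} (hp : c < a * p.1 + b * p.2)
    (hq : a * q.1 + b * q.2 < c) : Meets a b c s(p, q) := by
  set u := a * p.1 + b * p.2 with hu
  set v := a * q.1 + b * q.2 with hv
  have huv : 0 < u - v := by linarith
  refine ⟨p, q, rfl, ((c - v) / (u - v)) • p + ((u - c) / (u - v)) • q,
    ⟨(c - v) / (u - v), (u - c) / (u - v), div_pos (by linarith) huv, div_pos (by linarith) huv,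
      ?_, rfl⟩, ?_⟩
  · rw [← add_div, div_eq_one_iff_eq huv.ne']; ring
  · simp only [Prod.fst_add, Prod.smul_fst, Prod.snd_add, Prod.smul_snd, smul_eq_mul]
    have h1 : a * ((c - v) / (u - v) * p.1 + (u - c) / (u - v) * q.1) +
        b * ((c - v) / (u - v) * p.2 + (u - c) / (u - v) * q.2) =
        ((c - v) * u + (u - c) * v) / (u - v) := by
      rw [hu, hv]; ring
    rw [h1, div_eq_iff huv.ne']; ring

theorem exists_gt_iff {α : Type*} (P : Finset α) (f : α → ℝ) (c : ℝ) :
    ∃ c', ∀ p ∈ P, (c < f p → c' < f p) ∧ (¬ c < f p → f p < c') := by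
  have h : ∀ᶠ c' in 𝓝[>] c, ∀ p ∈ P, (c < f p → c' < f p) ∧ (¬ c < f p → f p < c') := by
    rw [Finset.eventually_all]
    intro p _
    rcases lt_or_ge c (f p) with h | h
    · filter_upwards [nhdsWithin_le_nhds (gt_mem_nhds h)] with c' hc'
      exact ⟨fun _ => hc', fun h' => absurd h h'⟩
    · filter_upwards [self_mem_nhdsWithin] with c' hc'
      have : c < c' := hc'
      exact ⟨fun h' => absurd h' (not_lt.2 h), fun _ => lt_of_le_of_lt h this⟩
  exact h.exists

open Classical in
theorem cut_le {P : Finset (ℝ × ℝ)} {E : Finset (Sym2 (ℝ × ℝ))} (hG : IsGeometricGraph P E) {K : ℕ}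
    (hK : ∀ a b c : ℝ, (a, b) ≠ (0, 0) → met E a b c ≤ K) {a b : ℝ} (hab : (a, b) ≠ (0, 0)) (c : ℝ) :
    cut E (P.filter fun p => c < a * p.1 + b * p.2) ≤ K := by
  obtain ⟨c', hc'⟩ := exists_gt_iff P (fun p : ℝ × ℝ => a * p.1 + b * p.2) c
  refine le_trans ?_ (hK a b c' hab)
  unfold cut met
  refine Finset.card_le_card fun e he => ?_
  rw [Finset.mem_filter] at he ⊢
  obtain ⟨heE, p, q, rfl, hp, hq⟩ := he
  refine ⟨heE, ?_⟩
  obtain ⟨p', hp', q', hq', -, heq⟩ := hG.edges _ heE
  have hqP : q ∈ P := by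
    rw [Sym2.eq_iff] at heq
    rcases heq with ⟨rfl, rfl⟩ | ⟨rfl, rfl⟩ <;> assumption
  rw [Finset.mem_filter] at hp hq
  exact meets_of_lt ((hc' p hp.1).1 hp.2) ((hc' q hqP).2 fun h => hq ⟨hqP, h⟩)

theorem collinear_of_line {a b c : ℝ} (hab : (a, b) ≠ (0, 0)) {p q r : ℝ × ℝ}
    (hp : a * p.1 + b * p.2 = c) (hq : a * q.1 + b * q.2 = c) (hr : a * r.1 + b * r.2 = c) :
    Collinear ℝ {p, q, r} := by
  have hn : 0 < a ^ 2 + b ^ 2 := by
    by_contra h
    have h1 : a ^ 2 = 0 := by nlinarith [sq_nonneg a, sq_nonneg b]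
    have h2 : b ^ 2 = 0 := by nlinarith [sq_nonneg a, sq_nonneg b]
    exact hab (Prod.ext (pow_eq_zero_iff (two_ne_zero)|>.1 h1) (pow_eq_zero_iff (two_ne_zero)|>.1 h2))
  rw [collinear_iff_of_mem (p₀ := p) (by simp)]
  refine ⟨(-b, a), ?_⟩
  have key : ∀ w : ℝ × ℝ, a * w.1 + b * w.2 = c → ∃ t : ℝ, w = t • ((-b, a) : ℝ × ℝ) +ᵥ p := by
    intro w hw
    refine ⟨(a * (w.2 - p.2) - b * (w.1 - p.1)) / (a ^ 2 + b ^ 2), ?_⟩
    have h0 : a * (w.1 - p.1) + b * (w.2 - p.2) = 0 := by linarith
    ext
    · simp only [vadd_eq_add, Prod.fst_add, Prod.smul_fst, smul_eq_mul]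
      field_simp
      linear_combination a * h0
    · simp only [vadd_eq_add, Prod.snd_add, Prod.smul_snd, smul_eq_mul]
      field_simp
      linear_combination b * h0
  intro w hw
  simp only [Set.mem_insert_iff, Set.mem_singleton_iff] at hw
  rcases hw with rfl | rfl | rfl
  · exact key _ hp
  · exact key _ hq
  · exact key _ hr

theorem exists_shear (P : Finset (ℝ × ℝ)) :
    ∃ ε : ℝ, Set.InjOn (fun p : ℝ × ℝ => p.1 + ε * p.2) P := by
  classical
  obtain ⟨ε, hε⟩ := Infinite.exists_notMem_finset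
    ((P ×ˢ P).image fun pq : (ℝ × ℝ) × (ℝ × ℝ) => (pq.1.1 - pq.2.1) / (pq.2.2 - pq.1.2))
  refine ⟨ε, fun p hp q hq h => ?_⟩
  simp only at h
  by_cases h2 : q.2 = p.2
  · refine Prod.ext ?_ h2.symm
    rw [h2] at h; linarith
  · exfalso
    apply hε
    rw [Finset.mem_image]
    refine ⟨(p, q), Finset.mem_product.2 ⟨hp, hq⟩, ?_⟩
    have h3 : q.2 - p.2 ≠ 0 := sub_ne_zero.2 h2
    simp only
    rw [div_eq_iff h3]
    linarith

open Classical in
/-- edges of `E` with both ends in `S` -/
noncomputable def Ein {α : Type*} (E : Finset (Sym2 α)) (S : Finset α) : Finset (Sym2 α) :=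
  E.filter fun e => ∀ p ∈ e, p ∈ S

theorem mem_Ein {α : Type*} {E : Finset (Sym2 α)} {S : Finset α} {p q : α} :
    s(p, q) ∈ Ein E S ↔ s(p, q) ∈ E ∧ p ∈ S ∧ q ∈ S := by
  classical
  unfold Ein
  rw [Finset.mem_filter]
  simp only [Sym2.mem_iff, forall_eq_or_imp, forall_eq]

open Classical in
theorem split {α : Type*} [DecidableEq α] (E : Finset (Sym2 α)) (m : ℕ) (x : α → ℝ) (P : Finset α)
    (hx : Set.InjOn x P) :
    Con (Ein E P) P m P ∨ ∃ p0 ∈ P, Con (Ein E (P.filter fun p => x p < x p0))
      (P.filter fun p => x p < x p0) m (P.filter fun p => x p < x p0) ∧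
      ¬ Con (Ein E (insert p0 (P.filter fun p => x p < x p0)))
        (insert p0 (P.filter fun p => x p < x p0)) m (insert p0 (P.filter fun p => x p < x p0)) := by
  induction P using Finset.induction_on_max_value x with
  | empty => exact Or.inl (con_empty _ _ _)
  | insert a s has hmax ih =>
    have hinj : Set.InjOn x s := fun u hu v hv h =>
      hx (Finset.mem_insert_of_mem hu) (Finset.mem_insert_of_mem hv) h
    have hlt : ∀ v ∈ s, x v < x a := by
      intro v hv
      refine lt_of_le_of_ne (hmax v hv) fun h => ?_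
      have := hx (Finset.mem_insert_of_mem hv) (Finset.mem_insert_self a s) h
      exact has (this ▸ hv)
    rcases ih hinj with h | ⟨p0, hp0, h1, h2⟩
    · by_cases hc : Con (Ein E (insert a s)) (insert a s) m (insert a s)
      · exact Or.inl hc
      · right
        have e : (insert a s).filter (fun p => x p < x a) = s := by
          ext v
          simp only [Finset.mem_filter, Finset.mem_insert]
          constructor
          · rintro ⟨rfl | hv, h⟩
            · exact absurd h (lt_irrefl _)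
            · exact hv
          · intro hv; exact ⟨Or.inr hv, hlt v hv⟩
        refine ⟨a, Finset.mem_insert_self _ _, ?_, ?_⟩
        · rw [e]; exact h
        · rw [e]; exact hc
    · right
      have e : (insert a s).filter (fun p => x p < x p0) = s.filter (fun p => x p < x p0) := by
        ext v
        simp only [Finset.mem_filter, Finset.mem_insert]
        constructor
        · rintro ⟨rfl | hv, h⟩
          · exact absurd (hlt p0 hp0) (not_lt.2 h.le)
          · exact ⟨hv, h⟩
        · rintro ⟨hv, h⟩; exact ⟨Or.inr hv, h⟩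
      refine ⟨p0, Finset.mem_insert_of_mem hp0, ?_, ?_⟩
      · rw [e]; exact h1
      · rw [e]; exact h2

theorem Ein_edges {α : Type*} {E : Finset (Sym2 α)} {P S : Finset α}
    (hE : ∀ e ∈ E, ∃ p ∈ P, ∃ q ∈ P, p ≠ q ∧ e = s(p, q)) :
    ∀ e ∈ Ein E S, ∃ p ∈ S, ∃ q ∈ S, p ≠ q ∧ e = s(p, q) := by
  classical
  intro e he
  have heE : e ∈ E := (Finset.mem_filter.1 he).1
  obtain ⟨p, -, q, -, hpq, rfl⟩ := hE e heE
  obtain ⟨-, h1, h2⟩ := mem_Ein.1 he
  exact ⟨p, h1, q, h2, hpq, rfl⟩

open Classical in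
theorem card_cover {α : Type*} [DecidableEq α] {E : Finset (Sym2 α)} {P A' B : Finset α} {p0 : α}
    (hE : ∀ e ∈ E, ∃ p ∈ P, ∃ q ∈ P, p ≠ q ∧ e = s(p, q))
    (hcover : ∀ p ∈ P, p ∈ A' ∨ p = p0 ∨ p ∈ B) (hp0B : p0 ∉ B) :
    E.card ≤ (Ein E A').card + (Ein E B).card + cut E A' + cut E B := by
  have hsub : E ⊆ ((Ein E A' ∪ Ein E B) ∪ E.filter (Sep A')) ∪ E.filter (Sep B) := by
    intro e he
    obtain ⟨p, hp, q, hq, hpq, rfl⟩ := hE e he
    rw [Finset.mem_union, Finset.mem_union, Finset.mem_union, mem_Ein, mem_Ein, Finset.mem_filter,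
      Finset.mem_filter]
    by_cases hpA : p ∈ A'
    · by_cases hqA : q ∈ A'
      · exact Or.inl (Or.inl (Or.inl ⟨he, hpA, hqA⟩))
      · exact Or.inl (Or.inr ⟨he, p, q, rfl, hpA, hqA⟩)
    · by_cases hqA : q ∈ A'
      · exact Or.inl (Or.inr ⟨he, q, p, Sym2.eq_swap, hqA, hpA⟩)
      · rcases (hcover p hp).resolve_left hpA with rfl | hpB
        · rcases (hcover q hq).resolve_left hqA with h | hqB
          · exact absurd h.symm hpq
          · exact Or.inr ⟨he, q, p, Sym2.eq_swap, hqB, hp0B⟩
        · rcases (hcover q hq).resolve_left hqA with rfl | hqB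
          · exact Or.inr ⟨he, p, q, rfl, hpB, hp0B⟩
          · exact Or.inl (Or.inl (Or.inr ⟨he, hpB, hqB⟩))
  refine (Finset.card_le_card hsub).trans ?_
  refine (Finset.card_union_le _ _).trans (Nat.add_le_add_right ?_ _)
  refine (Finset.card_union_le _ _).trans (Nat.add_le_add_right ?_ _)
  exact Finset.card_union_le _ _

open Classical in
/-- **Upper bound.** -/
theorem upper {P : Finset (ℝ × ℝ)} {E : Finset (Sym2 (ℝ × ℝ))} (hG : IsGeometricGraph P E) {K m : ℕ}
    (hKm : K ≤ 2 * m + 1) (hK : ∀ a b c : ℝ, (a, b) ≠ (0, 0) → met E a b c ≤ K) (l : ℕ) :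
    2 * l * E.card ≤ P.card * (2 * m + l * (l - 1)) + 4 * l * K := by
  obtain ⟨ε, hε⟩ := exists_shear P
  set x : ℝ × ℝ → ℝ := fun p => p.1 + ε * p.2 with hxdef
  set y : ℝ × ℝ → ℝ := fun p => p.2 with hydef
  have hhtlin : ∀ s p, ht x y s p = (-s) * p.1 + (1 - s * ε) * p.2 := by
    intro s p; simp only [ht, hxdef, hydef]; ring
  have hne : ∀ s : ℝ, ((-s, 1 - s * ε) : ℝ × ℝ) ≠ (0, 0) := by
    intro s h
    rw [Prod.mk.injEq] at h
    obtain ⟨h1, h2⟩ := h
    have : s = 0 := by linarith
    rw [this] at h2; linarith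
  rcases split E m x P hε with hc | ⟨p0, hp0, hc1, hc2⟩
  · have h1 := card_le_of_con (Ein_edges hG.edges) hc l
    have h2 : Ein E P = E := by
      refine Finset.filter_true_of_mem fun e he p hp => ?_
      obtain ⟨a, ha, b, hb, -, rfl⟩ := hG.edges e he
      rcases Sym2.mem_iff.1 hp with rfl | rfl <;> assumption
    rw [h2] at h1
    exact h1.trans (Nat.le_add_right _ _)
  · set A' := P.filter (fun p => x p < x p0) with hA'
    set A := insert p0 A' with hA
    set B := P.filter (fun p => x p0 < x p) with hB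
    have hA'P : A' ⊆ P := Finset.filter_subset _ _
    have hBP : B ⊆ P := Finset.filter_subset _ _
    have hAP : A ⊆ P := Finset.insert_subset hp0 hA'P
    have hABP : A ∪ B ⊆ P := Finset.union_subset hAP hBP
    have hp0B : p0 ∉ B := by simp [hB]
    have hcover : ∀ p ∈ P, p ∈ A' ∨ p = p0 ∨ p ∈ B := by
      intro p hp
      rcases lt_trichotomy (x p) (x p0) with h | h | h
      · exact Or.inl (Finset.mem_filter.2 ⟨hp, h⟩)
      · exact Or.inr (Or.inl (hε hp hp0 h))
      · exact Or.inr (Or.inr (Finset.mem_filter.2 ⟨hp, h⟩))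
    have hsep : ∀ a ∈ A, ∀ b ∈ B, x a < x b := by
      intro a ha b hb
      have hb' := (Finset.mem_filter.1 hb).2
      rcases Finset.mem_insert.1 ha with rfl | ha
      · exact hb'
      · exact ((Finset.mem_filter.1 ha).2).trans hb'
    have hcol : ∀ s, ∀ p ∈ A ∪ B, ∀ q ∈ A ∪ B, ∀ r ∈ A ∪ B, ht x y s p = ht x y s q →
        ht x y s q = ht x y s r → p = q ∨ q = r ∨ p = r := by
      intro s p hp q hq r hr h1 h2
      by_contra hcon
      push Not at hcon
      obtain ⟨h3, h4, h5⟩ := hcon
      refine hG.general p (hABP hp) q (hABP hq) r (hABP hr) h3 h4 h5 ?_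
      refine collinear_of_line (hne s) (c := ht x y s r) ?_ ?_ ?_
      · rw [← hhtlin, h1, h2]
      · rw [← hhtlin, h2]
      · rw [← hhtlin]
    have hA0 : cut (Ein E A) A ≤ m := by
      have : cut (Ein E A) A = 0 := by
        unfold cut
        rw [Finset.card_eq_zero, Finset.filter_eq_empty_iff]
        rintro e he ⟨p, q, rfl, hp, hq⟩
        exact hq (mem_Ein.1 he).2.2
      rw [this]; exact Nat.zero_le _
    have hdisj : Disjoint (Ein E A) (Ein E B) := by
      rw [Finset.disjoint_left]
      intro e he he'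
      obtain ⟨p, hp, q, hq, -, rfl⟩ := Ein_edges hG.edges e he
      have h1 := (mem_Ein.1 he').2.1
      exact absurd (hsep p hp p h1) (lt_irrefl _)
    have H1 : ∀ s c, cut (Ein E A) (A.filter fun p => c < ht x y s p) ≤ m ∨
        cut (Ein E B) (B.filter fun p => c < ht x y s p) ≤ m := by
      intro s c
      have hcut := cut_le hG hK (hne s) c
      have hfil : P.filter (fun p : ℝ × ℝ => c < (-s) * p.1 + (1 - s * ε) * p.2) =
          P.filter (fun p => c < ht x y s p) := by
        refine Finset.filter_congr fun p _ => ?_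
        rw [hhtlin]
      rw [hfil] at hcut
      have hsum : cut (Ein E A) (A.filter fun p => c < ht x y s p) +
          cut (Ein E B) (B.filter fun p => c < ht x y s p) ≤
          cut E (P.filter fun p => c < ht x y s p) := by
        unfold cut
        rw [← Finset.card_union_of_disjoint
          (Finset.disjoint_of_subset_left (Finset.filter_subset _ _)
            (Finset.disjoint_of_subset_right (Finset.filter_subset _ _) hdisj))]
        refine Finset.card_le_card fun e he => ?_
        rw [Finset.mem_union, Finset.mem_filter, Finset.mem_filter] at he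
        rw [Finset.mem_filter]
        rcases he with ⟨h1, p, q, rfl, h2, h3⟩ | ⟨h1, p, q, rfl, h2, h3⟩
        · obtain ⟨g1, g2, g3⟩ := mem_Ein.1 h1
          rw [Finset.mem_filter] at h2 h3
          refine ⟨g1, p, q, rfl, Finset.mem_filter.2 ⟨hAP g2, h2.2⟩, fun h => ?_⟩
          exact h3 ⟨g3, (Finset.mem_filter.1 h).2⟩
        · obtain ⟨g1, g2, g3⟩ := mem_Ein.1 h1
          rw [Finset.mem_filter] at h2 h3
          refine ⟨g1, p, q, rfl, Finset.mem_filter.2 ⟨hBP g2, h2.2⟩, fun h => ?_⟩
          exact h3 ⟨g3, (Finset.mem_filter.1 h).2⟩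
      omega
    have hxAB : Set.InjOn x (A ∪ B : Finset (ℝ × ℝ)) := fun u hu v hv h =>
      hε (hABP hu) (hABP hv) h
    have hcB : Con (Ein E B) B m B := (con_or_con hxAB hsep hcol hA0 H1).resolve_left hc2
    have e1 := card_le_of_con (Ein_edges hG.edges) hc1 l
    have e2 := card_le_of_con (Ein_edges hG.edges) hcB l
    have e3 : cut E A' ≤ K := by
      have h := cut_le hG hK (a := -1) (b := -ε) (by simp) (-(x p0))
      have hfil : P.filter (fun p : ℝ × ℝ => -(x p0) < -1 * p.1 + -ε * p.2) = A' := by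
        refine Finset.filter_congr fun p _ => ?_
        simp only [hxdef]
        constructor <;> intro h <;> linarith
      rw [hfil] at h; exact h
    have e4 : cut E B ≤ K := by
      have h := cut_le hG hK (a := 1) (b := ε) (by simp) (x p0)
      have hfil : P.filter (fun p : ℝ × ℝ => x p0 < 1 * p.1 + ε * p.2) = B := by
        refine Finset.filter_congr fun p _ => ?_
        simp only [hxdef]
        constructor <;> intro h <;> linarith
      rw [hfil] at h; exact h
    have e5 : E.card ≤ (Ein E A').card + (Ein E B).card + cut E A' + cut E B := by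
      exact card_cover hG.edges hcover hp0B
    have e6 : A'.card + B.card ≤ P.card := by
      rw [← Finset.card_union_of_disjoint]
      · exact Finset.card_le_card (Finset.union_subset hA'P hBP)
      · rw [Finset.disjoint_left]
        intro p h1 h2
        exact absurd ((Finset.mem_filter.1 h1).2) (not_lt.2 (Finset.mem_filter.1 h2).2.le)
    calc 2 * l * E.card ≤ 2 * l * ((Ein E A').card + (Ein E B).card + K + K) := by
          refine Nat.mul_le_mul_left _ ?_
          omega
      _ = 2 * l * (Ein E A').card + 2 * l * (Ein E B).card + 4 * l * K := by ring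
      _ ≤ A'.card * (2 * m + l * (l - 1)) + B.card * (2 * m + l * (l - 1)) + 4 * l * K := by
          omega
      _ = (A'.card + B.card) * (2 * m + l * (l - 1)) + 4 * l * K := by ring
      _ ≤ P.card * (2 * m + l * (l - 1)) + 4 * l * K :=
          Nat.add_le_add_right (Nat.mul_le_mul_right _ e6) _

end Q156.LC
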