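import Pool.Agent.Q156.CutWidth

/-!
# Lines meeting two separated point sets

Let `A` and `B` be finite sets of points of the plane separated by a vertical line (`A` to the left),
no three points of `A ∪ B` on a line, and let `EA`, `EB` be graphs on `A` and `B`.  If no line cuts more
than `m` edges of `EA` and at the same time more than `m` edges of `EB`, then `A` or `B` can be built up
vertex by vertex with all cuts at most `m` (`con_or_con`).

The proof is a degree argument modulo 2: rotate a line; a certain sum `J` attached to a direction does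
not change when two points are swapped, and it takes different values at the two vertical directions.
-/

set_option linter.unusedSectionVars false

namespace Q156.LC
open Finset Filter Topology

variable {α : Type*} [DecidableEq α]

theorem con_low {E : Finset (Sym2 α)} {V : Finset α} {m : ℕ} {X : Finset α} (h : Con E V m X) :
    cut E X ≤ m := by
  induction h with
  | refl => rw [cut_empty]; exact Nat.zero_le _
  | tail _ hs _ => exact hs.2.1

open Classical in
/-- indicator of the low sets that cannot be reached -/
noncomputable def ind (E : Finset (Sym2 α)) (V : Finset α) (m : ℕ) (X : Finset α) : ZMod 2 :=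
  if cut E X ≤ m ∧ ¬ Con E V m X then 1 else 0

open Classical in
/-- the sum attached to an order `gt` (`gt j i`: the point `j` is above the point `i`) -/
noncomputable def J (EA EB : Finset (Sym2 α)) (A B : Finset α) (m : ℕ) (gt : α → α → Prop) : ZMod 2 :=
  ∑ i ∈ A, (if Con EB B m (B.filter fun j => gt j i) then 1 else 0) *
    (ind EA A m (A.filter fun j => gt j i) + ind EA A m (insert i (A.filter fun j => gt j i)))

open Classical in
theorem J_congr {EA EB : Finset (Sym2 α)} {A B : Finset α} {m : ℕ} {g g' : α → α → Prop}
    (h : ∀ i ∈ A ∪ B, ∀ j ∈ A ∪ B, (g j i ↔ g' j i)) : J EA EB A B m g = J EA EB A B m g' := by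
  unfold J
  refine Finset.sum_congr rfl fun i hi => ?_
  have h1 : A.filter (fun j => g j i) = A.filter (fun j => g' j i) :=
    Finset.filter_congr fun j hj => h i (Finset.mem_union_left _ hi) j (Finset.mem_union_left _ hj)
  have h2 : B.filter (fun j => g j i) = B.filter (fun j => g' j i) :=
    Finset.filter_congr fun j hj => h i (Finset.mem_union_left _ hi) j (Finset.mem_union_right _ hj)
  rw [h1, h2]

theorem z2 (a : ZMod 2) : a + a = 0 := by
  have h : (2 : ZMod 2) = 0 := by decide
  rw [← two_mul, h, zero_mul]

open Classical in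
/-- telescoping -/
theorem tele (f : Finset α → ZMod 2) (x : α → ℝ) (A : Finset α) (hx : Set.InjOn x A) :
    ∑ i ∈ A, (f (A.filter fun j => x j < x i) + f (insert i (A.filter fun j => x j < x i))) =
      f ∅ + f A := by
  induction A using Finset.induction_on_max_value x with
  | empty => simp [z2]
  | insert a s has hmax ih =>
    rw [Finset.sum_insert has]
    have hinj : Set.InjOn x s := fun u hu v hv h =>
      hx (Finset.mem_insert_of_mem hu) (Finset.mem_insert_of_mem hv) h
    have hlt : ∀ v ∈ s, x v < x a := by
      intro v hv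
      refine lt_of_le_of_ne (hmax v hv) fun h => ?_
      have := hx (Finset.mem_insert_of_mem hv) (Finset.mem_insert_self a s) h
      exact has (this ▸ hv)
    have h1 : (insert a s).filter (fun j => x j < x a) = s := by
      ext v
      simp only [Finset.mem_filter, Finset.mem_insert]
      constructor
      · rintro ⟨rfl | hv, h⟩
        · exact absurd h (lt_irrefl _)
        · exact hv
      · intro hv; exact ⟨Or.inr hv, hlt v hv⟩
    have h2 : ∀ i ∈ s, (insert a s).filter (fun j => x j < x i) = s.filter (fun j => x j < x i) := by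
      intro i hi
      ext v
      simp only [Finset.mem_filter, Finset.mem_insert]
      constructor
      · rintro ⟨rfl | hv, h⟩
        · exact absurd (hlt i hi) (not_lt.2 h.le)
        · exact ⟨hv, h⟩
      · rintro ⟨hv, h⟩; exact ⟨Or.inr hv, h⟩
    have h3 : ∑ i ∈ s, (f ((insert a s).filter fun j => x j < x i) +
        f (insert i ((insert a s).filter fun j => x j < x i))) =
        ∑ i ∈ s, (f (s.filter fun j => x j < x i) + f (insert i (s.filter fun j => x j < x i))) :=
      Finset.sum_congr rfl fun i hi => by rw [h2 i hi]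
    rw [h3, ih hinj, h1]
    have := z2 (f s)
    linear_combination this

/-- height of the point `p` in the direction of slope `s` -/
def ht (x y : α → ℝ) (s : ℝ) (p : α) : ℝ := y p - s * x p

/-- order just after the slope `s` -/
def gtp (x y : α → ℝ) (s : ℝ) (j i : α) : Prop :=
  ht x y s i < ht x y s j ∨ (ht x y s i = ht x y s j ∧ x j < x i)

/-- order just before the slope `s` -/
def gtm (x y : α → ℝ) (s : ℝ) (j i : α) : Prop :=
  ht x y s i < ht x y s j ∨ (ht x y s i = ht x y s j ∧ x i < x j)

theorem ht_diff (x y : α → ℝ) (s t : ℝ) (i j : α) :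
    ht x y t j - ht x y t i = (ht x y s j - ht x y s i) - (t - s) * (x j - x i) := by
  unfold ht; ring

theorem ev_p (x y : α → ℝ) (s : ℝ) (P : Finset α) :
    ∀ᶠ t in 𝓝[>] s, ∀ i ∈ P, ∀ j ∈ P, (ht x y t i < ht x y t j ↔ gtp x y s j i) := by
  rw [Finset.eventually_all]
  intro i _
  rw [Finset.eventually_all]
  intro j _
  have hcont : Continuous fun t => ht x y t j - ht x y t i := by unfold ht; fun_prop
  rcases lt_trichotomy (ht x y s i) (ht x y s j) with h | h | h
  · have h1 : ∀ᶠ t in 𝓝 s, 0 < ht x y t j - ht x y t i :=
      hcont.continuousAt.eventually (lt_mem_nhds (sub_pos.2 h))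
    filter_upwards [nhdsWithin_le_nhds h1] with t ht'
    exact ⟨fun _ => Or.inl h, fun _ => by linarith⟩
  · filter_upwards [self_mem_nhdsWithin] with t ht'
    have hts : s < t := ht'
    have h2 := ht_diff x y s t i j
    rw [h, sub_self, zero_sub] at h2
    constructor
    · intro h3
      refine Or.inr ⟨h, ?_⟩
      by_contra h4
      have : 0 ≤ (t - s) * (x j - x i) := mul_nonneg (by linarith) (by linarith [not_lt.1 h4])
      linarith
    · rintro (h3 | ⟨-, h3⟩)
      · exact absurd h h3.ne
      · have : 0 < (t - s) * (x i - x j) := mul_pos (by linarith) (by linarith)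
        nlinarith
  · have h1 : ∀ᶠ t in 𝓝 s, ht x y t j - ht x y t i < 0 :=
      hcont.continuousAt.eventually (gt_mem_nhds (sub_neg.2 h))
    filter_upwards [nhdsWithin_le_nhds h1] with t ht'
    constructor
    · intro h3; linarith
    · rintro (h3 | ⟨h3, -⟩)
      · linarith
      · linarith

theorem ev_m (x y : α → ℝ) (s : ℝ) (P : Finset α) :
    ∀ᶠ t in 𝓝[<] s, ∀ i ∈ P, ∀ j ∈ P, (ht x y t i < ht x y t j ↔ gtm x y s j i) := by
  rw [Finset.eventually_all]
  intro i _
  rw [Finset.eventually_all]
  intro j _
  have hcont : Continuous fun t => ht x y t j - ht x y t i := by unfold ht; fun_prop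
  rcases lt_trichotomy (ht x y s i) (ht x y s j) with h | h | h
  · have h1 : ∀ᶠ t in 𝓝 s, 0 < ht x y t j - ht x y t i :=
      hcont.continuousAt.eventually (lt_mem_nhds (sub_pos.2 h))
    filter_upwards [nhdsWithin_le_nhds h1] with t ht'
    exact ⟨fun _ => Or.inl h, fun _ => by linarith⟩
  · filter_upwards [self_mem_nhdsWithin] with t ht'
    have hts : t < s := ht'
    have h2 := ht_diff x y s t i j
    rw [h, sub_self, zero_sub] at h2
    constructor
    · intro h3
      refine Or.inr ⟨h, ?_⟩
      by_contra h4
      have : 0 ≤ (s - t) * (x i - x j) := mul_nonneg (by linarith) (by linarith [not_lt.1 h4])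
      nlinarith
    · rintro (h3 | ⟨-, h3⟩)
      · exact absurd h h3.ne
      · have : 0 < (s - t) * (x j - x i) := mul_pos (by linarith) (by linarith)
        nlinarith
  · have h1 : ∀ᶠ t in 𝓝 s, ht x y t j - ht x y t i < 0 :=
      hcont.continuousAt.eventually (gt_mem_nhds (sub_neg.2 h))
    filter_upwards [nhdsWithin_le_nhds h1] with t ht'
    constructor
    · intro h3; linarith
    · rintro (h3 | ⟨h3, -⟩)
      · linarith
      · linarith

theorem ev_top (x y : α → ℝ) (P : Finset α) (hx : Set.InjOn x P) :
    ∀ᶠ t in atTop, ∀ i ∈ P, ∀ j ∈ P, (ht x y t i < ht x y t j ↔ x j < x i) := by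
  rw [Finset.eventually_all]
  intro i hi
  rw [Finset.eventually_all]
  intro j hj
  rcases lt_trichotomy (x i) (x j) with h | h | h
  · filter_upwards [eventually_gt_atTop ((y j - y i) / (x j - x i))] with t ht'
    rw [div_lt_iff₀ (by linarith)] at ht'
    unfold ht
    constructor
    · intro h3; nlinarith
    · intro h3; linarith
  · have : i = j := hx hi hj h
    subst this
    exact Eventually.of_forall fun t => by simp
  · filter_upwards [eventually_gt_atTop ((y i - y j) / (x i - x j))] with t ht'
    rw [div_lt_iff₀ (by linarith)] at ht'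
    unfold ht
    constructor
    · intro _; exact h
    · intro _; nlinarith

theorem ev_bot (x y : α → ℝ) (P : Finset α) (hx : Set.InjOn x P) :
    ∀ᶠ t in atBot, ∀ i ∈ P, ∀ j ∈ P, (ht x y t i < ht x y t j ↔ x i < x j) := by
  rw [Finset.eventually_all]
  intro i hi
  rw [Finset.eventually_all]
  intro j hj
  rcases lt_trichotomy (x i) (x j) with h | h | h
  · filter_upwards [eventually_lt_atBot ((y j - y i) / (x j - x i))] with t ht'
    rw [lt_div_iff₀ (by linarith)] at ht'
    unfold ht
    constructor
    · intro _; exact h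
    · intro _; nlinarith
  · have : i = j := hx hi hj h
    subst this
    exact Eventually.of_forall fun t => by simp
  · filter_upwards [eventually_lt_atBot ((y i - y j) / (x i - x j))] with t ht'
    rw [lt_div_iff₀ (by linarith)] at ht'
    unfold ht
    constructor
    · intro h3; nlinarith
    · intro h3; linarith

/-- two low sets differing by one element have the same indicator -/
theorem ind_eq_of_low {E : Finset (Sym2 α)} {V : Finset α} {m : ℕ} {X : Finset α} {i : α}
    (hX : X ⊆ V) (hi : i ∈ V) (h1 : cut E X ≤ m) (h2 : cut E (insert i X) ≤ m) :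
    ind E V m X = ind E V m (insert i X) := by
  have hs : Step E V m X (insert i X) :=
    ⟨h1, h2, hX, Finset.insert_subset hi hX, i, Or.inl rfl⟩
  have hc := con_iff_of_step hs
  unfold ind
  by_cases h : Con E V m X
  · rw [if_neg (fun h' => h'.2 h), if_neg (fun h' => h'.2 (hc.1 h))]
  · rw [if_pos ⟨h1, h⟩, if_pos ⟨h2, fun h' => h (hc.2 h')⟩]

variable {x y : α → ℝ} {EA EB : Finset (Sym2 α)} {A B : Finset α} {m : ℕ}

open Classical in
/-- swapping two points does not change `J` -/
theorem J_swap (hsep : ∀ a ∈ A, ∀ b ∈ B, x a < x b)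
    (hxA : Set.InjOn x A)
    (hcol : ∀ s, ∀ p ∈ A ∪ B, ∀ q ∈ A ∪ B, ∀ r ∈ A ∪ B, ht x y s p = ht x y s q →
      ht x y s q = ht x y s r → p = q ∨ q = r ∨ p = r)
    (H1 : ∀ s c, cut EA (A.filter fun p => c < ht x y s p) ≤ m ∨
      cut EB (B.filter fun p => c < ht x y s p) ≤ m)
    (H2 : ∀ s c, cut EA (A.filter fun p => c ≤ ht x y s p) ≤ m ∨
      cut EB (B.filter fun p => c ≤ ht x y s p) ≤ m) (s : ℝ) :
    J EA EB A B m (gtp x y s) = J EA EB A B m (gtm x y s) := by
  -- terms
  let T : (α → α → Prop) → α → ZMod 2 := fun gt i =>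
    (if Con EB B m (B.filter fun j => gt j i) then 1 else 0) *
    (ind EA A m (A.filter fun j => gt j i) + ind EA A m (insert i (A.filter fun j => gt j i)))
  have hJ : ∀ gt, J EA EB A B m gt = ∑ i ∈ A, T gt i := fun gt => rfl
  rw [hJ, hJ, ← sub_eq_zero, ← Finset.sum_sub_distrib]
  have hAP : ∀ i ∈ A, i ∈ A ∪ B := fun i hi => Finset.mem_union_left _ hi
  have hBP : ∀ i ∈ B, i ∈ A ∪ B := fun i hi => Finset.mem_union_right _ hi
  have hAB : ∀ a ∈ A, ∀ b ∈ B, a ≠ b := fun a ha b hb h => by
    have := hsep a ha b hb; rw [h] at this; exact lt_irrefl _ this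
  -- the partner map
  let σ : α → α := fun i => if h : ∃ j ∈ A, j ≠ i ∧ ht x y s j = ht x y s i then h.choose else i
  have hσ1 : ∀ i, (∃ j ∈ A, j ≠ i ∧ ht x y s j = ht x y s i) →
      σ i ∈ A ∧ σ i ≠ i ∧ ht x y s (σ i) = ht x y s i := by
    intro i h
    simp only [σ, h, dite_true]
    exact h.choose_spec
  have hσ2 : ∀ i, ¬ (∃ j ∈ A, j ≠ i ∧ ht x y s j = ht x y s i) → σ i = i := by
    intro i h
    simp only [σ, h, dite_false]
  have hAeq : ∀ i ∈ A, ¬ (∃ j ∈ A, j ≠ i ∧ ht x y s j = ht x y s i) →
      A.filter (fun j => gtp x y s j i) = A.filter (fun j => ht x y s i < ht x y s j) ∧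
      A.filter (fun j => gtm x y s j i) = A.filter (fun j => ht x y s i < ht x y s j) := by
    intro i hi hno
    constructor
    · refine Finset.filter_congr fun j hj => ⟨?_, fun h => Or.inl h⟩
      rintro (h | ⟨h, h'⟩)
      · exact h
      · exact absurd ⟨j, hj, fun e => by rw [e] at h'; exact lt_irrefl _ h', h.symm⟩ hno
    · refine Finset.filter_congr fun j hj => ⟨?_, fun h => Or.inl h⟩
      rintro (h | ⟨h, h'⟩)
      · exact h
      · exact absurd ⟨j, hj, fun e => by rw [e] at h'; exact lt_irrefl _ h', h.symm⟩ hno
  -- no partner in `A`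
  have hzero : ∀ i ∈ A, ¬ (∃ j ∈ A, j ≠ i ∧ ht x y s j = ht x y s i) →
      T (gtp x y s) i - T (gtm x y s) i = 0 := by
    intro i hi hno
    obtain ⟨e1, e2⟩ := hAeq i hi hno
    simp only [T]
    rw [e1, e2]
    set X := A.filter (fun j => ht x y s i < ht x y s j) with hX
    have hXA : X ⊆ A := Finset.filter_subset _ _
    by_cases hB : ∃ j ∈ B, ht x y s j = ht x y s i
    · obtain ⟨j, hj, hji⟩ := hB
      have hxij := hsep i hi j hj
      have huniq : ∀ k ∈ A ∪ B, ht x y s k = ht x y s i → k = i ∨ k = j := by
        intro k hk hki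
        rcases hcol s k hk i (hAP i hi) j (hBP j hj) hki hji.symm with h | h | h
        · exact Or.inl h
        · exact absurd h (hAB i hi j hj)
        · exact Or.inr h
      set Y := B.filter (fun k => ht x y s i < ht x y s k) with hY
      have eY1 : B.filter (fun k => gtp x y s k i) = Y := by
        refine Finset.filter_congr fun k hk => ⟨?_, fun h => Or.inl h⟩
        rintro (h | ⟨h, h'⟩)
        · exact h
        · exact absurd (hsep i hi k hk) (not_lt.2 h'.le)
      have eY2 : B.filter (fun k => gtm x y s k i) = insert j Y := by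
        ext k
        simp only [hY, Finset.mem_filter, Finset.mem_insert]
        simp only [gtm]
        constructor
        · rintro ⟨hk, h | ⟨h, h'⟩⟩
          · exact Or.inr ⟨hk, h⟩
          · rcases huniq k (hBP k hk) h.symm with h3 | h3
            · exact absurd h3.symm (hAB i hi k hk)
            · exact Or.inl h3
        · rintro (rfl | ⟨hk, h⟩)
          · exact ⟨hj, Or.inr ⟨hji.symm, hxij⟩⟩
          · exact ⟨hk, Or.inl h⟩
      rw [eY1, eY2]
      have hYB : Y ⊆ B := Finset.filter_subset _ _
      by_cases hf : ind EA A m X = ind EA A m (insert i X)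
      · rw [hf, z2]; simp
      · -- one of the two sets is high
        have hhigh : m < cut EA X ∨ m < cut EA (insert i X) := by
          by_contra hcon
          push Not at hcon
          exact hf (ind_eq_of_low hXA hi hcon.1 hcon.2)
        -- realizations
        have r00 := H1 s (ht x y s i)
        rw [← hX, ← hY] at r00
        have r11 := H2 s (ht x y s i)
        have eA11 : A.filter (fun k => ht x y s i ≤ ht x y s k) = insert i X := by
          ext k
          simp only [hX, Finset.mem_filter, Finset.mem_insert]
          constructor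
          · rintro ⟨hk, h⟩
            rcases h.lt_or_eq with h | h
            · exact Or.inr ⟨hk, h⟩
            · rcases huniq k (hAP k hk) h.symm with h3 | h3
              · exact Or.inl h3
              · exact absurd h3 (hAB k hk j hj)
          · rintro (rfl | ⟨hk, h⟩)
            · exact ⟨hi, le_refl _⟩
            · exact ⟨hk, h.le⟩
        have eB11 : B.filter (fun k => ht x y s i ≤ ht x y s k) = insert j Y := by
          ext k
          simp only [hY, Finset.mem_filter, Finset.mem_insert]
          constructor
          · rintro ⟨hk, h⟩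
            rcases h.lt_or_eq with h | h
            · exact Or.inr ⟨hk, h⟩
            · rcases huniq k (hBP k hk) h.symm with h3 | h3
              · exact absurd h3.symm (hAB i hi k hk)
              · exact Or.inl h3
          · rintro (rfl | ⟨hk, h⟩)
            · exact ⟨hj, hji.ge⟩
            · exact ⟨hk, h.le⟩
        rw [eA11, eB11] at r11
        obtain ⟨t, htm⟩ := (ev_m x y s (A ∪ B)).exists
        have r01 := H1 t (ht x y t i)
        have eA01 : A.filter (fun k => ht x y t i < ht x y t k) = X := by
          rw [← e2]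
          exact Finset.filter_congr fun k hk => htm i (hAP i hi) k (hAP k hk)
        have eB01 : B.filter (fun k => ht x y t i < ht x y t k) = insert j Y := by
          rw [← eY2]
          exact Finset.filter_congr fun k hk => htm i (hAP i hi) k (hBP k hk)
        rw [eA01, eB01] at r01
        obtain ⟨t', htp⟩ := (ev_p x y s (A ∪ B)).exists
        have r10 := H1 t' (ht x y t' j)
        have eA10 : A.filter (fun k => ht x y t' j < ht x y t' k) = insert i X := by
          ext k
          simp only [hX, Finset.mem_filter, Finset.mem_insert]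
          constructor
          · rintro ⟨hk, h⟩
            rcases (htp j (hBP j hj) k (hAP k hk)).1 h with h | ⟨h, h'⟩
            · exact Or.inr ⟨hk, by rw [← hji]; exact h⟩
            · rcases huniq k (hAP k hk) (by rw [← h, hji]) with h3 | h3
              · exact Or.inl h3
              · exact absurd h3 (hAB k hk j hj)
          · rintro (rfl | ⟨hk, h⟩)
            · exact ⟨hi, (htp j (hBP j hj) k (hAP k hi)).2 (Or.inr ⟨hji, hxij⟩)⟩
            · exact ⟨hk, (htp j (hBP j hj) k (hAP k hk)).2 (Or.inl (by rw [hji]; exact h))⟩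
        have eB10 : B.filter (fun k => ht x y t' j < ht x y t' k) = Y := by
          ext k
          simp only [hY, Finset.mem_filter]
          constructor
          · rintro ⟨hk, h⟩
            rcases (htp j (hBP j hj) k (hBP k hk)).1 h with h | ⟨h, h'⟩
            · exact ⟨hk, by rw [← hji]; exact h⟩
            · rcases huniq k (hBP k hk) (by rw [← h, hji]) with h3 | h3
              · exact absurd h3.symm (hAB i hi k hk)
              · rw [h3] at h'; exact absurd h' (lt_irrefl _)
          · rintro ⟨hk, h⟩
            exact ⟨hk, (htp j (hBP j hj) k (hBP k hk)).2 (Or.inl (by rw [hji]; exact h))⟩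
        rw [eA10, eB10] at r10
        have hYlow : cut EB Y ≤ m ∧ cut EB (insert j Y) ≤ m := by
          rcases hhigh with h | h
          · exact ⟨r00.resolve_left (not_le.2 h), r01.resolve_left (not_le.2 h)⟩
          · exact ⟨r10.resolve_left (not_le.2 h), r11.resolve_left (not_le.2 h)⟩
        have hs : Step EB B m Y (insert j Y) :=
          ⟨hYlow.1, hYlow.2, hYB, Finset.insert_subset hj hYB, j, Or.inl rfl⟩
        simp only [con_iff_of_step hs, sub_self]
    · have eY : B.filter (fun k => gtp x y s k i) = B.filter (fun k => gtm x y s k i) := by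
        refine Finset.filter_congr fun k hk => ?_
        have hne : ht x y s i ≠ ht x y s k := fun h => hB ⟨k, hk, h.symm⟩
        simp [gtp, gtm, hne]
      rw [eY, sub_self]
  refine Finset.sum_involution (fun i _ => σ i) ?_ ?_ ?_ ?_
  · intro i hi
    by_cases hex : ∃ j ∈ A, j ≠ i ∧ ht x y s j = ht x y s i
    · obtain ⟨hjA, hji, hjeq⟩ := hσ1 i hex
      generalize σ i = j at hjA hji hjeq
      have huniq : ∀ k ∈ A ∪ B, ht x y s k = ht x y s i → k = i ∨ k = j := by
        intro k hk hki
        rcases hcol s k hk i (hAP i hi) j (hAP j hjA) hki hjeq.symm with h | h | h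
        · exact Or.inl h
        · exact absurd h.symm hji
        · exact Or.inr h
      -- everything is symmetric in `i` and `j`
      have key : ∀ i j : α, i ∈ A → j ∈ A → i ≠ j → ht x y s j = ht x y s i →
          (∀ k ∈ A ∪ B, ht x y s k = ht x y s i → k = i ∨ k = j) → x i < x j →
          T (gtp x y s) i - T (gtm x y s) i + (T (gtp x y s) j - T (gtm x y s) j) = 0 := by
        intro i j hi hj hij hjeq huniq hlt
        set X := A.filter (fun k => ht x y s i < ht x y s k) with hX
        set Y := B.filter (fun k => ht x y s i < ht x y s k) with hY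
        have noB : ∀ k ∈ B, ht x y s k ≠ ht x y s i := by
          intro k hk h
          rcases huniq k (hBP k hk) h with h3 | h3
          · exact hAB i hi k hk h3.symm
          · exact hAB j hj k hk h3.symm
        have a1 : A.filter (fun k => gtp x y s k i) = X := by
          refine Finset.filter_congr fun k hk => ⟨?_, fun h => Or.inl h⟩
          rintro (h | ⟨h, h'⟩)
          · exact h
          · rcases huniq k (hAP k hk) h.symm with h3 | h3
            · rw [h3] at h'; exact absurd h' (lt_irrefl _)
            · rw [h3] at h'; exact absurd h' (not_lt.2 hlt.le)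
        have a2 : A.filter (fun k => gtp x y s k j) = insert i X := by
          ext k
          simp only [hX, Finset.mem_filter, Finset.mem_insert]
          simp only [gtp, hjeq]
          constructor
          · rintro ⟨hk, h | ⟨h, h'⟩⟩
            · exact Or.inr ⟨hk, h⟩
            · rcases huniq k (hAP k hk) h.symm with h3 | h3
              · exact Or.inl h3
              · rw [h3] at h'; exact absurd h' (lt_irrefl _)
          · rintro (rfl | ⟨hk, h⟩)
            · exact ⟨hi, Or.inr ⟨rfl, hlt⟩⟩
            · exact ⟨hk, Or.inl h⟩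
        have a3 : A.filter (fun k => gtm x y s k i) = insert j X := by
          ext k
          simp only [hX, Finset.mem_filter, Finset.mem_insert]
          simp only [gtm]
          constructor
          · rintro ⟨hk, h | ⟨h, h'⟩⟩
            · exact Or.inr ⟨hk, h⟩
            · rcases huniq k (hAP k hk) h.symm with h3 | h3
              · rw [h3] at h'; exact absurd h' (lt_irrefl _)
              · exact Or.inl h3
          · rintro (rfl | ⟨hk, h⟩)
            · exact ⟨hj, Or.inr ⟨hjeq.symm, hlt⟩⟩
            · exact ⟨hk, Or.inl h⟩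
        have a4 : A.filter (fun k => gtm x y s k j) = X := by
          refine Finset.filter_congr fun k hk => ⟨?_, fun h => Or.inl (by rw [hjeq]; exact h)⟩
          rintro (h | ⟨h, h'⟩)
          · rw [hjeq] at h; exact h
          · rcases huniq k (hAP k hk) (by rw [← h, hjeq]) with h3 | h3
            · rw [h3] at h'; exact absurd h' (not_lt.2 hlt.le)
            · rw [h3] at h'; exact absurd h' (lt_irrefl _)
        have b1 : B.filter (fun k => gtp x y s k i) = Y := by
          refine Finset.filter_congr fun k hk => ⟨?_, fun h => Or.inl h⟩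
          rintro (h | ⟨h, h'⟩)
          · exact h
          · exact absurd h.symm (noB k hk)
        have b2 : B.filter (fun k => gtp x y s k j) = Y := by
          refine Finset.filter_congr fun k hk => ⟨?_, fun h => Or.inl (by rw [hjeq]; exact h)⟩
          rintro (h | ⟨h, h'⟩)
          · rw [hjeq] at h; exact h
          · exact absurd (by rw [← h, hjeq]) (noB k hk)
        have b3 : B.filter (fun k => gtm x y s k i) = Y := by
          refine Finset.filter_congr fun k hk => ⟨?_, fun h => Or.inl h⟩
          rintro (h | ⟨h, h'⟩)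
          · exact h
          · exact absurd h.symm (noB k hk)
        have b4 : B.filter (fun k => gtm x y s k j) = Y := by
          refine Finset.filter_congr fun k hk => ⟨?_, fun h => Or.inl (by rw [hjeq]; exact h)⟩
          rintro (h | ⟨h, h'⟩)
          · rw [hjeq] at h; exact h
          · exact absurd (by rw [← h, hjeq]) (noB k hk)
        simp only [T]
        rw [a1, a2, a3, a4, b1, b2, b3, b4, Finset.insert_comm j i X]
        have h1 := z2 (ind EA A m (insert i X))
        have h2 := z2 (ind EA A m (insert j X))
        linear_combination (if Con EB B m Y then (1 : ZMod 2) else 0) * h1 -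
          (if Con EB B m Y then (1 : ZMod 2) else 0) * h2
      have hxne : x i ≠ x j := fun h => hji (hxA hi hjA h).symm
      rcases lt_or_gt_of_ne hxne with h | h
      · exact key i j hi hjA (Ne.symm hji) hjeq huniq h
      · have := key j i hjA hi hji hjeq.symm (fun k hk hke => (huniq k hk (hke.trans hjeq)).symm) h
        rw [add_comm]; exact this
    · rw [hσ2 i hex, hzero i hi hex, add_zero]
  · intro i hi hne heq
    by_cases hex : ∃ j ∈ A, j ≠ i ∧ ht x y s j = ht x y s i
    · exact (hσ1 i hex).2.1 heq
    · exact hne (hzero i hi hex)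
  · intro i hi
    by_cases hex : ∃ j ∈ A, j ≠ i ∧ ht x y s j = ht x y s i
    · exact (hσ1 i hex).1
    · rw [hσ2 i hex]; exact hi
  · intro i hi
    by_cases hex : ∃ j ∈ A, j ≠ i ∧ ht x y s j = ht x y s i
    · obtain ⟨hjA, hji, hjeq⟩ := hσ1 i hex
      have hex' : ∃ k ∈ A, k ≠ σ i ∧ ht x y s k = ht x y s (σ i) := ⟨i, hi, hji.symm, hjeq.symm⟩
      obtain ⟨hkA, hkj, hkeq⟩ := hσ1 (σ i) hex'
      rcases hcol s _ (hAP _ hkA) _ (hAP _ hjA) i (hAP i hi) hkeq hjeq with h | h | h
      · exact absurd h hkj
      · exact absurd h hji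
      · exact h
    · rw [hσ2 i hex, hσ2 i hex]

theorem exists_lt_iff (P : Finset α) (f : α → ℝ) (c : ℝ) : ∃ c', ∀ p ∈ P, (c' < f p ↔ c ≤ f p) := by
  have h : ∀ᶠ c' in 𝓝[<] c, ∀ p ∈ P, (c' < f p ↔ c ≤ f p) := by
    rw [Finset.eventually_all]
    intro p _
    rcases le_or_gt c (f p) with h | h
    · filter_upwards [self_mem_nhdsWithin] with c' hc'
      have : c' < c := hc'
      exact ⟨fun _ => h, fun _ => lt_of_lt_of_le this h⟩
    · filter_upwards [nhdsWithin_le_nhds (lt_mem_nhds h)] with c' hc'
      exact ⟨fun h' => absurd h' (not_lt.2 (le_of_lt hc')), fun h' => absurd h' (not_le.2 h)⟩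
  exact h.exists

open Classical in
/-- **Lines meeting two separated graphs.** -/
theorem con_or_con (hx : Set.InjOn x (A ∪ B : Finset α)) (hsep : ∀ a ∈ A, ∀ b ∈ B, x a < x b)
    (hcol : ∀ s, ∀ p ∈ A ∪ B, ∀ q ∈ A ∪ B, ∀ r ∈ A ∪ B, ht x y s p = ht x y s q →
      ht x y s q = ht x y s r → p = q ∨ q = r ∨ p = r)
    (hA0 : cut EA A ≤ m)
    (H1 : ∀ s c, cut EA (A.filter fun p => c < ht x y s p) ≤ m ∨
      cut EB (B.filter fun p => c < ht x y s p) ≤ m) :
    Con EA A m A ∨ Con EB B m B := by
  by_contra hcon
  push Not at hcon
  obtain ⟨hnA, hnB⟩ := hcon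
  have hAP : ∀ i ∈ A, i ∈ A ∪ B := fun i hi => Finset.mem_union_left _ hi
  have hBP : ∀ i ∈ B, i ∈ A ∪ B := fun i hi => Finset.mem_union_right _ hi
  have hxA : Set.InjOn x A := fun u hu v hv h => hx (hAP u hu) (hAP v hv) h
  have H2 : ∀ s c, cut EA (A.filter fun p => c ≤ ht x y s p) ≤ m ∨
      cut EB (B.filter fun p => c ≤ ht x y s p) ≤ m := by
    intro s c
    obtain ⟨c', hc'⟩ := exists_lt_iff (A ∪ B) (ht x y s) c
    have h1 : A.filter (fun p => c ≤ ht x y s p) = A.filter (fun p => c' < ht x y s p) :=
      Finset.filter_congr fun p hp => (hc' p (hAP p hp)).symm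
    have h2 : B.filter (fun p => c ≤ ht x y s p) = B.filter (fun p => c' < ht x y s p) :=
      Finset.filter_congr fun p hp => (hc' p (hBP p hp)).symm
    rw [h1, h2]; exact H1 s c'
  set g : ℝ → ZMod 2 := fun t => J EA EB A B m (fun j i => ht x y t i < ht x y t j) with hg
  set w : ℝ → ZMod 2 := fun s => J EA EB A B m (gtp x y s) with hw
  have hR : ∀ s, ∀ᶠ t in 𝓝[>] s, g t = w s := by
    intro s
    filter_upwards [ev_p x y s (A ∪ B)] with t h
    exact J_congr h
  have hL : ∀ s, ∀ᶠ t in 𝓝[<] s, g t = w s := by
    intro s
    filter_upwards [ev_m x y s (A ∪ B)] with t h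
    rw [hw]
    simp only
    rw [J_swap hsep hxA hcol H1 H2 s]
    exact J_congr h
  have hN : ∀ s, ∀ᶠ t in 𝓝[≠] s, g t = w s := by
    intro s
    rw [← nhdsLT_sup_nhdsGT]
    exact Filter.eventually_sup.2 ⟨hL s, hR s⟩
  have hloc : IsLocallyConstant w := by
    rw [IsLocallyConstant.iff_eventually_eq]
    intro s
    have h1 := hN s
    rw [← eventually_eventually_nhdsWithin, eventually_nhdsWithin_iff] at h1
    filter_upwards [h1] with t h
    by_cases hts : t = s
    · rw [hts]
    · have h2 := h hts
      rw [IsOpen.nhdsWithin_eq isOpen_compl_singleton (show t ∈ ({s}ᶜ : Set ℝ) from hts)] at h2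
      have h3 : ∀ᶠ t' in 𝓝[>] t, g t' = w s := nhdsWithin_le_nhds h2
      obtain ⟨t', h4, h5⟩ := (h3.and (hR t)).exists
      rw [← h4, ← h5]
  have hconst : ∀ s s', w s = w s' := fun s s' => hloc.apply_eq_of_preconnectedSpace s s'
  -- the value at the right end
  have htop : ∃ s, w s = 1 := by
    obtain ⟨S, hS⟩ := eventually_atTop.1 (ev_top x y (A ∪ B) hx)
    refine ⟨S, ?_⟩
    obtain ⟨t, h1, h2⟩ := ((hR S).and (self_mem_nhdsWithin)).exists
    have h2' : S < t := h2
    rw [← h1, hg]
    simp only
    rw [J_congr (g' := fun j i => x j < x i) (hS t h2'.le)]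
    unfold J
    have e : ∀ i ∈ A, (if Con EB B m (B.filter fun j => x j < x i) then (1 : ZMod 2) else 0) *
        (ind EA A m (A.filter fun j => x j < x i) +
          ind EA A m (insert i (A.filter fun j => x j < x i))) =
        ind EA A m (A.filter fun j => x j < x i) +
          ind EA A m (insert i (A.filter fun j => x j < x i)) := by
      intro i hi
      have : B.filter (fun j => x j < x i) = ∅ := by
        rw [Finset.filter_eq_empty_iff]
        intro j hj h
        exact absurd (hsep i hi j hj) (not_lt.2 h.le)
      rw [this, if_pos (con_empty EB B m), one_mul]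
    rw [Finset.sum_congr rfl e, tele (ind EA A m) x A hxA]
    unfold ind
    rw [if_neg (fun h => h.2 (con_empty EA A m)), if_pos ⟨hA0, hnA⟩, zero_add]
  have hbot : ∃ s, w s = 0 := by
    obtain ⟨S, hS⟩ := eventually_atBot.1 (ev_bot x y (A ∪ B) hx)
    refine ⟨S - 1, ?_⟩
    have h3 : ∀ᶠ t in 𝓝[>] (S - 1), t < S := nhdsWithin_le_nhds (gt_mem_nhds (by linarith))
    obtain ⟨t, h1, h2⟩ := ((hR (S - 1)).and h3).exists
    rw [← h1, hg]
    simp only
    rw [J_congr (g' := fun j i => x i < x j) (hS t h2.le)]
    unfold J
    refine Finset.sum_eq_zero fun i hi => ?_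
    have : B.filter (fun j => x i < x j) = B := by
      rw [Finset.filter_true_of_mem]
      intro j hj
      exact hsep i hi j hj
    rw [this, if_neg hnB, zero_mul]
  obtain ⟨s, hs⟩ := htop
  obtain ⟨s', hs'⟩ := hbot
  have := hconst s s'
  rw [hs, hs'] at this
  exact one_ne_zero this

end Q156.LC
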