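import Pool.Agent.Q156.MaxDet

/-!
Gromov's mass of the unit ball of a norm, and the volume of cross-polytopes.
-/

set_option autoImplicit false

open MeasureTheory Set Filter Topology Metric Module
open scoped RealInnerProductSpace ENNReal Nat

namespace Pool.Agent.Q156.MaxDet

variable {n : ℕ}

/-- The cross-polytope `conv {± v_1, ..., ± v_n}`. -/
def crossPolytope (v : Fin n → En n) : Set (En n) :=
  convexHull ℝ (Set.range v ∪ Set.range fun i => -v i)

/-- An origin-symmetric convex body. -/
def IsSymmetricBody (M : Set (En n)) : Prop :=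
  IsCompact M ∧ Convex ℝ M ∧ (interior M).Nonempty ∧ ∀ x ∈ M, -x ∈ M

/-- The volumes of the cross-polytopes inscribed in `M`. -/
def crossVolumes (M : Set (En n)) : Set ℝ :=
  {t | ∃ v : Fin n → En n, LinearIndependent ℝ v ∧ (∀ i, v i ∈ M) ∧
    t = (volume (crossPolytope v)).toReal}

/-- Gromov's mass of `M`. -/
noncomputable def gromovMass (M : Set (En n)) : ℝ :=
  2 ^ n / (n ! : ℝ) * ((volume M).toReal / sSup (crossVolumes M))

theorem standard_cross (hn : 0 < n) :
    crossPolytope (fun i => (EuclideanSpace.basisFun (Fin n) ℝ) i) =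
      {x : En n | ∑ i, |x i| ≤ 1} := by
  obtain ⟨e, he⟩ : ∃ e : Fin n → En n, ∀ i, e i = (EuclideanSpace.basisFun (Fin n) ℝ) i :=
    ⟨_, fun _ => rfl⟩
  have hee : (fun i => (EuclideanSpace.basisFun (Fin n) ℝ) i) = e := by ext i : 1; rw [he]
  rw [hee]
  have hei : ∀ i j, e i j = if j = i then 1 else 0 := by
    intro i j
    rw [he, EuclideanSpace.basisFun_apply]
    simp
  have hsum : ∀ i, ∑ j, |e i j| = 1 := by
    intro i
    simp only [hei]
    rw [Finset.sum_eq_single i]
    · simp
    · intro j _ hj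
      rw [if_neg hj]; simp
    · intro h; exact absurd (Finset.mem_univ i) h
  apply Subset.antisymm
  · apply convexHull_min
    · rintro x (⟨i, rfl⟩ | ⟨i, rfl⟩)
      · exact (hsum i).le
      · show ∑ j, |(-e i) j| ≤ 1
        simp only [PiLp.neg_apply, abs_neg]
        exact (hsum i).le
    · intro x hx y hy a b ha hb hab
      show ∑ i, |(a • x + b • y) i| ≤ 1
      have hx' : ∑ i, |x i| ≤ 1 := hx
      have hy' : ∑ i, |y i| ≤ 1 := hy
      calc ∑ i, |(a • x + b • y) i| ≤ ∑ i, (a * |x i| + b * |y i|) := by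
            apply Finset.sum_le_sum
            intro i _
            have h1 : (a • x + b • y) i = a * x i + b * y i := rfl
            rw [h1]
            refine (abs_add_le _ _).trans ?_
            rw [abs_mul, abs_mul, abs_of_nonneg ha, abs_of_nonneg hb]
        _ = a * ∑ i, |x i| + b * ∑ i, |y i| := by
            rw [Finset.sum_add_distrib, Finset.mul_sum, Finset.mul_sum]
        _ ≤ a * 1 + b * 1 := by gcongr
        _ = 1 := by linarith
  · intro x hx
    have hx' : ∑ i, |x i| ≤ 1 := hx
    have hconv : Convex ℝ (crossPolytope e) := convex_convexHull ℝ _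
    have hpos : ∀ i, e i ∈ crossPolytope e := fun i =>
      subset_convexHull ℝ _ (Or.inl ⟨i, rfl⟩)
    have hneg : ∀ i, -e i ∈ crossPolytope e := fun i =>
      subset_convexHull ℝ _ (Or.inr ⟨i, rfl⟩)
    have h0 : (0 : En n) ∈ crossPolytope e := by
      have := hconv (hpos ⟨0, hn⟩) (hneg ⟨0, hn⟩) (by norm_num : (0 : ℝ) ≤ 1 / 2)
        (by norm_num : (0 : ℝ) ≤ 1 / 2) (by norm_num)
      simpa using this
    obtain ⟨T, hT⟩ : ∃ T, T = ∑ i, |x i| := ⟨_, rfl⟩
    have hTnn : 0 ≤ T := by rw [hT]; exact Finset.sum_nonneg fun i _ => abs_nonneg _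
    rcases eq_or_lt_of_le hTnn with h | h
    · have hx0 : x = 0 := by
        ext i
        have h1 : |x i| ≤ ∑ i, |x i| := Finset.single_le_sum (fun i _ => abs_nonneg (x i))
          (Finset.mem_univ i)
        rw [← hT, ← h] at h1
        have := abs_nonneg (x i)
        have h2 : |x i| = 0 := le_antisymm h1 this
        simpa using h2
      rw [hx0]; exact h0
    · obtain ⟨g, hg⟩ : ∃ g : Fin n → En n, ∀ i, g i = if 0 ≤ x i then e i else -e i :=
        ⟨_, fun _ => rfl⟩
      have hgm : ∀ i, g i ∈ crossPolytope e := by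
        intro i; rw [hg]; split_ifs
        · exact hpos i
        · exact hneg i
      have hz : ∑ i, (|x i| / T) • g i ∈ crossPolytope e := by
        apply hconv.sum_mem
        · intro i _; positivity
        · rw [← Finset.sum_div, ← hT, div_self h.ne']
        · intro i _; exact hgm i
      have hxz : x = T • ∑ i, (|x i| / T) • g i := by
        rw [Finset.smul_sum]
        have h1 : ∀ i, T • (|x i| / T) • g i = x i • e i := by
          intro i
          rw [smul_smul, mul_div_cancel₀ _ h.ne', hg]
          split_ifs with hc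
          · rw [abs_of_nonneg hc]
          · push Not at hc
            rw [abs_of_neg hc]; module
        simp only [h1]
        ext j
        simp only [WithLp.ofLp_sum, WithLp.ofLp_smul, Finset.sum_apply, Pi.smul_apply, smul_eq_mul,
          hei]
        simp
      rw [hxz]
      have := hconv.smul_mem_of_zero_mem h0 hz (t := T) ⟨hTnn, by rw [hT]; exact hx'⟩
      exact this

theorem volume_standard_cross (hn : 0 < n) :
    volume (crossPolytope (fun i => (EuclideanSpace.basisFun (Fin n) ℝ) i)) =
      ENNReal.ofReal (2 ^ n / (n ! : ℝ)) := by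
  rw [standard_cross hn]
  have : Nonempty (Fin n) := ⟨⟨0, hn⟩⟩
  have h1 := MeasureTheory.volume_sum_rpow_le (ι := Fin n) (p := 1) le_rfl 1
  have h2 : {x : Fin n → ℝ | (∑ i, |x i| ^ (1 : ℝ)) ^ (1 / (1 : ℝ)) ≤ 1} =
      {x : Fin n → ℝ | ∑ i, |x i| ≤ 1} := by
    ext x; simp
  rw [h2] at h1
  have h3 : volume {x : En n | ∑ i, |x i| ≤ 1} = volume {x : Fin n → ℝ | ∑ i, |x i| ≤ 1} := by
    have hm : MeasurableSet {x : Fin n → ℝ | ∑ i, |x i| ≤ 1} := by
      apply measurableSet_le _ measurable_const
      fun_prop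
    have := (PiLp.volume_preserving_ofLp (Fin n)).measure_preimage hm.nullMeasurableSet
    exact this
  rw [h3, h1]
  simp only [ENNReal.ofReal_one, one_pow, one_mul, Fintype.card_fin, div_one]
  congr 1
  rw [show (1 : ℝ) + 1 = ((1 : ℕ) : ℝ) + 1 by norm_num, Real.Gamma_nat_eq_factorial,
    Real.Gamma_nat_eq_factorial]
  simp

theorem volume_cross (hn : 0 < n) (v : Fin n → En n) :
    volume (crossPolytope v) = ENNReal.ofReal (2 ^ n / (n ! : ℝ) * adet v) := by
  obtain ⟨b, hb⟩ : ∃ b : Basis (Fin n) ℝ (En n), b = (EuclideanSpace.basisFun (Fin n) ℝ).toBasis :=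
    ⟨_, rfl⟩
  obtain ⟨L, hL⟩ : ∃ L : En n →ₗ[ℝ] En n, L = b.constr ℝ v := ⟨_, rfl⟩
  have hLi : ∀ i, L ((EuclideanSpace.basisFun (Fin n) ℝ) i) = v i := by
    intro i
    have := b.constr_basis ℝ v i
    rw [← hL] at this
    rw [← this, hb, OrthonormalBasis.coe_toBasis]
  have himg : crossPolytope v =
      L '' crossPolytope (fun i => (EuclideanSpace.basisFun (Fin n) ℝ) i) := by
    unfold crossPolytope
    rw [L.image_convexHull, image_union, ← range_comp, ← range_comp]
    congr 2
    · ext x
      simp only [mem_range, Function.comp]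
      simp only [hLi]
    · ext x
      simp only [mem_range, Function.comp, map_neg]
      simp only [hLi]
  have hdet : |LinearMap.det L| = adet v := by
    unfold adet
    rw [← hb]
    have h1 := b.det_comp L b
    rw [b.det_self, mul_one] at h1
    rw [← h1]
    congr 2
    ext i : 1
    rw [Function.comp, hb, OrthonormalBasis.coe_toBasis, hLi]
  rw [himg, Measure.addHaar_image_linearMap, volume_standard_cross hn, hdet,
    ← ENNReal.ofReal_mul (show 0 ≤ adet v from abs_nonneg _), mul_comm]

theorem adet_nonneg (v : Fin n → En n) : 0 ≤ adet v := abs_nonneg _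

theorem crossVolumes_mem (hn : 0 < n) {M : Set (En n)} {v : Fin n → En n}
    (hv : LinearIndependent ℝ v) (hM : ∀ i, v i ∈ M) :
    2 ^ n / (n ! : ℝ) * adet v ∈ crossVolumes M := by
  refine ⟨v, hv, hM, ?_⟩
  rw [volume_cross hn, ENNReal.toReal_ofReal]
  have := adet_nonneg v
  positivity

theorem bddAbove_crossVolumes (hn : 0 < n) {M : Set (En n)} (hM : IsCompact M) :
    BddAbove (crossVolumes M) := by
  obtain ⟨R, hR⟩ := hM.isBounded.subset_closedBall (0 : En n)
  refine ⟨2 ^ n / (n ! : ℝ) * (max R 0) ^ n, ?_⟩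
  rintro t ⟨v, _, hv, rfl⟩
  rw [volume_cross hn, ENNReal.toReal_ofReal (by have := adet_nonneg v; positivity)]
  have h1 : adet v ≤ (max R 0) ^ n := by
    refine (adet_le v).trans ?_
    calc ∏ i, ‖v i‖ ≤ ∏ _i : Fin n, max R 0 := by
          apply Finset.prod_le_prod
          · intro i _; exact norm_nonneg _
          · intro i _
            have : ‖v i‖ ≤ R := by simpa using hR (hv i)
            exact this.trans (le_max_left _ _)
      _ = (max R 0) ^ n := by simp
  gcongr

theorem adet_ne_zero_iff (v : Fin n → En n) : adet v ≠ 0 ↔ LinearIndependent ℝ v := by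
  have h := Module.Basis.is_basis_iff_det (EuclideanSpace.basisFun (Fin n) ℝ).toBasis (v := v)
  unfold adet
  rw [abs_ne_zero, ← isUnit_iff_ne_zero, ← h]
  constructor
  · rintro ⟨h1, _⟩
    exact h1
  · intro h1
    exact ⟨h1, h1.span_eq_top_of_card_eq_finrank' (by simp)⟩

/-- The mass is at most the volume of the Euclidean unit ball. -/
theorem mass_le (hn : 0 < n) {M : Set (En n)} (hM : IsSymmetricBody M) :
    gromovMass M ≤ (volume (ball (0 : En n) 1)).toReal := by
  obtain ⟨h1, h2, h3, _⟩ := hM
  have hne : M.Nonempty := h3.mono interior_subset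
  obtain ⟨s, hs⟩ : ∃ s, s = sSup (crossVolumes M) := ⟨_, rfl⟩
  have hk : (0 : ℝ) < 2 ^ n / (n ! : ℝ) := by positivity
  have hvolpos : 0 < volume M :=
    lt_of_lt_of_le (isOpen_interior.measure_pos volume h3) (measure_mono interior_subset)
  have hvolfin : volume M ≠ ⊤ := h1.measure_lt_top.ne
  have hsnn : 0 ≤ s := by
    rw [hs]
    apply Real.sSup_nonneg
    rintro t ⟨v, _, _, rfl⟩
    exact ENNReal.toReal_nonneg
  have hdet : ∀ v : Fin n → En n, (∀ i, v i ∈ M) → adet v ≤ s / (2 ^ n / (n ! : ℝ)) := by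
    intro v hv
    rw [le_div_iff₀ hk]
    rcases eq_or_ne (adet v) 0 with h0 | h0
    · rw [h0, zero_mul]; exact hsnn
    · rw [mul_comm, hs]
      exact le_csSup (bddAbove_crossVolumes hn h1)
        (crossVolumes_mem hn ((adet_ne_zero_iff v).mp h0) hv)
  have hmain := volume_le h1 h2 hne _ hdet
  have hball : volume (ball (0 : En n) 1) ≠ ⊤ := measure_ball_lt_top.ne
  have hmain' : (volume M).toReal ≤ s / (2 ^ n / (n ! : ℝ)) * (volume (ball (0 : En n) 1)).toReal := by
    have := ENNReal.toReal_mono (ENNReal.mul_ne_top ENNReal.ofReal_ne_top hball) hmain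
    rwa [ENNReal.toReal_mul, ENNReal.toReal_ofReal (by positivity)] at this
  have hVpos : 0 < (volume M).toReal := ENNReal.toReal_pos hvolpos.ne' hvolfin
  have hspos : 0 < s := by
    rcases hsnn.lt_or_eq with h | h
    · exact h
    · rw [← h, zero_div, zero_mul] at hmain'
      linarith
  unfold gromovMass
  rw [← hs, ← mul_div_assoc, div_le_iff₀ hspos]
  have h5 : s / (2 ^ n / (n ! : ℝ)) * (volume (ball (0 : En n) 1)).toReal =
      (volume (ball (0 : En n) 1)).toReal * s / (2 ^ n / (n ! : ℝ)) := by ring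
  rw [h5, le_div_iff₀ hk] at hmain'
  linarith

theorem ball_body : IsSymmetricBody (closedBall (0 : En n) 1) := by
  refine ⟨isCompact_closedBall _ _, convex_closedBall _ _, ?_, ?_⟩
  · exact ⟨0, by
      rw [mem_interior_iff_mem_nhds]
      exact closedBall_mem_nhds _ one_pos⟩
  · intro x hx
    rw [mem_closedBall_zero_iff] at hx ⊢
    rwa [norm_neg]

theorem mass_ball (hn : 0 < n) :
    gromovMass (closedBall (0 : En n) 1) = (volume (ball (0 : En n) 1)).toReal := by
  have : Nonempty (Fin n) := ⟨⟨0, hn⟩⟩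
  have hk : (0 : ℝ) < 2 ^ n / (n ! : ℝ) := by positivity
  have hs : sSup (crossVolumes (closedBall (0 : En n) 1)) = 2 ^ n / (n ! : ℝ) := by
    apply IsGreatest.csSup_eq
    refine ⟨?_, ?_⟩
    · have h1 := adet_basis (EuclideanSpace.basisFun (Fin n) ℝ) 1
      simp only [one_smul, abs_one, one_pow] at h1
      have h2 := crossVolumes_mem hn (M := closedBall (0 : En n) 1)
        (EuclideanSpace.basisFun (Fin n) ℝ).orthonormal.linearIndependent (by
          intro i
          rw [mem_closedBall_zero_iff, (EuclideanSpace.basisFun (Fin n) ℝ).orthonormal.1])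
      have h3 : adet (fun i => (EuclideanSpace.basisFun (Fin n) ℝ) i) = 1 := h1
      rw [h3, mul_one] at h2
      exact h2
    · rintro t ⟨v, _, hv, rfl⟩
      rw [volume_cross hn, ENNReal.toReal_ofReal (by have := adet_nonneg v; positivity)]
      have h1 : adet v ≤ 1 := by
        refine (adet_le v).trans ?_
        apply Finset.prod_le_one
        · intro i _; exact norm_nonneg _
        · intro i _; simpa using hv i
      calc 2 ^ n / (n ! : ℝ) * adet v ≤ 2 ^ n / (n ! : ℝ) * 1 := by gcongr
        _ = 2 ^ n / (n ! : ℝ) := mul_one _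
  unfold gromovMass
  rw [hs, Measure.addHaar_closedBall_eq_addHaar_ball]
  field_simp

end Pool.Agent.Q156.MaxDet
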