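import Mathlib

/-!
A planar quadratic form attached to a convex set, invariant under the linear symmetries of the set.
-/

set_option autoImplicit false

open MeasureTheory Set Filter Topology Metric Module

namespace Pool.Agent.Q156.PlaneForm

/-- The oriented area. -/
def wdg (z p : ℝ × ℝ) : ℝ := z.1 * p.2 - z.2 * p.1

/-- The quadratic form. -/
noncomputable def qf (K : Set (ℝ × ℝ)) (z : ℝ × ℝ) : ℝ := ∫ p in K, (wdg z p) ^ 2

theorem continuous_wdg (z : ℝ × ℝ) : Continuous fun p => (wdg z p) ^ 2 := by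
  unfold wdg; fun_prop

theorem qf_smul (K : Set (ℝ × ℝ)) (c : ℝ) (z : ℝ × ℝ) : qf K (c • z) = c ^ 2 * qf K z := by
  unfold qf
  rw [← integral_const_mul]
  congr 1
  ext p
  unfold wdg
  simp only [Prod.smul_fst, Prod.smul_snd, smul_eq_mul]
  ring

theorem integrable_wdg {K : Set (ℝ × ℝ)} (hK : IsCompact K) (z : ℝ × ℝ) :
    IntegrableOn (fun p => (wdg z p) ^ 2) K :=
  (continuous_wdg z).continuousOn.integrableOn_compact hK

theorem qf_par {K : Set (ℝ × ℝ)} (hK : IsCompact K) (z w : ℝ × ℝ) :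
    qf K (z + w) + qf K (z - w) = 2 * qf K z + 2 * qf K w := by
  unfold qf
  rw [← integral_const_mul, ← integral_const_mul,
    ← integral_add (integrable_wdg hK _) (integrable_wdg hK _),
    ← integral_add ((integrable_wdg hK _).const_mul _) ((integrable_wdg hK _).const_mul _)]
  congr 1
  ext p
  unfold wdg
  simp only [Prod.fst_add, Prod.snd_add, Prod.fst_sub, Prod.snd_sub]
  ring

theorem qf_pos {K : Set (ℝ × ℝ)} (hK : IsCompact K) (h0 : (0 : ℝ × ℝ) ∈ interior K)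
    {z : ℝ × ℝ} (hz : z ≠ 0) : 0 < qf K z := by
  unfold qf
  rw [setIntegral_pos_iff_support_of_nonneg_ae
    (Filter.Eventually.of_forall fun p => sq_nonneg _) (integrable_wdg hK z)]
  obtain ⟨U, hU⟩ : ∃ U : Set (ℝ × ℝ), U = {p | wdg z p ≠ 0} ∩ interior K := ⟨_, rfl⟩
  have hUo : IsOpen U := by
    rw [hU]
    apply IsOpen.inter _ isOpen_interior
    apply isOpen_ne_fun _ continuous_const
    unfold wdg; fun_prop
  have hcont : Continuous (fun r : ℝ => r • ((-z.2, z.1) : ℝ × ℝ)) := by fun_prop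
  have hev : ∀ᶠ r in 𝓝 (0 : ℝ), r • ((-z.2, z.1) : ℝ × ℝ) ∈ interior K := by
    apply hcont.continuousAt.eventually
    apply isOpen_interior.mem_nhds
    show (0 : ℝ) • ((-z.2, z.1) : ℝ × ℝ) ∈ interior K
    rw [zero_smul]; exact h0
  obtain ⟨r, hr1, hr2⟩ := ((hev.filter_mono nhdsWithin_le_nhds).and
    (self_mem_nhdsWithin (s := Ioi (0 : ℝ)))).exists
  have hr0 : (0 : ℝ) < r := hr2
  have hz2 : 0 < z.1 ^ 2 + z.2 ^ 2 := by
    by_contra hcon
    apply hz
    have h1 : z.1 = 0 := by nlinarith [sq_nonneg z.1, sq_nonneg z.2]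
    have h2 : z.2 = 0 := by nlinarith [sq_nonneg z.1, sq_nonneg z.2]
    exact Prod.ext h1 h2
  have hUne : U.Nonempty := by
    refine ⟨r • ((-z.2, z.1) : ℝ × ℝ), ?_⟩
    rw [hU]
    refine ⟨?_, hr1⟩
    show wdg z (r • ((-z.2, z.1) : ℝ × ℝ)) ≠ 0
    have : wdg z (r • ((-z.2, z.1) : ℝ × ℝ)) = r * (z.1 ^ 2 + z.2 ^ 2) := by
      unfold wdg
      simp only [Prod.smul_fst, Prod.smul_snd, smul_eq_mul]
      ring
    rw [this]; positivity
  refine lt_of_lt_of_le (hUo.measure_pos volume hUne) (measure_mono ?_)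
  rw [hU]
  rintro p ⟨hp1, hp2⟩
  refine ⟨?_, interior_subset hp2⟩
  rw [Function.mem_support]
  exact pow_ne_zero 2 hp1

theorem qf_inv {K : Set (ℝ × ℝ)} (T : (ℝ × ℝ) →ₗ[ℝ] (ℝ × ℝ)) (hTT : ∀ p, T (T p) = p)
    (hTK : ∀ p ∈ K, T p ∈ K) (hw : ∀ p r, (wdg (T p) (T r)) ^ 2 = (wdg p r) ^ 2) (z : ℝ × ℝ) :
    qf K (T z) = qf K z := by
  have hcomp : T.comp T = LinearMap.id := by ext1 <;> ext <;> simp [hTT]
  have hdet : LinearMap.det T * LinearMap.det T = 1 := by
    rw [← LinearMap.det_comp, hcomp, LinearMap.det_id]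
  have habs : |(LinearMap.det T)⁻¹| = 1 := by
    rw [abs_inv, inv_eq_one]
    have h1 : |LinearMap.det T| * |LinearMap.det T| = 1 := by rw [← abs_mul, hdet, abs_one]
    nlinarith [abs_nonneg (LinearMap.det T)]
  have hne : LinearMap.det T ≠ 0 := by
    intro h0; rw [h0, mul_zero] at hdet; exact zero_ne_one hdet
  have hmap : Measure.map T volume = volume := by
    rw [Measure.map_linearMap_addHaar_eq_smul_addHaar volume hne, habs, ENNReal.ofReal_one,
      one_smul]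
  obtain ⟨e, he⟩ : ∃ e : (ℝ × ℝ) ≃L[ℝ] (ℝ × ℝ), ∀ p, e p = T p :=
    ⟨(LinearEquiv.ofInvolutive T hTT).toContinuousLinearEquiv, fun _ => rfl⟩
  have hTe : ⇑T = ⇑e := by ext1 p; exact (he p).symm
  have hmp : MeasurePreserving T volume volume := by
    refine ⟨?_, hmap⟩
    rw [hTe]; exact e.continuous.measurable
  have hemb : MeasurableEmbedding T := by
    rw [hTe]; exact e.toHomeomorph.measurableEmbedding
  have hpre : T ⁻¹' K = K := by
    ext p
    constructor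
    · intro hp
      have := hTK _ hp
      rwa [hTT] at this
    · exact hTK p
  unfold qf
  have h1 := hmp.setIntegral_preimage_emb hemb (fun p => (wdg (T z) p) ^ 2) K
  rw [hpre] at h1
  rw [← h1]
  congr 1
  ext p
  exact hw z p

/-- The linear map `s a + t c ↦ s a - t c`. -/
noncomputable def refl (a c : ℝ × ℝ) : (ℝ × ℝ) →ₗ[ℝ] (ℝ × ℝ) where
  toFun p := (wdg p c / wdg a c) • a - (wdg a p / wdg a c) • c
  map_add' p r := by
    unfold wdg
    ext <;> simp <;> ring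
  map_smul' t p := by
    unfold wdg
    ext <;> simp <;> ring

theorem refl_apply (a c p : ℝ × ℝ) :
    refl a c p = (wdg p c / wdg a c) • a - (wdg a p / wdg a c) • c := rfl

theorem decomp {a c : ℝ × ℝ} (h : wdg a c ≠ 0) (p : ℝ × ℝ) :
    p = (wdg p c / wdg a c) • a + (wdg a p / wdg a c) • c := by
  obtain ⟨k, hk⟩ : ∃ k, k = (wdg a c)⁻¹ := ⟨_, rfl⟩
  have h' : wdg a c * k = 1 := by rw [hk, mul_inv_cancel₀ h]
  rw [div_eq_mul_inv, div_eq_mul_inv, ← hk]
  unfold wdg at h' ⊢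
  ext
  · simp only [Prod.fst_add, Prod.smul_fst, smul_eq_mul]
    linear_combination (-p.1) * h'
  · simp only [Prod.snd_add, Prod.smul_snd, smul_eq_mul]
    linear_combination (-p.2) * h'

theorem refl_refl {a c : ℝ × ℝ} (h : wdg a c ≠ 0) (p : ℝ × ℝ) : refl a c (refl a c p) = p := by
  obtain ⟨k, hk⟩ : ∃ k, k = (wdg a c)⁻¹ := ⟨_, rfl⟩
  have h' : wdg a c * k = 1 := by rw [hk, mul_inv_cancel₀ h]
  rw [refl_apply, refl_apply]
  simp only [div_eq_mul_inv]
  rw [← hk]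
  unfold wdg at h' ⊢
  ext
  · simp only [Prod.fst_sub, Prod.snd_sub, Prod.smul_fst, Prod.smul_snd, smul_eq_mul]
    linear_combination p.1 * ((a.1 * c.2 - a.2 * c.1) * k + 1) * h'
  · simp only [Prod.fst_sub, Prod.snd_sub, Prod.smul_fst, Prod.smul_snd, smul_eq_mul]
    linear_combination p.2 * ((a.1 * c.2 - a.2 * c.1) * k + 1) * h'

theorem wdg_refl {a c : ℝ × ℝ} (h : wdg a c ≠ 0) (p r : ℝ × ℝ) :
    (wdg (refl a c p) (refl a c r)) ^ 2 = (wdg p r) ^ 2 := by
  obtain ⟨k, hk⟩ : ∃ k, k = (wdg a c)⁻¹ := ⟨_, rfl⟩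
  have h' : wdg a c * k = 1 := by rw [hk, mul_inv_cancel₀ h]
  have e : wdg (refl a c p) (refl a c r) = - wdg p r := by
    rw [refl_apply, refl_apply]
    simp only [div_eq_mul_inv]
    rw [← hk]
    unfold wdg at h' ⊢
    simp only [Prod.fst_sub, Prod.snd_sub, Prod.smul_fst, Prod.smul_snd, smul_eq_mul]
    linear_combination (-(p.1 * r.2 - p.2 * r.1)) * ((a.1 * c.2 - a.2 * c.1) * k + 1) * h'
  rw [e, neg_sq]

end Pool.Agent.Q156.PlaneForm
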