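import Pool.Agent.Q156.MassRefl
import Pool.Agent.Q156.PlaneForm
import Pool.Agent.Q156.MassDefs

/-!
Extremal bodies of the determinant inequality are ellipsoids.
-/

set_option autoImplicit false

open MeasureTheory Set Filter Topology Metric Module
open scoped RealInnerProductSpace ENNReal Nat

namespace Pool.Agent.Q156.MaxDet

open Pool.Agent.H318R3.St PlaneForm

variable {n : ℕ}

/-- A norm satisfying the parallelogram law is Euclidean. -/
theorem exists_euclid {V : Type} [AddCommGroup V] [Module ℝ V] [FiniteDimensional ℝ V]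
    {n : ℕ} (hfin : finrank ℝ V = n) (N : V → ℝ) (hadd : ∀ x y, N (x + y) ≤ N x + N y)
    (hsmul : ∀ (c : ℝ) x, N (c • x) = |c| * N x) (h0 : ∀ x, N x = 0 → x = 0)
    (hpar : ∀ x y, N (x + y) ^ 2 + N (x - y) ^ 2 = 2 * (N x ^ 2 + N y ^ 2)) :
    ∃ e : V ≃ₗ[ℝ] EuclideanSpace ℝ (Fin n), ∀ x, ‖e x‖ = N x := by
  have hN0 : N 0 = 0 := by
    have := hsmul 0 0
    rwa [abs_zero, zero_mul, zero_smul] at this
  have hneg : ∀ x, N (-x) = N x := by
    intro x
    have := hsmul (-1) x
    rwa [abs_neg, abs_one, one_mul, neg_one_smul] at this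
  let nrm : AddGroupNorm V :=
    { toFun := N, map_zero' := hN0, add_le' := hadd, neg' := hneg,
      eq_zero_of_map_eq_zero' := h0 }
  let : NormedAddCommGroup V := nrm.toNormedAddCommGroup
  have hnorm : ∀ x : V, ‖x‖ = N x := fun _ => rfl
  let : NormedSpace ℝ V := ⟨fun c x => by rw [hnorm, hnorm, hsmul, Real.norm_eq_abs]⟩
  let : InnerProductSpace ℝ V := InnerProductSpace.ofNorm ℝ (fun x y => by
    rw [hnorm, hnorm, hnorm, hnorm]
    have := hpar x y
    nlinarith [this])
  obtain ⟨b, hb⟩ : ∃ b, b = (stdOrthonormalBasis ℝ V).reindex (finCongr hfin) := ⟨_, rfl⟩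
  refine ⟨b.repr.toLinearEquiv, fun x => ?_⟩
  rw [← hnorm]
  exact b.repr.norm_map x

theorem Ext.nhds {m : ℝ} {M : Set (En n)} (h : Ext m M) : M ∈ 𝓝 (0 : En n) :=
  mem_interior_iff_mem_nhds.mp h.zero_int

theorem Ext.absorbent {m : ℝ} {M : Set (En n)} (h : Ext m M) : Absorbent ℝ M :=
  absorbent_nhds_zero h.nhds

theorem Ext.gauge_smul {m : ℝ} {M : Set (En n)} (h : Ext m M) (c : ℝ) (x : En n) :
    gauge M (c • x) = |c| * gauge M x := by
  have hneg : ∀ x, gauge M (-x) = gauge M x := gauge_neg h.symm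
  rcases le_total 0 c with hc | hc
  · rw [gauge_smul_of_nonneg hc, abs_of_nonneg hc, smul_eq_mul]
  · have e : c • x = -((-c) • x) := by module
    rw [e, hneg, gauge_smul_of_nonneg (by linarith : 0 ≤ -c), abs_of_nonpos hc, smul_eq_mul]

theorem Ext.mem_iff {m : ℝ} {M : Set (En n)} (h : Ext m M) (x : En n) :
    x ∈ M ↔ gauge M x ≤ 1 := by
  rw [gauge_le_one_iff_mem_closure h.conv h.nhds, h.comp.isClosed.closure_eq]

theorem Ext.mem_int_iff {m : ℝ} {M : Set (En n)} (h : Ext m M) (x : En n) :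
    x ∈ interior M ↔ gauge M x < 1 :=
  (gauge_lt_one_iff_mem_interior h.conv h.nhds).symm

theorem Ext.gauge_eq_zero {m : ℝ} {M : Set (En n)} (h : Ext m M) (x : En n) :
    gauge M x = 0 ↔ x = 0 :=
  _root_.gauge_eq_zero h.absorbent (NormedSpace.isVonNBounded_of_isBounded ℝ h.comp.isBounded)

/-- The gauge of an extremal body satisfies the parallelogram law. -/
theorem Ext.par_indep {m : ℝ} {M : Set (En n)} (h : Ext m M) (hn : 0 < n) {X Y : En n}
    (hXY : ∀ a b : ℝ, a • X + b • Y = 0 → a = 0 ∧ b = 0) :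
    gauge M (X + Y) ^ 2 + gauge M (X - Y) ^ 2 = 2 * (gauge M X ^ 2 + gauge M Y ^ 2) := by
  obtain ⟨N, hN⟩ : ∃ N : En n → ℝ, ∀ x, N x = gauge M x := ⟨_, fun _ => rfl⟩
  have hNs : ∀ (c : ℝ) x, N (c • x) = |c| * N x := by
    intro c x; rw [hN, hN]; exact h.gauge_smul c x
  have hNn : ∀ x, N (-x) = N x := by
    intro x
    have := hNs (-1) x
    rwa [abs_neg, abs_one, one_mul, neg_one_smul] at this
  have hNa : ∀ x y, N (x + y) ≤ N x + N y := by
    intro x y; rw [hN, hN, hN]; exact gauge_add_le h.conv h.absorbent x y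
  have hNpos : ∀ x, x ≠ 0 → 0 < N x := by
    intro x hx
    rw [hN]
    exact lt_of_le_of_ne (gauge_nonneg x) (fun h1 => hx ((h.gauge_eq_zero x).mp h1.symm))
  have hMem : ∀ x, x ∈ M ↔ N x ≤ 1 := by intro x; rw [hN]; exact h.mem_iff x
  have hInt : ∀ x, x ∈ interior M ↔ N x < 1 := by intro x; rw [hN]; exact h.mem_int_iff x
  -- the plane
  obtain ⟨L, hL⟩ : ∃ L : (ℝ × ℝ) →ₗ[ℝ] En n, ∀ p, L p = p.1 • X + p.2 • Y :=
    ⟨(LinearMap.fst ℝ ℝ ℝ).smulRight X + (LinearMap.snd ℝ ℝ ℝ).smulRight Y, fun _ => rfl⟩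
  have hLker : LinearMap.ker L = ⊥ := by
    rw [LinearMap.ker_eq_bot']
    intro p hp
    rw [hL] at hp
    obtain ⟨h1, h2⟩ := hXY _ _ hp
    exact Prod.ext h1 h2
  have hLcont : Continuous L := L.continuous_of_finiteDimensional
  obtain ⟨K, hK⟩ : ∃ K : Set (ℝ × ℝ), K = L ⁻¹' M := ⟨_, rfl⟩
  have hKc : IsCompact K := by
    obtain ⟨C, _, hC⟩ := L.exists_antilipschitzWith hLker
    rw [hK]
    exact Metric.isCompact_of_isClosed_isBounded (h.comp.isClosed.preimage hLcont)
      (hC.isBounded_preimage h.comp.isBounded)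
  have hK0 : (0 : ℝ × ℝ) ∈ interior K := by
    have h1 : IsOpen (L ⁻¹' interior M) := isOpen_interior.preimage hLcont
    have h2 : L ⁻¹' interior M ⊆ K := by rw [hK]; exact preimage_mono interior_subset
    apply interior_maximal h2 h1
    show L 0 ∈ interior M
    rw [map_zero]; exact h.zero_int
  have hqneg : ∀ w, qf K (-w) = qf K w := by
    intro w
    have := qf_smul K (-1) w
    rw [neg_one_smul] at this
    rw [this]; ring
  -- the local comparison
  have hloc : ∀ z w, N (L z) = 1 → N (L w) = 1 → N (L (z - w)) < 2 → qf K z = qf K w := by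
    intro z w hz hw hzw
    by_cases hwd : wdg z w = 0
    · -- parallel vectors
      have hz0 : z ≠ 0 := by
        intro h0
        have h1 : N (L z) = 0 := by
          rw [h0, map_zero]
          have := hNs 0 0
          rwa [abs_zero, zero_mul, zero_smul] at this
        rw [h1] at hz; norm_num at hz
      obtain ⟨c, hc⟩ : ∃ c : ℝ, w = c • z := by
        unfold wdg at hwd
        by_cases hz1 : z.1 = 0
        · have hz2 : z.2 ≠ 0 := fun h2 => hz0 (Prod.ext hz1 h2)
          refine ⟨w.2 / z.2, ?_⟩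
          ext
          · show w.1 = w.2 / z.2 * z.1
            rw [hz1, mul_zero]
            rw [hz1, zero_mul, zero_sub, neg_eq_zero] at hwd
            rcases mul_eq_zero.mp hwd with h3 | h3
            · exact absurd h3 hz2
            · exact h3
          · show w.2 = w.2 / z.2 * z.2
            rw [div_mul_cancel₀ _ hz2]
        · refine ⟨w.1 / z.1, ?_⟩
          ext
          · show w.1 = w.1 / z.1 * z.1
            rw [div_mul_cancel₀ _ hz1]
          · show w.2 = w.1 / z.1 * z.2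
            field_simp
            linarith
      have h1 : |c| = 1 := by
        rw [hc, map_smul, hNs, hz, mul_one] at hw
        exact hw
      rw [hc, qf_smul]
      have h2 : c ^ 2 = 1 := by rw [← sq_abs, h1, one_pow]
      rw [h2, one_mul]
    · obtain ⟨a, ha⟩ : ∃ a, a = (1 / 2 : ℝ) • (z - w) := ⟨_, rfl⟩
      obtain ⟨c, hc⟩ : ∃ c, c = z + w := ⟨_, rfl⟩
      have hac : wdg a c = wdg z w := by
        rw [ha, hc]; unfold wdg
        simp only [Prod.smul_fst, Prod.smul_snd, Prod.fst_sub, Prod.snd_sub, Prod.fst_add,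
          Prod.snd_add, smul_eq_mul]
        ring
      have hzc : wdg z c = wdg z w := by
        rw [hc]; unfold wdg
        simp only [Prod.fst_add, Prod.snd_add]
        ring
      have haz : wdg a z = 1 / 2 * wdg z w := by
        rw [ha]; unfold wdg
        simp only [Prod.smul_fst, Prod.smul_snd, Prod.fst_sub, Prod.snd_sub, smul_eq_mul]
        ring
      have hac0 : wdg a c ≠ 0 := by rw [hac]; exact hwd
      have hTz : PlaneForm.refl a c z = -w := by
        rw [refl_apply, hac, hzc, haz, div_self hwd, mul_div_cancel_right₀ _ hwd, ha, hc]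
        module
      have hLw : N (-L w) = 1 := by rw [hNn]; exact hw
      have hswap := h.swap hn (x := L z) (y := -L w) ((hMem _).mpr hz.le)
        (fun h1 => by have := (hInt _).mp h1; linarith) ((hMem _).mpr hLw.le)
        (fun h1 => by have := (hInt _).mp h1; linarith) (by
          rw [hInt, hNs, ← sub_eq_add_neg, ← map_sub, abs_of_pos (by norm_num : (0 : ℝ) < 1 / 2)]
          linarith)
      have hTK : ∀ p ∈ K, PlaneForm.refl a c p ∈ K := by
        intro p hp
        rw [hK] at hp ⊢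
        have hp' : L p ∈ M := hp
        show L (PlaneForm.refl a c p) ∈ M
        obtain ⟨s, hs⟩ : ∃ s, s = wdg p c / wdg a c := ⟨_, rfl⟩
        obtain ⟨t, ht⟩ : ∃ t, t = wdg a p / wdg a c := ⟨_, rfl⟩
        have hd := decomp hac0 p
        rw [← hs, ← ht] at hd
        rw [refl_apply, ← hs, ← ht]
        have e1 : L p = (s / 2 + t) • L z + (s / 2 - t) • -L w := by
          rw [hd, ha, hc]
          simp only [map_add, map_sub, map_smul]
          module
        rw [e1] at hp'
        have h2 := hswap _ _ hp'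
        have e2 : L (s • a - t • c) = (s / 2 - t) • L z + (s / 2 + t) • -L w := by
          rw [ha, hc]
          simp only [map_add, map_sub, map_smul]
          module
        rw [e2]; exact h2
      have hinv := qf_inv (PlaneForm.refl a c) (refl_refl hac0) hTK (wdg_refl hac0) z
      rw [hTz, hqneg] at hinv
      exact hinv.symm
  have hglob : ∀ z w, N (L z) = 1 → N (L w) = 1 → qf K z = qf K w := by
    intro z w hz hw
    by_cases h1 : N (L (z - w)) < 2
    · exact hloc z w hz hw h1
    by_cases h2 : N (L (z + w)) < 2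
    · have h3 := hloc z (-w) hz (by rw [map_neg, hNn]; exact hw) (by rw [sub_neg_eq_add]; exact h2)
      rw [h3, hqneg]
    push Not at h1 h2
    have h1' : N (L (z - w)) = 2 := by
      refine le_antisymm ?_ h1
      have := hNa (L z) (-L w)
      rw [hNn, hz, hw, ← sub_eq_add_neg, ← map_sub] at this
      linarith
    have h2' : N (L (z + w)) = 2 := by
      refine le_antisymm ?_ h2
      have := hNa (L z) (L w)
      rw [hz, hw, ← map_add] at this
      linarith
    obtain ⟨v, hv⟩ : ∃ v, v = (1 / 2 : ℝ) • (z + w) := ⟨_, rfl⟩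
    have hv1 : N (L v) = 1 := by
      rw [hv, map_smul, hNs, h2', abs_of_pos (by norm_num : (0 : ℝ) < 1 / 2)]; norm_num
    have e1 : z - v = (1 / 2 : ℝ) • (z - w) := by rw [hv]; module
    have e2 : v - w = (1 / 2 : ℝ) • (z - w) := by rw [hv]; module
    have h3 : N (L ((1 / 2 : ℝ) • (z - w))) < 2 := by
      rw [map_smul, hNs, h1', abs_of_pos (by norm_num : (0 : ℝ) < 1 / 2)]; norm_num
    rw [hloc z v hz hv1 (by rw [e1]; exact h3), hloc v w hv1 hw (by rw [e2]; exact h3)]
  have hLne : ∀ z, z ≠ 0 → L z ≠ 0 := by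
    intro z hz h0
    exact hz (LinearMap.ker_eq_bot'.mp hLker z h0)
  -- the form is proportional to the square of the gauge
  obtain ⟨z0, hz0⟩ : ∃ z0 : ℝ × ℝ, z0 = (1, 0) := ⟨_, rfl⟩
  have hz0ne : z0 ≠ 0 := by
    intro h0
    rw [hz0] at h0
    have := congrArg Prod.fst h0
    simp at this
  have hr0 : 0 < N (L z0) := hNpos _ (hLne _ hz0ne)
  obtain ⟨lam, hlam⟩ : ∃ lam, lam = qf K ((N (L z0))⁻¹ • z0) := ⟨_, rfl⟩
  have hlampos : 0 < lam := by
    rw [hlam]
    exact qf_pos hKc hK0 (smul_ne_zero (inv_ne_zero hr0.ne') hz0ne)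
  have hunit : ∀ z, z ≠ 0 → N (L ((N (L z))⁻¹ • z)) = 1 := by
    intro z hz
    have h1 := hNpos _ (hLne z hz)
    rw [map_smul, hNs, abs_of_pos (inv_pos.mpr h1), inv_mul_cancel₀ h1.ne']
  have hq : ∀ z, qf K z = lam * N (L z) ^ 2 := by
    intro z
    rcases eq_or_ne z 0 with rfl | hz
    · have h1 := qf_smul K 0 0
      rw [zero_smul] at h1
      have h2 := hNs 0 0
      rw [abs_zero, zero_mul, zero_smul] at h2
      rw [h1, map_zero, h2]; ring
    · have h1 := hNpos _ (hLne z hz)
      have h2 := hglob _ _ (hunit z hz) (hunit z0 hz0ne)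
      rw [← hlam] at h2
      have h3 := qf_smul K (N (L z)) ((N (L z))⁻¹ • z)
      rw [smul_smul, mul_inv_cancel₀ h1.ne', one_smul] at h3
      rw [h3, h2]; ring
  have hpar := qf_par hKc ((1, 0) : ℝ × ℝ) (0, 1)
  rw [hq, hq, hq, hq, map_add, map_sub, hL, hL] at hpar
  simp only [one_smul, zero_smul, add_zero, zero_add] at hpar
  simp only [← hN]
  have h1 : lam * (N (X + Y) ^ 2 + N (X - Y) ^ 2) = lam * (2 * (N X ^ 2 + N Y ^ 2)) := by
    linarith
  exact mul_left_cancel₀ hlampos.ne' h1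

theorem Ext.par {m : ℝ} {M : Set (En n)} (h : Ext m M) (hn : 0 < n) (X Y : En n) :
    gauge M (X + Y) ^ 2 + gauge M (X - Y) ^ 2 = 2 * (gauge M X ^ 2 + gauge M Y ^ 2) := by
  by_cases hXY : ∀ a b : ℝ, a • X + b • Y = 0 → a = 0 ∧ b = 0
  · exact h.par_indep hn hXY
  push Not at hXY
  obtain ⟨a, b, hab, hne⟩ := hXY
  have key : ∀ (Z : En n) (p q : ℝ), gauge M (p • Z + q • Z) ^ 2 + gauge M (p • Z - q • Z) ^ 2 =
      2 * (gauge M (p • Z) ^ 2 + gauge M (q • Z) ^ 2) := by
    intro Z p q
    rw [← add_smul, ← sub_smul, h.gauge_smul, h.gauge_smul, h.gauge_smul, h.gauge_smul, mul_pow,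
      mul_pow, mul_pow, mul_pow, sq_abs, sq_abs, sq_abs, sq_abs]
    ring
  by_cases ha : a = 0
  · have hb : b ≠ 0 := hne ha
    have hY : Y = (0 : ℝ) • X := by
      rw [ha, zero_smul, zero_add] at hab
      rw [zero_smul]
      exact (smul_eq_zero.mp hab).resolve_left hb
    have := key X 1 0
    rw [one_smul, ← hY] at this
    exact this
  · have hX : X = (-(b / a)) • Y := by
      have h1 : a • X = (-b) • Y := by
        rw [neg_smul]; exact eq_neg_of_add_eq_zero_left hab
      have h2 : X = a⁻¹ • (a • X) := by rw [smul_smul, inv_mul_cancel₀ ha, one_smul]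
      rw [h2, h1, smul_smul]
      congr 1
      field_simp
    have := key Y (-(b / a)) 1
    rw [one_smul, ← hX] at this
    exact this

/-- Extremal bodies are ellipsoids. -/
theorem Ext.ellipsoid {m : ℝ} {M : Set (En n)} (h : Ext m M) (hn : 0 < n) :
    ∃ T : En n ≃ₗ[ℝ] En n, M = T '' closedBall (0 : En n) 1 := by
  obtain ⟨e, he⟩ := exists_euclid (V := En n) (n := n) (by simp) (gauge M)
    (fun x y => gauge_add_le h.conv h.absorbent x y) h.gauge_smul
    (fun x hx => (h.gauge_eq_zero x).mp hx) (h.par hn)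
  refine ⟨e.symm, ?_⟩
  ext x
  rw [h.mem_iff, ← he]
  constructor
  · intro hx
    exact ⟨e x, by rw [mem_closedBall_zero_iff]; exact hx, e.symm_apply_apply x⟩
  · rintro ⟨z, hz, rfl⟩
    rw [e.apply_symm_apply]
    rwa [mem_closedBall_zero_iff] at hz

end Pool.Agent.Q156.MaxDet
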