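import Pool.Agent.Q156.MaxDet

/-!
Extremal bodies of the determinant inequality: every boundary point belongs to a maximal frame.
-/

set_option autoImplicit false

open MeasureTheory Set Filter Topology Metric Module
open scoped RealInnerProductSpace ENNReal

namespace Pool.Agent.Q156.MaxDet

open Pool.Agent.H318R3.St

variable {n : ℕ}

/-- Extremal bodies. -/
structure Ext (m : ℝ) (M : Set (En n)) : Prop where
  comp : IsCompact M
  conv : Convex ℝ M
  int : (interior M).Nonempty
  symm : ∀ x ∈ M, -x ∈ M
  det : ∀ v : Fin n → En n, (∀ i, v i ∈ M) → adet v ≤ m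
  vol : volume M = ENNReal.ofReal m * volume (ball (0 : En n) 1)

theorem zero_mem_interior {M : Set (En n)} (hc : Convex ℝ M) (hint : (interior M).Nonempty)
    (hs : ∀ x ∈ M, -x ∈ M) : (0 : En n) ∈ interior M := by
  obtain ⟨p, hp⟩ := hint
  have hp' : -p ∈ interior M := by
    have h1 : (fun x : En n => -x) '' interior M ⊆ M := by
      rintro _ ⟨x, hx, rfl⟩
      exact hs x (interior_subset hx)
    have h2 : IsOpen ((fun x : En n => -x) '' interior M) :=
      (Homeomorph.neg (En n)).isOpenMap _ isOpen_interior
    exact interior_maximal h1 h2 ⟨p, hp, rfl⟩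
  have := hc.interior hp hp' (by norm_num : (0 : ℝ) ≤ 1 / 2) (by norm_num : (0 : ℝ) ≤ 1 / 2)
    (by norm_num)
  simpa using this

theorem Ext.zero_int {m : ℝ} {M : Set (En n)} (h : Ext m M) : (0 : En n) ∈ interior M :=
  zero_mem_interior h.conv h.int h.symm

theorem Ext.ne {m : ℝ} {M : Set (En n)} (h : Ext m M) : M.Nonempty :=
  ⟨0, interior_subset h.zero_int⟩

theorem Ext.vol_pos {m : ℝ} {M : Set (En n)} (h : Ext m M) : 0 < volume M :=
  lt_of_lt_of_le (isOpen_interior.measure_pos volume h.int) (measure_mono interior_subset)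

theorem Ext.m_pos {m : ℝ} {M : Set (En n)} (h : Ext m M) : 0 < m := by
  have h1 := h.vol_pos
  rw [h.vol] at h1
  by_contra hm
  rw [ENNReal.ofReal_of_nonpos (not_lt.mp hm), zero_mul] at h1
  exact lt_irrefl _ h1

theorem Ext.sym {m : ℝ} {M : Set (En n)} (h : Ext m M) {u : En n} (hu : ‖u‖ = 1) :
    Ext m (sym u M) where
  comp := sym_isCompact hu h.comp h.conv
  conv := sym_convex hu h.comp h.conv
  int := interior_nonempty_of_vol (sym_convex hu h.comp h.conv)
    (sym_isCompact hu h.comp h.conv).isClosed (by
      rw [sym_volume hu h.comp h.conv]; exact h.vol_pos.ne')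
  symm := by
    intro x hx
    rw [sym_eq_image hu h.comp h.conv] at hx ⊢
    obtain ⟨⟨p, q⟩, ⟨hp, hq, hpq⟩, h2⟩ := hx
    refine ⟨(-p, -q), ⟨h.symm p hp, h.symm q hq, ?_⟩, ?_⟩
    · simp only at hpq ⊢
      have e : -p - -q = -(p - q) := by abel
      rw [e, inner_neg_left, neg_smul, ← hpq]
    · simp only at h2 ⊢
      rw [← h2, map_neg]; module
  det := adet_sym hu h.comp h.conv m h.det
  vol := by rw [sym_volume hu h.comp h.conv]; exact h.vol

/-- The determinant is convex in each variable, so bounds pass to the convex hull. -/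
theorem adet_hull {S : Set (En n)} {m : ℝ} (h : ∀ v : Fin n → En n, (∀ i, v i ∈ S) → adet v ≤ m)
    (v : Fin n → En n) (hv : ∀ i, v i ∈ convexHull ℝ S) : adet v ≤ m := by
  classical
  -- replace the coordinates one after the other
  have key : ∀ (J : Finset (Fin n)) (v : Fin n → En n), (∀ i ∈ J, v i ∈ convexHull ℝ S) →
      (∀ i ∉ J, v i ∈ S) → adet v ≤ m := by
    intro J
    induction J using Finset.induction_on with
    | empty => intro v _ hv2; exact h v (fun i => hv2 i (Finset.notMem_empty i))
    | insert j J hj ih =>
      intro v hv1 hv2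
      obtain ⟨D, hD⟩ : ∃ D : En n [⋀^Fin n]→ₗ[ℝ] ℝ,
        D = (EuclideanSpace.basisFun (Fin n) ℝ).toBasis.det := ⟨_, rfl⟩
      have hconv : Convex ℝ {z : En n | |D (Function.update v j z)| ≤ m} := by
        intro a ha b hb s t hs ht hst
        simp only [mem_ofPred_eq] at ha hb ⊢
        rw [D.map_update_add, D.map_update_smul, D.map_update_smul]
        refine (abs_add_le _ _).trans ?_
        rw [smul_eq_mul, smul_eq_mul, abs_mul, abs_mul, abs_of_nonneg hs, abs_of_nonneg ht]
        calc s * |D (Function.update v j a)| + t * |D (Function.update v j b)| ≤ s * m + t * m := by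
              gcongr
          _ = m := by rw [← add_mul, hst, one_mul]
      have hS : S ⊆ {z : En n | |D (Function.update v j z)| ≤ m} := by
        intro z hz
        have := ih (Function.update v j z) (by
          intro i hi
          rcases eq_or_ne i j with rfl | hij
          · exact absurd hi hj
          · rw [Function.update_of_ne hij]
            exact hv1 i (Finset.mem_insert_of_mem hi)) (by
          intro i hi
          rcases eq_or_ne i j with rfl | hij
          · rw [Function.update_self]; exact hz
          · rw [Function.update_of_ne hij]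
            exact hv2 i (by
              rw [Finset.mem_insert]
              push Not
              exact ⟨hij, hi⟩))
        unfold adet at this
        rw [← hD] at this
        exact this
      have h1 := convexHull_min hS hconv (hv1 j (Finset.mem_insert_self j J))
      simp only [mem_ofPred_eq] at h1
      rw [Function.update_eq_self] at h1
      unfold adet
      rw [← hD]
      exact h1
  exact key Finset.univ v (fun i _ => hv i) (fun i hi => absurd (Finset.mem_univ i) hi)

/-- Every boundary point of an extremal body belongs to a maximal frame. -/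
theorem Ext.frame {m : ℝ} {M : Set (En n)} (h : Ext m M) (hn : 0 < n) {x : En n} (hx : x ∈ M)
    (hxi : x ∉ interior M) :
    ∃ (v : Fin n → En n) (i0 : Fin n), (∀ i, v i ∈ M) ∧ v i0 = x ∧ adet v = m := by
  classical
  obtain ⟨F, hF⟩ : ∃ F : Set (Fin n → En n),
      F = {v | (∀ i, v i ∈ M)} ∩ {v | ∃ i, v i = x} := ⟨_, rfl⟩
  have hFc : IsCompact F := by
    rw [hF]
    apply IsCompact.inter_right
    · have : {v : Fin n → En n | ∀ i, v i ∈ M} = Set.pi Set.univ fun _ => M := by
        ext v; simp
      rw [this]
      exact isCompact_univ_pi fun _ => h.comp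
    · have : {v : Fin n → En n | ∃ i, v i = x} = ⋃ i, {v : Fin n → En n | v i = x} := by
        ext v; simp
      rw [this]
      exact isClosed_iUnion_of_finite fun i => isClosed_eq (continuous_apply i) continuous_const
  have hFne : F.Nonempty := by
    refine ⟨fun _ => x, ?_⟩
    rw [hF]
    exact ⟨fun _ => hx, ⟨0, hn⟩, rfl⟩
  obtain ⟨v, hv, hmax⟩ := hFc.exists_isMaxOn hFne continuous_adet.continuousOn
  have hv' := hv
  rw [hF] at hv'
  obtain ⟨hvM, i0, hi0⟩ := hv'
  refine ⟨v, i0, hvM, hi0, ?_⟩
  by_contra hne
  have hlt : adet v < m := lt_of_le_of_ne (h.det v hvM) hne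
  -- enlarge the body
  obtain ⟨m', hm'⟩ : ∃ m', m' = adet v := ⟨_, rfl⟩
  rw [← hm'] at hlt
  have hm0 : 0 ≤ m' := by rw [hm']; exact abs_nonneg _
  obtain ⟨r, hr1, hr2⟩ : ∃ r : ℝ, 1 < r ∧ r * m' ≤ m := by
    rcases hm0.lt_or_eq with h0 | h0
    · refine ⟨m / m', ?_, ?_⟩
      · rw [one_lt_div h0]; exact hlt
      · rw [div_mul_cancel₀ _ h0.ne']
    · refine ⟨2, by norm_num, ?_⟩
      rw [← h0, mul_zero]; exact h.m_pos.le
  have hmaxF : ∀ w : Fin n → En n, (∀ i, w i ∈ M) → (∃ i, w i = x) → adet w ≤ m' := by
    intro w hw1 hw2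
    rw [hm']
    exact hmax (show w ∈ F by rw [hF]; exact ⟨hw1, hw2⟩)
  obtain ⟨S, hS⟩ : ∃ S : Set (En n), S = M ∪ {r • x, -(r • x)} := ⟨_, rfl⟩
  have hSdet : ∀ w : Fin n → En n, (∀ i, w i ∈ S) → adet w ≤ m := by
    intro w hw
    by_cases hall : ∀ i, w i ∈ M
    · exact h.det w hall
    push Not at hall
    obtain ⟨i, hi⟩ := hall
    have hform : ∀ j, w j ∉ M → ∃ σ : ℝ, |σ| = r ∧ w j = σ • x := by
      intro j hj
      have := hw j
      rw [hS] at this
      rcases this with h1 | h1 | h1
      · exact absurd h1 hj
      · exact ⟨r, abs_of_pos (by linarith), h1⟩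
      · exact ⟨-r, by rw [abs_neg]; exact abs_of_pos (by linarith), by rw [h1, neg_smul]⟩
    obtain ⟨σ, hσ, hwi⟩ := hform i hi
    obtain ⟨D, hD⟩ : ∃ D : En n [⋀^Fin n]→ₗ[ℝ] ℝ,
        D = (EuclideanSpace.basisFun (Fin n) ℝ).toBasis.det := ⟨_, rfl⟩
    have hval : adet w = r * |D (Function.update w i x)| := by
      unfold adet
      rw [← hD, ← hσ, ← abs_mul, ← smul_eq_mul (a := σ), ← D.map_update_smul, ← hwi,
        Function.update_eq_self]
    by_cases hrest : ∀ j, j ≠ i → w j ∈ M
    · have h1 : adet (Function.update w i x) ≤ m' := by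
        apply hmaxF
        · intro j
          rcases eq_or_ne j i with rfl | hji
          · rw [Function.update_self]; exact hx
          · rw [Function.update_of_ne hji]; exact hrest j hji
        · exact ⟨i, Function.update_self ..⟩
      unfold adet at h1
      rw [← hD] at h1
      rw [hval]
      calc r * |D (Function.update w i x)| ≤ r * m' := by gcongr
        _ ≤ m := hr2
    · push Not at hrest
      obtain ⟨j, hji, hj⟩ := hrest
      obtain ⟨τ, _, hwj⟩ := hform j hj
      have h0 : D (Function.update w i x) = 0 := by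
        have h1 : Function.update w i x = Function.update (Function.update w i x) j (τ • x) := by
          rw [← hwj]
          ext l : 1
          rcases eq_or_ne l j with rfl | hlj
          · rw [Function.update_self, Function.update_of_ne hji]
          · rw [Function.update_of_ne hlj]
        rw [h1, D.map_update_smul]
        have h2 : D (Function.update (Function.update w i x) j x) = 0 := by
          apply D.map_eq_zero_of_eq _ (i := i) (j := j) _ hji.symm
          rw [Function.update_self, Function.update_of_ne hji.symm, Function.update_self]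
        rw [h2, smul_zero]
      rw [hval, h0, abs_zero, mul_zero]
      exact h.m_pos.le
  obtain ⟨M', hM'⟩ : ∃ M' : Set (En n), M' = closure (convexHull ℝ S) := ⟨_, rfl⟩
  have hM'c : IsCompact M' := by
    rw [hM']
    apply Metric.isCompact_of_isClosed_isBounded isClosed_closure
    apply Bornology.IsBounded.closure
    rw [isBounded_convexHull, hS]
    exact h.comp.isBounded.union ((Set.toFinite _).isBounded)
  have hM'conv : Convex ℝ M' := by rw [hM']; exact (convex_convexHull ℝ S).closure
  have hMM' : M ⊆ M' := by
    rw [hM', hS]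
    exact (subset_union_left.trans (subset_convexHull ℝ _)).trans subset_closure
  have hvolle := volume_le hM'c hM'conv (h.ne.mono hMM') m (by
    rw [hM']
    intro w hw
    have h1 : w ∈ closure (Set.pi Set.univ fun _ : Fin n => convexHull ℝ S) := by
      rw [closure_pi_set]
      exact fun i _ => hw i
    have h2 : IsClosed {w : Fin n → En n | adet w ≤ m} :=
      isClosed_le continuous_adet continuous_const
    have h3 : (Set.pi Set.univ fun _ : Fin n => convexHull ℝ S) ⊆
        {w : Fin n → En n | adet w ≤ m} :=
      fun w hw => adet_hull hSdet w fun i => hw i (mem_univ i)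
    exact closure_minimal h3 h2 h1)
  rw [← h.vol] at hvolle
  have hsub : M' ⊆ M := by
    apply subset_of_ae hM'conv hM'c.isClosed h.comp.isClosed
    · exact (lt_of_lt_of_le h.vol_pos (measure_mono hMM')).ne'
    · have h1 : volume (M' \ M) = volume M' - volume M :=
        measure_sdiff hMM' h.comp.measurableSet.nullMeasurableSet h.comp.measure_lt_top.ne
      rw [h1]
      exact tsub_eq_zero_of_le hvolle
  have hrx : r • x ∈ M := by
    apply hsub
    rw [hM']
    apply subset_closure
    apply subset_convexHull
    rw [hS]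
    right; left; rfl
  apply hxi
  have h2 := h.conv.openSegment_interior_self_subset_interior h.zero_int hrx
  apply h2
  refine ⟨1 - 1 / r, 1 / r, ?_, by positivity, by ring, ?_⟩
  · rw [sub_pos, div_lt_one (by linarith)]; exact hr1
  · rw [smul_zero, zero_add, smul_smul, one_div, inv_mul_cancel₀ (by linarith), one_smul]

end Pool.Agent.Q156.MaxDet
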