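import Pool.Agent.Q156.MassSupport

/-!
Extremal bodies of the determinant inequality: planar reflections in every direction.
-/

set_option autoImplicit false

open MeasureTheory Set Filter Topology Metric Module
open scoped RealInnerProductSpace ENNReal

namespace Pool.Agent.Q156.MaxDet

open Pool.Agent.H318R3.St

variable {n : ℕ}

theorem Hit.between {M : Set (En n)} (hc : Convex ℝ M) {u y : En n} {s0 s1 s : ℝ}
    (h0 : Hit M u y s0) (h1 : Hit M u y s1) (hs0 : s0 ≤ s) (hs1 : s ≤ s1) : Hit M u y s := by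
  obtain ⟨t0, ht0⟩ := h0
  obtain ⟨t1, ht1⟩ := h1
  rcases (hs0.trans hs1).eq_or_lt with h | h
  · have : s = s0 := by linarith
    exact ⟨t0, by rw [this]; exact ht0⟩
  · have hd : 0 < s1 - s0 := by linarith
    refine ⟨(s1 - s) / (s1 - s0) * t0 + (s - s0) / (s1 - s0) * t1, ?_⟩
    have hm := hc.interior ht0 ht1 (a := (s1 - s) / (s1 - s0)) (b := (s - s0) / (s1 - s0))
      (div_nonneg (by linarith) hd.le) (div_nonneg (by linarith) hd.le) (by
        rw [← add_div, div_eq_one_iff_eq hd.ne']; ring)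
    have e : s • y + ((s1 - s) / (s1 - s0) * t0 + (s - s0) / (s1 - s0) * t1) • u =
        ((s1 - s) / (s1 - s0)) • (s0 • y + t0 • u) + ((s - s0) / (s1 - s0)) • (s1 • y + t1 • u) := by
      have e1 : s = (s1 - s) / (s1 - s0) * s0 + (s - s0) / (s1 - s0) * s1 := by
        field_simp; ring
      rw [smul_add, smul_add, smul_smul, smul_smul, smul_smul, smul_smul]
      nth_rewrite 1 [e1]
      module
    rw [e]; exact hm

theorem neg_interior {M : Set (En n)} (hs : ∀ x ∈ M, -x ∈ M) {x : En n} (hx : x ∈ interior M) :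
    -x ∈ interior M := by
  have h1 : (fun x : En n => -x) '' interior M ⊆ M := by
    rintro _ ⟨x, hx, rfl⟩
    exact hs x (interior_subset hx)
  have h2 : IsOpen ((fun x : En n => -x) '' interior M) :=
    (Homeomorph.neg (En n)).isOpenMap _ isOpen_interior
  exact interior_maximal h1 h2 ⟨x, hx, rfl⟩

theorem Hit.neg {M : Set (En n)} (hs : ∀ x ∈ M, -x ∈ M) {u y : En n} {s : ℝ}
    (h : Hit M u y s) : Hit M u y (-s) := by
  obtain ⟨t, ht⟩ := h
  refine ⟨-t, ?_⟩
  have := neg_interior hs ht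
  have e : (-s) • y + (-t) • u = -(s • y + t • u) := by module
  rw [e]; exact this

theorem Ext.refl_perp {m : ℝ} {M : Set (En n)} (h : Ext m M) (hn : 0 < n) {u : En n}
    (hu : ‖u‖ = 1) {y : En n} (hy : ⟪y, u⟫ = 0) :
    ∃ κ : ℝ, ∀ s t : ℝ, s • y + t • u ∈ M → s • y + (κ * s - t) • u ∈ M := by
  obtain ⟨F, hF⟩ : ∃ F : ℝ → ℝ, ∀ s, F s = bot M u y s + top M u y s := ⟨_, fun _ => rfl⟩
  have hmem : ∀ {s t : ℝ}, t ∈ chord u (s • y) M ↔ s • y + t • u ∈ M := Iff.rfl
  have hFneg : ∀ s, Hit M u y s → F (-s) = -F s := by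
    intro s hs
    obtain ⟨c1, l1⟩ := chord_eq h.comp h.conv hu y hs
    obtain ⟨c2, l2⟩ := chord_eq h.comp h.conv hu y (hs.neg h.symm)
    have hflip : ∀ s t : ℝ, s • y + t • u ∈ M → (-s) • y + (-t) • u ∈ M := by
      intro s t hst
      have e : (-s) • y + (-t) • u = -(s • y + t • u) := by module
      rw [e]; exact h.symm _ hst
    have m1 : bot M u y s ∈ chord u (s • y) M := by rw [c1]; exact ⟨le_rfl, l1.le⟩
    have m2 : top M u y s ∈ chord u (s • y) M := by rw [c1]; exact ⟨l1.le, le_rfl⟩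
    have m3 : bot M u y (-s) ∈ chord u ((-s) • y) M := by rw [c2]; exact ⟨le_rfl, l2.le⟩
    have m4 : top M u y (-s) ∈ chord u ((-s) • y) M := by rw [c2]; exact ⟨l2.le, le_rfl⟩
    have k1 : -bot M u y s ∈ chord u ((-s) • y) M := hmem.mpr (hflip _ _ (hmem.mp m1))
    have k2 : -top M u y s ∈ chord u ((-s) • y) M := hmem.mpr (hflip _ _ (hmem.mp m2))
    have k3 : -bot M u y (-s) ∈ chord u (s • y) M := by
      have := hflip _ _ (hmem.mp m3)
      rw [neg_neg] at this; exact hmem.mpr this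
    have k4 : -top M u y (-s) ∈ chord u (s • y) M := by
      have := hflip _ _ (hmem.mp m4)
      rw [neg_neg] at this; exact hmem.mpr this
    rw [c2] at k1 k2
    rw [c1] at k3 k4
    rw [hF, hF]
    linarith [k1.1, k1.2, k2.1, k2.2, k3.1, k3.2, k4.1, k4.2]
  have hratio : ∀ s0 s1, 0 < s0 → s0 ≤ s1 → Hit M u y s0 → Hit M u y s1 →
      F s1 * s0 = F s0 * s1 := by
    intro s0 s1 h0 h01 hI0 hI1
    rw [hF, hF]
    apply Partition.ratio_const h0 h01
    intro s hs0 hs1
    obtain ⟨α, β, μ, p1, p2, p3⟩ := h.support hn hu hy (hI0.between h.conv hI1 hs0 hs1)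
    exact ⟨α, β, μ, p1, p2, fun s' q0 q1 => p3 s' (hI0.between h.conv hI1 q0 q1)⟩
  obtain ⟨r, hr0, hr⟩ : ∃ r : ℝ, 0 < r ∧ Hit M u y r := by
    have hcont : Continuous (fun r : ℝ => r • y + (0 : ℝ) • u) := by fun_prop
    have hev : ∀ᶠ r in 𝓝 (0 : ℝ), r • y + (0 : ℝ) • u ∈ interior M := by
      apply hcont.continuousAt.eventually
      apply isOpen_interior.mem_nhds
      show (0 : ℝ) • y + (0 : ℝ) • u ∈ interior M
      rw [zero_smul, zero_smul, add_zero]; exact h.zero_int
    obtain ⟨r, hr1, hr2⟩ := ((hev.filter_mono nhdsWithin_le_nhds).and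
      (self_mem_nhdsWithin (s := Ioi (0 : ℝ)))).exists
    exact ⟨r, hr2, 0, hr1⟩
  have hlin : ∀ s, Hit M u y s → F s = F r / r * s := by
    have hpos : ∀ s, 0 < s → Hit M u y s → F s = F r / r * s := by
      intro s hs0 hs
      rw [div_mul_eq_mul_div, eq_div_iff hr0.ne']
      rcases le_total s r with h1 | h1
      · have := hratio s r hs0 h1 hs hr
        linarith
      · exact hratio r s hr0 h1 hr hs
    intro s hs
    rcases lt_trichotomy s 0 with h1 | h1 | h1
    · have h2 := hpos (-s) (by linarith) (hs.neg h.symm)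
      have h3 := hFneg s hs
      linarith
    · have h3 := hFneg s hs
      rw [h1, neg_zero] at h3
      rw [h1]; linarith
    · exact hpos s h1 hs
  refine ⟨F r / r, ?_⟩
  have hhit : ∀ s t : ℝ, s • y + t • u ∈ interior M →
      s • y + (F r / r * s - t) • u ∈ M := by
    intro s t hst
    have hI : Hit M u y s := ⟨t, hst⟩
    obtain ⟨c1, l1⟩ := chord_eq h.comp h.conv hu y hI
    have m1 : t ∈ chord u (s • y) M := hmem.mpr (interior_subset hst)
    apply hmem.mp
    rw [c1] at m1 ⊢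
    rw [← hlin s hI, hF]
    constructor <;> linarith [m1.1, m1.2]
  intro s t hst
  have hr : ∀ c : ℝ, c ∈ Ioo (0 : ℝ) 1 → c • (s • y + (F r / r * s - t) • u) ∈ M := by
    intro c hc
    have h1 : c • (s • y + t • u) ∈ interior M := by
      apply h.conv.openSegment_interior_self_subset_interior h.zero_int hst
      exact ⟨1 - c, c, by linarith [hc.2], hc.1, by ring, by rw [smul_zero, zero_add]⟩
    have h2 := hhit (c * s) (c * t) (by
      have e : (c * s) • y + (c * t) • u = c • (s • y + t • u) := by module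
      rw [e]; exact h1)
    have e : c • (s • y + (F r / r * s - t) • u) =
        (c * s) • y + (F r / r * (c * s) - c * t) • u := by module
    rw [e]; exact h2
  have hcont : Continuous (fun c : ℝ => c • (s • y + (F r / r * s - t) • u)) := by fun_prop
  have h1 : (1 : ℝ) ∈ closure (Ioo (0 : ℝ) 1) := by
    rw [closure_Ioo (by norm_num)]
    exact ⟨by norm_num, le_rfl⟩
  have h2 := closure_minimal (show Ioo (0 : ℝ) 1 ⊆
    (fun c : ℝ => c • (s • y + (F r / r * s - t) • u)) ⁻¹' M from hr)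
    (h.comp.isClosed.preimage hcont) h1
  have h3 : (1 : ℝ) • (s • y + (F r / r * s - t) • u) ∈ M := h2
  rwa [one_smul] at h3

theorem Ext.refl {m : ℝ} {M : Set (En n)} (h : Ext m M) (hn : 0 < n) {u : En n}
    (hu : u ≠ 0) (y : En n) :
    ∃ κ : ℝ, ∀ s t : ℝ, s • y + t • u ∈ M → s • y + (κ * s - t) • u ∈ M := by
  obtain ⟨r, hr⟩ : ∃ r, r = ‖u‖ := ⟨_, rfl⟩
  have hr0 : r ≠ 0 := by rw [hr]; exact norm_ne_zero_iff.mpr hu
  obtain ⟨u', hu'⟩ : ∃ u', u' = r⁻¹ • u := ⟨_, rfl⟩
  have hu1 : ‖u'‖ = 1 := by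
    rw [hu', norm_smul, norm_inv, hr, norm_norm, inv_mul_cancel₀ (norm_ne_zero_iff.mpr hu)]
  have huu : u = r • u' := by rw [hu', smul_smul, mul_inv_cancel₀ hr0, one_smul]
  obtain ⟨c, hc⟩ : ∃ c, c = ⟪y, u'⟫ := ⟨_, rfl⟩
  obtain ⟨y', hy'⟩ : ∃ y', y' = y - c • u' := ⟨_, rfl⟩
  have hperp : ⟪y', u'⟫ = 0 := by
    rw [hy', inner_sub_left, inner_smul_left, real_inner_self_eq_norm_sq, hu1, hc]
    simp
  obtain ⟨κ, hκ⟩ := h.refl_perp hn hu1 hperp
  refine ⟨(κ - 2 * c) / r, fun s t hst => ?_⟩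
  have h1 := hκ s (s * c + t * r) (by
    have e : s • y' + (s * c + t * r) • u' = s • y + t • u := by
      rw [hy', huu]; module
    rw [e]; exact hst)
  have e : s • y + ((κ - 2 * c) / r * s - t) • u = s • y' + (κ * s - (s * c + t * r)) • u' := by
    rw [hy', huu, smul_smul]
    have : ((κ - 2 * c) / r * s - t) * r = (κ - 2 * c) * s - t * r := by field_simp
    rw [this]; module
  rw [e]; exact h1

theorem mid_interior {M : Set (En n)} (hc : Convex ℝ M) {p w : En n} (hp : p ∈ interior M)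
    {c : ℝ} (hc2 : 1 / 2 < c) (h : p + c • w ∈ M) : p + (1 / 2 : ℝ) • w ∈ interior M := by
  have hd : 0 < c := by linarith
  apply hc.openSegment_interior_self_subset_interior hp h
  refine ⟨1 - 1 / (2 * c), 1 / (2 * c), ?_, by positivity, by ring, ?_⟩
  · rw [sub_pos, div_lt_one (by linarith)]; linarith
  · have e : 1 / (2 * c) * c = 1 / 2 := by field_simp
    rw [smul_add, smul_smul, e]; module

/-- Two boundary points whose midpoint is an interior point may be swapped. -/
theorem Ext.swap {m : ℝ} {M : Set (En n)} (h : Ext m M) (hn : 0 < n) {x y : En n}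
    (hx : x ∈ M) (hxi : x ∉ interior M) (hy : y ∈ M) (hyi : y ∉ interior M)
    (hp : (1 / 2 : ℝ) • (x + y) ∈ interior M) (a b : ℝ) (hab : a • x + b • y ∈ M) :
    b • x + a • y ∈ M := by
  obtain ⟨p, hpp⟩ : ∃ p, p = (1 / 2 : ℝ) • (x + y) := ⟨_, rfl⟩
  rw [← hpp] at hp
  have hxy : x - y ≠ 0 := by
    intro h0
    apply hxi
    have : x = y := sub_eq_zero.mp h0
    have e : x = p := by rw [hpp, ← this]; module
    rw [e]; exact hp
  obtain ⟨κ, hκ⟩ := h.refl hn hxy p
  have hx' : p + (1 / 2 : ℝ) • (x - y) = x := by rw [hpp]; module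
  have hy' : p + (-(1 / 2) : ℝ) • (x - y) = y := by rw [hpp]; module
  have hκ0 : κ = 0 := by
    by_contra hne
    rcases lt_or_gt_of_ne hne with hlt | hgt
    · have h1 := hκ 1 (1 / 2) (by rw [one_smul, hx']; exact hx)
      rw [one_smul, mul_one] at h1
      apply hyi
      have h2 := mid_interior h.conv hp (w := -(x - y)) (c := 1 / 2 - κ) (by linarith) (by
        have e : p + (1 / 2 - κ) • -(x - y) = p + (κ - 1 / 2) • (x - y) := by module
        rw [e]; exact h1)
      have e : p + (1 / 2 : ℝ) • -(x - y) = y := by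
        rw [smul_neg, ← neg_smul]; exact hy'
      rwa [e] at h2
    · have h1 := hκ 1 (-(1 / 2)) (by rw [one_smul, hy']; exact hy)
      rw [one_smul, mul_one] at h1
      apply hxi
      have h2 := mid_interior h.conv hp (w := x - y) (c := κ - -(1 / 2)) (by linarith) h1
      rwa [hx'] at h2
  have h1 := hκ (a + b) ((a - b) / 2) (by
    have e : (a + b) • p + ((a - b) / 2) • (x - y) = a • x + b • y := by rw [hpp]; module
    rw [e]; exact hab)
  have e : b • x + a • y = (a + b) • p + (κ * (a + b) - (a - b) / 2) • (x - y) := by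
    rw [hpp, hκ0]; module
  rw [e]; exact h1

end Pool.Agent.Q156.MaxDet
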