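import Mathlib

/-!
A one-variable lemma: if `B` has supporting lines `μ + s β` from above, `A` has supporting lines
`-μ + s α` from below (with the same `μ`), then `(A + B)(s) / s` is constant for `s > 0`.
-/

set_option autoImplicit false

namespace Pool.Agent.Q156.Partition

theorem ratio_step {s s' a a' b b' : ℝ} (hs : 0 < s) (hss : s < s')
    (h1 : s * (a' - a) ≤ s' * (b - b')) (h2 : s * (b - b') ≤ s' * (a' - a)) (ha : a ≤ a')
    (hb : b' ≤ b) : |(a' + b') - (a + b)| ≤ (s' - s) / s * ((a' - b') - (a - b)) := by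
  rw [div_mul_eq_mul_div, le_div_iff₀ hs]
  have e : |(a' + b') - (a + b)| * s = |((a' + b') - (a + b)) * s| := by
    rw [abs_mul, abs_of_pos hs]
  rw [e, abs_le]
  constructor
  · nlinarith [mul_nonneg (sub_nonneg.mpr hss.le) (sub_nonneg.mpr ha),
      mul_nonneg (sub_nonneg.mpr hss.le) (sub_nonneg.mpr hb)]
  · nlinarith [mul_nonneg (sub_nonneg.mpr hss.le) (sub_nonneg.mpr ha),
      mul_nonneg (sub_nonneg.mpr hss.le) (sub_nonneg.mpr hb)]

theorem const_of_steps {s0 s1 : ℝ} (hs0 : 0 < s0) (h01 : s0 ≤ s1) (h T : ℝ → ℝ)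
    (hstep : ∀ s s', s0 ≤ s → s < s' → s' ≤ s1 → |h s' - h s| ≤ (s' - s) / s0 * (T s' - T s)) :
    h s1 = h s0 := by
  rcases h01.eq_or_lt with rfl | h01
  · rfl
  by_contra hne
  have hpos : 0 < |h s1 - h s0| := abs_pos.mpr (sub_ne_zero.mpr hne)
  -- the bound with N steps
  have hN : ∀ N : ℕ, 0 < N → |h s1 - h s0| ≤ (s1 - s0) / N / s0 * (T s1 - T s0) := by
    intro N hN
    have hNpos : (0 : ℝ) < N := by exact_mod_cast hN
    obtain ⟨d, hd⟩ : ∃ d : ℝ, d = (s1 - s0) / N := ⟨_, rfl⟩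
    have hdpos : 0 < d := by rw [hd]; exact div_pos (by linarith) hNpos
    have hNd : s0 + N * d = s1 := by rw [hd]; field_simp; ring
    have hind : ∀ k : ℕ, k ≤ N →
        |h (s0 + k * d) - h s0| ≤ d / s0 * (T (s0 + k * d) - T s0) := by
      intro k
      induction k with
      | zero => intro _; simp
      | succ k ih =>
        intro hk
        have h1 := ih (by omega)
        have hkN : ((k + 1 : ℕ) : ℝ) ≤ N := by exact_mod_cast hk
        have hk0 : (0 : ℝ) ≤ k := Nat.cast_nonneg k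
        have h2 := hstep (s0 + k * d) (s0 + (k + 1 : ℕ) * d) (by nlinarith)
          (by push_cast; nlinarith) (by rw [← hNd]; nlinarith)
        have e : s0 + (k + 1 : ℕ) * d - (s0 + k * d) = d := by push_cast; ring
        rw [e] at h2
        have h3 : |h (s0 + (k + 1 : ℕ) * d) - h s0| ≤
            |h (s0 + (k + 1 : ℕ) * d) - h (s0 + k * d)| + |h (s0 + k * d) - h s0| := by
          have := abs_add_le (h (s0 + (k + 1 : ℕ) * d) - h (s0 + k * d)) (h (s0 + k * d) - h s0)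
          rwa [sub_add_sub_cancel] at this
        linarith
    have := hind N le_rfl
    rwa [hNd, hd] at this
  -- choose N large
  obtain ⟨C, hC⟩ : ∃ C, C = (s1 - s0) / s0 * (T s1 - T s0) := ⟨_, rfl⟩
  obtain ⟨N, hNC⟩ := exists_nat_gt (C / |h s1 - h s0|)
  have h1 := hN (N + 1) (by omega)
  have hN1 : (0 : ℝ) < ((N + 1 : ℕ) : ℝ) := by positivity
  have h2 : (s1 - s0) / ((N + 1 : ℕ) : ℝ) / s0 * (T s1 - T s0) = C / ((N + 1 : ℕ) : ℝ) := by
    rw [hC]; field_simp
  rw [h2, le_div_iff₀ hN1] at h1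
  rw [div_lt_iff₀ hpos] at hNC
  push_cast at h1
  nlinarith

/-- The main lemma. -/
theorem ratio_const {s0 s1 : ℝ} (hs0 : 0 < s0) (h01 : s0 ≤ s1) (A B : ℝ → ℝ)
    (hsup : ∀ s, s0 ≤ s → s ≤ s1 → ∃ α β μ : ℝ, B s = μ + s * β ∧ A s = -μ + s * α ∧
      ∀ s', s0 ≤ s' → s' ≤ s1 → B s' ≤ μ + s' * β ∧ -μ + s' * α ≤ A s') :
    (A s1 + B s1) * s0 = (A s0 + B s0) * s1 := by
  classical
  have hsup' : ∀ s, ∃ α β μ : ℝ, s0 ≤ s → s ≤ s1 → (B s = μ + s * β ∧ A s = -μ + s * α ∧
      ∀ s', s0 ≤ s' → s' ≤ s1 → B s' ≤ μ + s' * β ∧ -μ + s' * α ≤ A s') := by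
    intro s
    by_cases h : s0 ≤ s ∧ s ≤ s1
    · obtain ⟨α, β, μ, h1⟩ := hsup s h.1 h.2
      exact ⟨α, β, μ, fun _ _ => h1⟩
    · refine ⟨0, 0, 0, fun h1 h2 => absurd ⟨h1, h2⟩ h⟩
  choose α β μ hα using hsup'
  have hstep : ∀ s s', s0 ≤ s → s < s' → s' ≤ s1 →
      |(α s' + β s') - (α s + β s)| ≤
        (s' - s) / s0 * ((α s' - β s') - (α s - β s)) := by
    intro s s' h1 h2 h3
    have hs : 0 < s := by linarith
    obtain ⟨p1, p2, p3⟩ := hα s h1 (by linarith)
    obtain ⟨q1, q2, q3⟩ := hα s' (by linarith) h3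
    obtain ⟨p4, p5⟩ := p3 s' (by linarith) h3
    obtain ⟨q4, q5⟩ := q3 s h1 (by linarith)
    have hd : 0 < s' - s := by linarith
    -- monotonicity of the slopes
    have m1 : α s ≤ α s' := by
      by_contra hcon
      push Not at hcon
      nlinarith
    have m2 : β s' ≤ β s := by
      by_contra hcon
      push Not at hcon
      nlinarith
    have hr := ratio_step (a := α s) (a' := α s') (b := β s) (b' := β s') hs h2
      (by nlinarith) (by nlinarith) m1 m2
    refine hr.trans ?_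
    have h4 : (s' - s) / s ≤ (s' - s) / s0 := by
      apply div_le_div_of_nonneg_left hd.le hs0 h1
    apply mul_le_mul_of_nonneg_right h4
    linarith
  have h2 := const_of_steps hs0 h01 (fun s => α s + β s) (fun s => α s - β s) hstep
  obtain ⟨p1, p2, _⟩ := hα s0 le_rfl h01
  obtain ⟨q1, q2, _⟩ := hα s1 h01 le_rfl
  have e0 : A s0 + B s0 = s0 * (α s0 + β s0) := by rw [p1, p2]; ring
  have e1 : A s1 + B s1 = s1 * (α s1 + β s1) := by rw [q1, q2]; ring
  rw [e0, e1, h2]; ring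

end Pool.Agent.Q156.Partition
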