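import Pool.Agent.Q156.MassFrame
import Pool.Agent.Q156.Partition

/-!
Extremal bodies of the determinant inequality: supporting lines at the two ends of a chord, and
the midpoints of parallel chords.
-/

set_option autoImplicit false

open MeasureTheory Set Filter Topology Metric Module
open scoped RealInnerProductSpace ENNReal

namespace Pool.Agent.Q156.MaxDet

open Pool.Agent.H318R3.St

variable {n : ℕ}

theorem exists_cof {k : ℕ} (b : OrthonormalBasis (Fin (k + 1)) ℝ (En (k + 1)))
    (p : Fin (k + 1) → En (k + 1)) :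
    ∃ c : Fin (k + 1) → ℝ, ∀ w : Fin (k + 1) → En (k + 1),
      (∀ (j : Fin k) (i : Fin (k + 1)), ⟪b j.succ, w i⟫ = ⟪b j.succ, p i⟫) →
      b.toBasis.det w = ∑ i, c i * ⟪b 0, w i⟫ := by
  refine ⟨fun i => (-1) ^ (i : ℕ) *
      Matrix.det ((b.toBasis.toMatrix p).submatrix Fin.succ i.succAbove), ?_⟩
  intro w hw
  rw [Basis.det_apply, Matrix.det_succ_row_zero]
  apply Finset.sum_congr rfl
  intro i _
  have h1 : (b.toBasis.toMatrix w).submatrix Fin.succ i.succAbove =
      (b.toBasis.toMatrix p).submatrix Fin.succ i.succAbove := by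
    ext a d
    rw [Matrix.submatrix_apply, Matrix.submatrix_apply, toMatrix_inner, toMatrix_inner, hw]
  rw [h1, toMatrix_inner]
  ring

theorem exists_basis {k : ℕ} {u : En (k + 1)} (hu : ‖u‖ = 1) :
    ∃ b : OrthonormalBasis (Fin (k + 1)) ℝ (En (k + 1)), b 0 = u := by
  obtain ⟨b, hb⟩ := Orthonormal.exists_orthonormalBasis_extension_of_card_eq (𝕜 := ℝ)
    (E := En (k + 1)) (ι := Fin (k + 1)) (by simp) (v := fun _ => u) (s := {0}) (by
      constructor
      · intro i; simpa using hu
      · intro i j hij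
        exfalso
        apply hij
        have h1 := i.2
        have h2 := j.2
        rw [mem_singleton_iff] at h1 h2
        exact Subtype.ext (h1.trans h2.symm))
  exact ⟨b, hb 0 (mem_singleton 0)⟩

/-- The upper end of the chord. -/
noncomputable def top (M : Set (En n)) (u y : En n) (s : ℝ) : ℝ := sSup (chord u (s • y) M)

/-- The lower end of the chord. -/
noncomputable def bot (M : Set (En n)) (u y : En n) (s : ℝ) : ℝ := sInf (chord u (s • y) M)

/-- The line through `s y` in direction `u` meets the interior of `M`. -/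
def Hit (M : Set (En n)) (u y : En n) (s : ℝ) : Prop := ∃ t : ℝ, s • y + t • u ∈ interior M

theorem chord_eq {M : Set (En n)} (hM : IsCompact M) (hc : Convex ℝ M) {u : En n} (hu : ‖u‖ = 1)
    (y : En n) {s : ℝ} (hI : Hit M u y s) :
    chord u (s • y) M = Icc (bot M u y s) (top M u y s) ∧ bot M u y s < top M u y s := by
  obtain ⟨t, ht⟩ := hI
  have htc : t ∈ interior (chord u (s • y) M) := by
    have h1 : IsOpen ((fun r : ℝ => s • y + r • u) ⁻¹' interior M) :=
      isOpen_interior.preimage (by fun_prop)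
    have h2 : (fun r : ℝ => s • y + r • u) ⁻¹' interior M ⊆ chord u (s • y) M :=
      fun r hr => (interior_subset (show s • y + r • u ∈ interior M from hr) : s • y + r • u ∈ M)
    exact interior_maximal h2 h1 (show s • y + t • u ∈ interior M from ht)
  rcases chord_cases hu (s • y) hM hc with h | ⟨a, b, hab, h⟩
  · exfalso
    have h3 := interior_subset htc
    rw [h] at h3
    exact h3
  · rw [h, interior_Icc] at htc
    have hlt : a < b := htc.1.trans htc.2
    unfold bot top
    rw [h, csInf_Icc hab, csSup_Icc hab]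
    exact ⟨rfl, hlt⟩

/-- Supporting lines at the two ends of a chord of an extremal body. -/
theorem Ext.support {m : ℝ} {M : Set (En n)} (h : Ext m M) (hn : 0 < n) {u : En n}
    (hu : ‖u‖ = 1) {y : En n} (hy : ⟪y, u⟫ = 0) {s : ℝ} (hI : Hit M u y s) :
    ∃ α β μ : ℝ, top M u y s = μ + s * β ∧ bot M u y s = -μ + s * α ∧
      ∀ s', Hit M u y s' → top M u y s' ≤ μ + s' * β ∧ -μ + s' * α ≤ bot M u y s' := by
  classical
  rcases n with - | k
  · exact absurd hn (lt_irrefl 0)
  obtain ⟨b, hb0⟩ := exists_basis hu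
  obtain ⟨hch, hlt⟩ := chord_eq h.comp h.conv hu y hI
  obtain ⟨A, hA⟩ : ∃ A, A = bot M u y s := ⟨_, rfl⟩
  obtain ⟨B, hB⟩ : ∃ B, B = top M u y s := ⟨_, rfl⟩
  rw [← hA, ← hB] at hch hlt
  have hsy : ⟪s • y, u⟫ = 0 := by rw [inner_smul_left, hy, mul_zero]
  have hNs := chord_sym_Icc hu hsy hlt.le hch
  -- the boundary point of the symmetral
  obtain ⟨x, hx⟩ : ∃ x, x = s • y + ((B - A) / 2) • u := ⟨_, rfl⟩
  have hxN : x ∈ Pool.Agent.H318R3.St.sym u M := by
    have : (B - A) / 2 ∈ chord u (s • y) (Pool.Agent.H318R3.St.sym u M) := by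
      rw [hNs]; constructor <;> linarith
    rw [hx]; exact this
  have hxi : x ∉ interior (Pool.Agent.H318R3.St.sym u M) := by
    intro hcon
    have h1 : IsOpen ((fun r : ℝ => s • y + r • u) ⁻¹'
        interior (Pool.Agent.H318R3.St.sym u M)) := isOpen_interior.preimage (by fun_prop)
    have h2 : (fun r : ℝ => s • y + r • u) ⁻¹' interior (Pool.Agent.H318R3.St.sym u M) ⊆
        chord u (s • y) (Pool.Agent.H318R3.St.sym u M) := fun r hr =>
      (interior_subset (show s • y + r • u ∈ interior (Pool.Agent.H318R3.St.sym u M) from hr) :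
        s • y + r • u ∈ Pool.Agent.H318R3.St.sym u M)
    have h3 : (B - A) / 2 ∈ interior (chord u (s • y) (Pool.Agent.H318R3.St.sym u M)) :=
      interior_maximal h2 h1 (by
        show s • y + ((B - A) / 2) • u ∈ interior (Pool.Agent.H318R3.St.sym u M)
        rw [← hx]; exact hcon)
    rw [hNs, interior_Icc] at h3
    exact lt_irrefl _ h3.2
  obtain ⟨v, i0, hv, hvi0, hvm⟩ := (h.sym hu).frame hn hxN hxi
  -- decompose the frame
  have hdec : ∀ i, ∃ (z : En (k + 1)) (c t a' b' : ℝ), v i = z + t • u ∧ ⟪z, u⟫ = 0 ∧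
      chord u z M = Icc a' b' ∧ a' ≤ b' ∧ c = (a' + b') / 2 ∧ 2 * |t| ≤ b' - a' := by
    intro i
    obtain ⟨z, t, h1, h2, h3, h4⟩ := hv i
    rcases chord_cases hu z h.comp h.conv with h5 | ⟨a', b', h6, h7⟩
    · exfalso
      have : (chord u z M).Nonempty := h3
      rw [h5] at this
      simp at this
    · refine ⟨z, (a' + b') / 2, t, a', b', h1, h2, h7, h6, rfl, ?_⟩
      rwa [h7, Real.volume_Icc, ENNReal.toReal_ofReal (by linarith)] at h4
  choose z c t a' b' hvz hzu hcz hab' hc ht using hdec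
  have hplus : ∀ i, z i + (c i + t i) • u ∈ M := by
    intro i
    have h1 := abs_le.mp (show |t i| ≤ (b' i - a' i) / 2 by linarith [ht i])
    have : c i + t i ∈ chord u (z i) M := by
      rw [hcz, hc]; constructor <;> linarith [h1.1, h1.2]
    exact this
  have hminus : ∀ i, z i + (c i - t i) • u ∈ M := by
    intro i
    have h1 := abs_le.mp (show |t i| ≤ (b' i - a' i) / 2 by linarith [ht i])
    have : c i - t i ∈ chord u (z i) M := by
      rw [hcz, hc]; constructor <;> linarith [h1.1, h1.2]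
    exact this
  obtain ⟨hti0, hzi0⟩ : t i0 = (B - A) / 2 ∧ z i0 = s • y := by
    apply decomp_unique hu (hzu i0) hsy
    rw [← hvz, hvi0, hx]
  have hAB : a' i0 = A ∧ b' i0 = B := by
    have h1 := hcz i0
    rw [hzi0, hch] at h1
    exact ⟨((Icc_eq_Icc_iff hlt.le).mp h1).1.symm, ((Icc_eq_Icc_iff hlt.le).mp h1).2.symm⟩
  have hci0 : c i0 = (A + B) / 2 := by rw [hc, hAB.1, hAB.2]
  -- the determinant as an alternating map
  obtain ⟨D, hD⟩ : ∃ D : En (k + 1) [⋀^Fin (k + 1)]→ₗ[ℝ] ℝ, D = b.toBasis.det := ⟨_, rfl⟩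
  have hadet : ∀ w, adet w = |D w| := fun w => by rw [hD]; exact adet_eq b w
  obtain ⟨cof, hcof⟩ := exists_cof b z
  have hcof' : ∀ (r : Fin (k + 1) → ℝ), D (fun i => z i + r i • u) = ∑ i, cof i * r i := by
    intro r
    rw [hD, hcof]
    · apply Finset.sum_congr rfl
      intro i _
      have : ⟪b 0, z i + r i • u⟫ = r i := by
        rw [hb0, inner_add_right, real_inner_comm, hzu, inner_smul_right,
          real_inner_self_eq_norm_sq, hu]; ring
      rw [this]
    · intro j i
      rw [inner_add_right, inner_smul_right, ← hb0, b.orthonormal.2 (Fin.succ_ne_zero j)]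
      ring
  obtain ⟨wp, hwp⟩ : ∃ wp : Fin (k + 1) → En (k + 1), wp = fun i => z i + (c i + t i) • u :=
    ⟨_, rfl⟩
  obtain ⟨wm, hwm⟩ : ∃ wm : Fin (k + 1) → En (k + 1), wm = fun i => z i + (c i - t i) • u :=
    ⟨_, rfl⟩
  obtain ⟨δ, hδ⟩ : ∃ δ, δ = D v := ⟨_, rfl⟩
  have hvfun : v = fun i => z i + t i • u := by ext i : 1; exact hvz i
  have e1 : δ = ∑ i, cof i * t i := by rw [hδ, hvfun, hcof']
  have e2 : D wp = ∑ i, cof i * (c i + t i) := by rw [hwp, hcof']
  have e3 : D wm = ∑ i, cof i * (c i - t i) := by rw [hwm, hcof']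
  have hdabs : |δ| = m := by rw [hδ, ← hadet]; exact hvm
  have bp : |D wp| ≤ m := by rw [← hadet]; exact h.det wp (fun i => by rw [hwp]; exact hplus i)
  have bm : |D wm| ≤ m := by rw [← hadet]; exact h.det wm (fun i => by rw [hwm]; exact hminus i)
  have e4 : D wp - D wm = 2 * δ := by
    rw [e1, e2, e3, ← Finset.sum_sub_distrib, Finset.mul_sum]
    apply Finset.sum_congr rfl
    intro i _; ring
  have hmpos := h.m_pos
  have hpm : D wp = δ ∧ D wm = -δ := by
    obtain ⟨p1, p2⟩ := abs_le.mp bp
    obtain ⟨q1, q2⟩ := abs_le.mp bm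
    rcases (abs_eq hmpos.le).mp hdabs with h1 | h1
    · constructor <;> linarith
    · constructor <;> linarith
  -- linear functionals
  obtain ⟨fp, hfp⟩ : ∃ fp : En (k + 1) →ₗ[ℝ] ℝ, ∀ x, fp x = D (Function.update wp i0 x) :=
    ⟨D.toMultilinearMap.toLinearMap wp i0, fun _ => rfl⟩
  obtain ⟨fm, hfm⟩ : ∃ fm : En (k + 1) →ₗ[ℝ] ℝ, ∀ x, fm x = D (Function.update wm i0 x) :=
    ⟨D.toMultilinearMap.toLinearMap wm i0, fun _ => rfl⟩
  have hfpM : ∀ x ∈ M, |fp x| ≤ m := by
    intro x hx
    rw [hfp, ← hadet]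
    apply h.det
    intro i
    rcases eq_or_ne i i0 with rfl | hi
    · rw [Function.update_self]; exact hx
    · rw [Function.update_of_ne hi, hwp]; exact hplus i
  have hfmM : ∀ x ∈ M, |fm x| ≤ m := by
    intro x hx
    rw [hfm, ← hadet]
    apply h.det
    intro i
    rcases eq_or_ne i i0 with rfl | hi
    · rw [Function.update_self]; exact hx
    · rw [Function.update_of_ne hi, hwm]; exact hminus i
  have hwpi0 : wp i0 = s • y + B • u := by
    rw [hwp]
    simp only
    rw [hzi0, hci0, hti0]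
    congr 2; ring
  have hwmi0 : wm i0 = s • y + A • u := by
    rw [hwm]
    simp only
    rw [hzi0, hci0, hti0]
    congr 2; ring
  -- value on `u`
  have hshift : ∀ (w : Fin (k + 1) → En (k + 1)) (r : Fin (k + 1) → ℝ),
      w = (fun i => z i + r i • u) → D (Function.update w i0 u) = cof i0 := by
    intro w r hw
    have h1 : D (Function.update w i0 (w i0 + u)) = D w + D (Function.update w i0 u) := by
      rw [D.map_update_add, Function.update_eq_self]
    have h2 : Function.update w i0 (w i0 + u) =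
        fun i => z i + (Function.update r i0 (r i0 + 1) i) • u := by
      ext i : 1
      rcases eq_or_ne i i0 with rfl | hi
      · rw [Function.update_self, Function.update_self, hw]; module
      · rw [Function.update_of_ne hi, Function.update_of_ne hi, hw]
    rw [h2, hcof', hw, hcof'] at h1
    have h3 : ∑ i, cof i * Function.update r i0 (r i0 + 1) i = ∑ i, cof i * r i + cof i0 := by
      have h4 : ∀ i, cof i * Function.update r i0 (r i0 + 1) i =
          cof i * r i + if i = i0 then cof i0 else 0 := by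
        intro i
        rcases eq_or_ne i i0 with rfl | hi
        · rw [Function.update_self, if_pos rfl]; ring
        · rw [Function.update_of_ne hi, if_neg hi]; ring
      simp only [h4]
      rw [Finset.sum_add_distrib]
      simp
    rw [h3] at h1
    rw [hw]
    linarith
  have hfpu : fp u = cof i0 := by rw [hfp]; exact hshift wp _ hwp
  have hfmu : fm u = cof i0 := by rw [hfm]; exact hshift wm _ hwm
  have hfpv : s * fp y + B * cof i0 = δ := by
    have h1 : fp (s • y + B • u) = D wp := by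
      rw [hfp, ← hwpi0, Function.update_eq_self]
    rw [map_add, map_smul, map_smul, hfpu, hpm.1] at h1
    exact h1
  have hfmv : s * fm y + A * cof i0 = -δ := by
    have h1 : fm (s • y + A • u) = D wm := by
      rw [hfm, ← hwmi0, Function.update_eq_self]
    rw [map_add, map_smul, map_smul, hfmu, hpm.2] at h1
    exact h1
  -- the cofactor does not vanish
  have hcof0 : cof i0 ≠ 0 := by
    intro h0
    obtain ⟨t0, ht0⟩ := hI
    rw [h0, mul_zero, add_zero] at hfpv
    have hval : fp (s • y + t0 • u) = δ := by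
      rw [map_add, map_smul, map_smul, hfpu, h0]
      show s * fp y + t0 * 0 = δ
      rw [mul_zero, add_zero, hfpv]
    -- a slightly larger multiple is in M
    have hcont : Continuous (fun r : ℝ => r • (s • y + t0 • u)) := by fun_prop
    have hev : ∀ᶠ r in 𝓝 (1 : ℝ), r • (s • y + t0 • u) ∈ interior M := by
      apply hcont.continuousAt.eventually
      apply isOpen_interior.mem_nhds
      show (1 : ℝ) • (s • y + t0 • u) ∈ interior M
      rw [one_smul]; exact ht0
    obtain ⟨r, hr1, hr2⟩ := ((hev.filter_mono nhdsWithin_le_nhds).and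
      (self_mem_nhdsWithin (s := Ioi (1 : ℝ)))).exists
    have h2 := hfpM _ (interior_subset hr1)
    rw [map_smul, hval, smul_eq_mul, abs_mul, hdabs, abs_of_pos (by
      have : (1 : ℝ) < r := hr2
      linarith)] at h2
    have : (1 : ℝ) < r := hr2
    nlinarith
  obtain ⟨ε, hε, hεc⟩ : ∃ ε : ℝ, |ε| = 1 ∧ ε * cof i0 = |cof i0| := by
    rcases lt_or_gt_of_ne hcof0 with h1 | h1
    · exact ⟨-1, by norm_num, by rw [abs_of_neg h1]; ring⟩
    · exact ⟨1, by norm_num, by rw [abs_of_pos h1]; ring⟩
  have hcpos : 0 < |cof i0| := abs_pos.mpr hcof0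
  have hMp : ∀ (s' t' : ℝ), s' • y + t' • u ∈ M →
      ε * (s' * fp y + t' * cof i0) ≤ m ∧ -m ≤ ε * (s' * fp y + t' * cof i0) := by
    intro s' t' hm'
    have h1 := hfpM _ hm'
    rw [map_add, map_smul, map_smul, hfpu, smul_eq_mul, smul_eq_mul] at h1
    have h2 : |ε * (s' * fp y + t' * cof i0)| ≤ m := by rw [abs_mul, hε, one_mul]; exact h1
    exact ⟨(abs_le.mp h2).2, (abs_le.mp h2).1⟩
  have hMm : ∀ (s' t' : ℝ), s' • y + t' • u ∈ M →
      ε * (s' * fm y + t' * cof i0) ≤ m ∧ -m ≤ ε * (s' * fm y + t' * cof i0) := by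
    intro s' t' hm'
    have h1 := hfmM _ hm'
    rw [map_add, map_smul, map_smul, hfmu, smul_eq_mul, smul_eq_mul] at h1
    have h2 : |ε * (s' * fm y + t' * cof i0)| ≤ m := by rw [abs_mul, hε, one_mul]; exact h1
    exact ⟨(abs_le.mp h2).2, (abs_le.mp h2).1⟩
  have hεδ : ε * δ = m := by
    have h1 : |ε * δ| = m := by rw [abs_mul, hε, one_mul, hdabs]
    rcases (abs_eq hmpos.le).mp h1 with h2 | h2
    · exact h2
    · exfalso
      have hAm : s • y + A • u ∈ M := by
        have : A ∈ chord u (s • y) M := by rw [hch]; exact ⟨le_rfl, hlt.le⟩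
        exact this
      have h3 := (hMp s A hAm).2
      rw [← hfpv] at h2
      nlinarith [hεc]
  refine ⟨-(ε * fm y) / |cof i0|, -(ε * fp y) / |cof i0|, m / |cof i0|, ?_, ?_, ?_⟩
  · rw [← hB]
    have h1 : B * |cof i0| = m + s * -(ε * fp y) := by
      rw [← hεc, ← hεδ, ← hfpv]; ring
    field_simp
    linarith
  · rw [← hA]
    have h1 : A * |cof i0| = -m + s * -(ε * fm y) := by
      have h2 : -m = ε * (s * fm y + A * cof i0) := by rw [hfmv, ← hεδ]; ring
      rw [← hεc, h2]; ring
    field_simp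
    linarith
  · intro s' hI'
    obtain ⟨hch', hlt'⟩ := chord_eq h.comp h.conv hu y hI'
    obtain ⟨A', hA'⟩ : ∃ A', A' = bot M u y s' := ⟨_, rfl⟩
    obtain ⟨B', hB'⟩ : ∃ B', B' = top M u y s' := ⟨_, rfl⟩
    rw [← hA', ← hB'] at hch' hlt' ⊢
    constructor
    · have hBm : s' • y + B' • u ∈ M := by
        have : B' ∈ chord u (s' • y) M := by rw [hch']; exact ⟨hlt'.le, le_rfl⟩
        exact this
      have h1 := (hMp s' B' hBm).1
      have h2 : B' * |cof i0| ≤ m + s' * -(ε * fp y) := by
        rw [← hεc]; linarith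
      rw [← mul_div_assoc, ← add_div, le_div_iff₀ hcpos]
      exact h2
    · have hAm : s' • y + A' • u ∈ M := by
        have : A' ∈ chord u (s' • y) M := by rw [hch']; exact ⟨le_rfl, hlt'.le⟩
        exact this
      have h1 := (hMm s' A' hAm).2
      have h2 : -m + s' * -(ε * fm y) ≤ A' * |cof i0| := by
        rw [← hεc]; linarith
      rw [← mul_div_assoc, ← neg_div, ← add_div, div_le_iff₀ hcpos]
      exact h2

end Pool.Agent.Q156.MaxDet
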