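import Pool.Agent.H318R3.St.Haus

/-!
Among convex bodies of given volume the ball minimises the largest determinant of `n` of its
points.  (Steiner symmetrization.)
-/

set_option autoImplicit false

open MeasureTheory Set Filter Topology Metric Module
open scoped RealInnerProductSpace ENNReal

namespace Pool.Agent.Q156.MaxDet

open Pool.Agent.H318R3.St

/-- Euclidean space. -/
abbrev En (n : ℕ) : Type := EuclideanSpace ℝ (Fin n)

variable {n : ℕ}

/-- The absolute value of the determinant of `n` vectors. -/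
noncomputable def adet (v : Fin n → En n) : ℝ :=
  |(EuclideanSpace.basisFun (Fin n) ℝ).toBasis.det v|

theorem adet_eq (b : OrthonormalBasis (Fin n) ℝ (En n)) (v : Fin n → En n) :
    adet v = |b.toBasis.det v| := by
  have : Fact (finrank ℝ (En n) = n) := ⟨by simp⟩
  have o := (EuclideanSpace.basisFun (Fin n) ℝ).toBasis.orientation
  unfold adet
  rw [← o.volumeForm_robust', ← o.volumeForm_robust']

theorem adet_le (v : Fin n → En n) : adet v ≤ ∏ i, ‖v i‖ := by
  have : Fact (finrank ℝ (En n) = n) := ⟨by simp⟩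
  have o := (EuclideanSpace.basisFun (Fin n) ℝ).toBasis.orientation
  unfold adet
  rw [← o.volumeForm_robust']
  exact o.abs_volumeForm_apply_le v

theorem adet_basis (b : OrthonormalBasis (Fin n) ℝ (En n)) (r : ℝ) :
    adet (fun i => r • b i) = |r| ^ n := by
  rw [adet_eq b]
  have h : b.toBasis.det (fun i => r • b i) = r ^ n := by
    rw [AlternatingMap.map_smul_univ (b.toBasis.det) (fun _ => r) (fun i => b i)]
    have : b.toBasis.det (fun i => b i) = 1 := by
      have h1 := b.toBasis.det_self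
      rw [b.coe_toBasis] at h1
      exact h1
    rw [this]
    simp
  rw [h, abs_pow]

theorem continuous_adet : Continuous (adet (n := n)) := by
  unfold adet
  apply Continuous.abs
  have : (fun v : Fin n → En n => (EuclideanSpace.basisFun (Fin n) ℝ).toBasis.det v) =
      fun v => Matrix.det (fun i j => (v j) i) := by
    ext v
    rw [Basis.det_apply]
    congr 1
  change Continuous (fun v : Fin n → En n => (EuclideanSpace.basisFun (Fin n) ℝ).toBasis.det v)
  rw [this]
  apply Continuous.matrix_det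
  apply continuous_matrix
  intro i j
  exact ((EuclideanSpace.proj (𝕜 := ℝ) i).continuous).comp (continuous_apply j)

/-- The entries of the matrix of a family in an orthonormal basis. -/
theorem toMatrix_inner (b : OrthonormalBasis (Fin n) ℝ (En n)) (v : Fin n → En n) (i j : Fin n) :
    b.toBasis.toMatrix v i j = ⟪b i, v j⟫ := by
  rw [Basis.toMatrix_apply, b.coe_toBasis_repr_apply, b.repr_apply_apply]

/-- Symmetrization does not increase the determinants. -/
theorem adet_sym {u : En n} (hu : ‖u‖ = 1) {K : Set (En n)} (hK : IsCompact K)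
    (hc : Convex ℝ K) (m : ℝ) (h : ∀ v : Fin n → En n, (∀ i, v i ∈ K) → adet v ≤ m)
    (v : Fin n → En n) (hv : ∀ i, v i ∈ sym u K) : adet v ≤ m := by
  rcases n with - | k
  · exact h v (fun i => i.elim0)
  -- an orthonormal basis starting with `u`
  obtain ⟨b, hb⟩ := Orthonormal.exists_orthonormalBasis_extension_of_card_eq (𝕜 := ℝ)
    (E := En (k + 1)) (ι := Fin (k + 1)) (by simp) (v := fun _ => u) (s := {0}) (by
      constructor
      · intro i; simpa using hu
      · intro i j hij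
        exfalso
        apply hij
        have h1 := i.2
        have h2 := j.2
        rw [mem_singleton_iff] at h1 h2
        exact Subtype.ext (h1.trans h2.symm))
  have hb0 : b 0 = u := hb 0 (mem_singleton 0)
  have hbj : ∀ j : Fin k, ⟪b j.succ, u⟫ = 0 := by
    intro j
    rw [← hb0]
    exact b.orthonormal.2 (Fin.succ_ne_zero j)
  have hex : ∀ i, ∃ p q : En (k + 1), p ∈ K ∧ q ∈ K ∧ p - q = ⟪p - q, u⟫ • u ∧
      v i = (1 / 2 : ℝ) • (p + refl u q) := by
    intro i
    have := hv i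
    rw [sym_eq_image hu hK hc] at this
    obtain ⟨⟨p, q⟩, ⟨hp, hq, hpq⟩, h2⟩ := this
    exact ⟨p, q, hp, hq, hpq, h2.symm⟩
  choose p q hp hq hpq hvpq using hex
  have hqj : ∀ (j : Fin k) (i : Fin (k + 1)), ⟪b j.succ, q i⟫ = ⟪b j.succ, p i⟫ := by
    intro j i
    have h1 : ⟪b j.succ, p i - q i⟫ = 0 := by
      rw [hpq i, inner_smul_right, hbj, mul_zero]
    rw [inner_sub_right] at h1
    linarith
  have hvj : ∀ (j : Fin k) (i : Fin (k + 1)), ⟪b j.succ, v i⟫ = ⟪b j.succ, p i⟫ := by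
    intro j i
    rw [hvpq, refl_apply hu, inner_smul_right, inner_add_right, inner_sub_right,
      inner_smul_right, hbj, hqj]
    ring
  have hv0 : ∀ i, ⟪b 0, v i⟫ = (⟪u, p i⟫ - ⟪u, q i⟫) / 2 := by
    intro i
    rw [hb0, hvpq, refl_apply hu, inner_smul_right, inner_add_right, inner_sub_right,
      inner_smul_right, real_inner_self_eq_norm_sq, hu, real_inner_comm u (q i)]
    ring
  -- expansion of the determinant
  obtain ⟨c, hcdef⟩ : ∃ c : Fin (k + 1) → ℝ, ∀ i, c i = (-1) ^ (i : ℕ) *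
      Matrix.det ((b.toBasis.toMatrix p).submatrix Fin.succ i.succAbove) := ⟨_, fun _ => rfl⟩
  have hexp : ∀ w : Fin (k + 1) → En (k + 1),
      (∀ (j : Fin k) (i : Fin (k + 1)), ⟪b j.succ, w i⟫ = ⟪b j.succ, p i⟫) →
      b.toBasis.det w = ∑ i, c i * ⟪b 0, w i⟫ := by
    intro w hw
    rw [Basis.det_apply, Matrix.det_succ_row_zero]
    apply Finset.sum_congr rfl
    intro i _
    have h1 : (b.toBasis.toMatrix w).submatrix Fin.succ i.succAbove =
        (b.toBasis.toMatrix p).submatrix Fin.succ i.succAbove := by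
      ext a d
      rw [Matrix.submatrix_apply, Matrix.submatrix_apply, toMatrix_inner, toMatrix_inner, hw]
    rw [h1, toMatrix_inner, hcdef]
    ring
  -- the two extreme families
  obtain ⟨w, hw⟩ : ∃ w : Fin (k + 1) → En (k + 1),
      ∀ i, w i = if 0 ≤ c i * (⟪u, p i⟫ - ⟪u, q i⟫) then p i else q i := ⟨_, fun _ => rfl⟩
  obtain ⟨w', hw'⟩ : ∃ w' : Fin (k + 1) → En (k + 1),
      ∀ i, w' i = if 0 ≤ c i * (⟪u, p i⟫ - ⟪u, q i⟫) then q i else p i := ⟨_, fun _ => rfl⟩
  have hwK : ∀ i, w i ∈ K := by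
    intro i; rw [hw]; split_ifs
    · exact hp i
    · exact hq i
  have hwK' : ∀ i, w' i ∈ K := by
    intro i; rw [hw']; split_ifs
    · exact hq i
    · exact hp i
  have e1 := hexp w (by
    intro j i; rw [hw]; split_ifs
    · rfl
    · exact hqj j i)
  have e2 := hexp w' (by
    intro j i; rw [hw']; split_ifs
    · exact hqj j i
    · rfl)
  have e3 := hexp v hvj
  have b1 := h w hwK
  have b2 := h w' hwK'
  rw [adet_eq b] at b1 b2
  rw [adet_eq b]
  have hdiff : b.toBasis.det w - b.toBasis.det w' =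
      ∑ i, |c i * (⟪u, p i⟫ - ⟪u, q i⟫)| := by
    rw [e1, e2, ← Finset.sum_sub_distrib]
    apply Finset.sum_congr rfl
    intro i _
    rw [hw, hw', hb0]
    split_ifs with hcase
    · rw [abs_of_nonneg hcase]; ring
    · push Not at hcase
      rw [abs_of_neg hcase]; ring
  have hvle : |b.toBasis.det v| ≤ (∑ i, |c i * (⟪u, p i⟫ - ⟪u, q i⟫)|) / 2 := by
    rw [e3]
    refine (Finset.abs_sum_le_sum_abs _ _).trans ?_
    rw [Finset.sum_div]
    apply Finset.sum_le_sum
    intro i _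
    rw [hv0, ← mul_div_assoc, abs_div, abs_of_pos (by norm_num : (0 : ℝ) < 2)]
  rw [← hdiff] at hvle
  have h1 := le_abs_self (b.toBasis.det w)
  have h2 := neg_abs_le (b.toBasis.det w')
  linarith

/-- Points of the symmetral on the circumscribed sphere. -/
theorem contact {u : En n} (hu : ‖u‖ = 1) {K : Set (En n)} (hK : IsCompact K)
    (hc : Convex ℝ K) {r : ℝ} (hr : K ⊆ closedBall 0 r) {x : En n} (hx : x ∈ sym u K)
    (hxr : ‖x‖ = r) : x ∈ K ∧ refl u x ∈ K := by
  rw [sym_eq_image hu hK hc] at hx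
  obtain ⟨⟨p, q⟩, ⟨hp, hq, _⟩, h2⟩ := hx
  simp only at h2 hp hq
  have hpn : ‖p‖ ≤ r := by simpa using hr hp
  have hqn : ‖refl u q‖ ≤ r := by
    rw [LinearIsometryEquiv.norm_map]
    simpa using hr hq
  have hpar := parallelogram_law_with_norm ℝ p (refl u q)
  have h3 : ‖p + refl u q‖ = 2 * r := by
    rw [← hxr, ← h2, norm_smul]
    norm_num
    ring
  have hr0 : 0 ≤ r := by rw [← hxr]; exact norm_nonneg _
  have h4 : ‖p - refl u q‖ ^ 2 ≤ 0 := by
    rw [h3] at hpar
    have h5 : ‖p‖ ^ 2 ≤ r ^ 2 := by gcongr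
    have h6 : ‖refl u q‖ ^ 2 ≤ r ^ 2 := by gcongr
    nlinarith
  have h5 : p = refl u q := by
    have : ‖p - refl u q‖ = 0 := by
      have := sq_nonneg ‖p - refl u q‖
      exact pow_eq_zero_iff (two_ne_zero) |>.mp (le_antisymm h4 this)
    exact sub_eq_zero.mp (norm_eq_zero.mp this)
  have h6 : x = p := by
    rw [← h2, ← h5]; module
  refine ⟨by rw [h6]; exact hp, ?_⟩
  rw [h6, h5, refl_refl]
  exact hq

/-- The class of bodies: compact convex nonempty, of volume at least `V`, with all determinants at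
most `m`. -/
structure Cls (V : ℝ≥0∞) (m : ℝ) (K : Set (En n)) : Prop where
  comp : IsCompact K
  conv : Convex ℝ K
  ne : K.Nonempty
  vol : V ≤ volume K
  det : ∀ v : Fin n → En n, (∀ i, v i ∈ K) → adet v ≤ m

theorem Cls.sym {V : ℝ≥0∞} {m : ℝ} {K : Set (En n)} (h : Cls V m K) {u : En n} (hu : ‖u‖ = 1) :
    Cls V m (sym u K) where
  comp := sym_isCompact hu h.comp h.conv
  conv := sym_convex hu h.comp h.conv
  ne := sym_nonempty hu h.comp h.conv h.ne
  vol := by rw [sym_volume hu h.comp h.conv]; exact h.vol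
  det := adet_sym hu h.comp h.conv m h.det

theorem many_sym {V : ℝ≥0∞} {m r : ℝ} (l : List (En n)) :
    ∀ K : Set (En n), Cls V m K → K ⊆ closedBall 0 r → (∀ u ∈ l, ‖u‖ = 1) →
      ∃ K' : Set (En n), Cls V m K' ∧ K' ⊆ closedBall 0 r ∧
        ∀ x ∈ K', ‖x‖ = r → x ∈ K ∧ ∀ u ∈ l, refl u x ∈ K := by
  induction l with
  | nil =>
    intro K hK hKr _
    exact ⟨K, hK, hKr, fun x hx _ => ⟨hx, fun u hu => absurd hu (List.not_mem_nil)⟩⟩
  | cons u l ih =>
    intro K hK hKr hl
    have hu : ‖u‖ = 1 := hl u (List.mem_cons_self)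
    obtain ⟨K', h1, h2, h3⟩ := ih (sym u K) (hK.sym hu) (sym_subset_ball hu hK.comp hK.conv hKr)
      (fun w hw => hl w (List.mem_cons_of_mem _ hw))
    refine ⟨K', h1, h2, fun x hx hxr => ?_⟩
    obtain ⟨h4, h5⟩ := h3 x hx hxr
    have h6 := contact hu hK.comp hK.conv hKr h4 hxr
    refine ⟨h6.1, fun w hw => ?_⟩
    rcases List.mem_cons.mp hw with rfl | hw
    · exact h6.2
    · exact (contact hu hK.comp hK.conv hKr (h5 w hw) (by
        rw [LinearIsometryEquiv.norm_map]; exact hxr)).1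

/-- If a body of the class misses a point of the sphere of radius `r`, then there is a body of the
class in a smaller ball. -/
theorem shrink {V : ℝ≥0∞} {m r : ℝ} {K : Set (En n)} (hK : Cls V m K)
    (hKr : K ⊆ closedBall 0 r) {p : En n} (hp : ‖p‖ = r) (hpK : p ∉ K) :
    ∃ (K' : Set (En n)) (s : ℝ), Cls V m K' ∧ 0 ≤ s ∧ s < r ∧ K' ⊆ closedBall 0 s := by
  obtain ⟨C, hC⟩ : ∃ C : Set (En n), C = K ∩ sphere 0 r := ⟨_, rfl⟩
  have hCc : IsCompact C := by
    rw [hC]; exact hK.comp.inter_right isClosed_sphere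
  -- the directions
  obtain ⟨d, hd⟩ : ∃ d : En n → En n, ∀ z, d z = ‖z - p‖⁻¹ • (z - p) := ⟨_, fun _ => rfl⟩
  have hdn : ∀ z ∈ C, ‖d z‖ = 1 := by
    intro z hz
    have hne : z - p ≠ 0 := by
      intro h
      rw [sub_eq_zero] at h
      rw [hC, h] at hz
      exact hpK hz.1
    rw [hd, norm_smul, norm_inv, norm_norm, inv_mul_cancel₀ (norm_pos_iff.mpr hne).ne']
  have hdr : ∀ z ∈ C, H318R3.St.refl (d z) z = p := by
    intro z hz
    have hne : z - p ≠ 0 := by
      intro h
      rw [sub_eq_zero] at h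
      rw [hC, h] at hz
      exact hpK hz.1
    have hzn : ‖z‖ = ‖p‖ := by
      rw [hp]
      rw [hC] at hz
      simpa using hz.2
    have hnpos : 0 < ‖z - p‖ := norm_pos_iff.mpr hne
    have h1 : 2 * ⟪z, z - p⟫ = ‖z - p‖ ^ 2 := by
      rw [@norm_sub_sq_real, inner_sub_right, real_inner_self_eq_norm_sq, hzn]; ring
    rw [refl_apply (hdn z hz), hd, inner_smul_right, smul_smul]
    have h2 : 2 * (‖z - p‖⁻¹ * ⟪z, z - p⟫) * ‖z - p‖⁻¹ = 1 := by
      have : 2 * (‖z - p‖⁻¹ * ⟪z, z - p⟫) * ‖z - p‖⁻¹ = (2 * ⟪z, z - p⟫) * ‖z - p‖⁻¹ ^ 2 := by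
        ring
      rw [this, h1, ← mul_pow, mul_inv_cancel₀ hnpos.ne', one_pow]
    rw [h2, one_smul, sub_sub_cancel]
  obtain ⟨t, ht1, ht2⟩ := hCc.elim_nhds_subcover (fun z => (H318R3.St.refl (d z)) ⁻¹' Kᶜ) (by
    intro z hz
    apply (hK.comp.isClosed.isOpen_compl.preimage (H318R3.St.refl (d z)).continuous).mem_nhds
    show H318R3.St.refl (d z) z ∈ Kᶜ
    rw [hdr z hz]
    exact hpK)
  obtain ⟨K', h1, h2, h3⟩ := many_sym (V := V) (m := m) (r := r) (t.toList.map d) K hK hKr (by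
    intro u hu
    rw [List.mem_map] at hu
    obtain ⟨z, hz, rfl⟩ := hu
    exact hdn z (ht1 z (by simpa using hz)))
  have h4 : ∀ x ∈ K', ‖x‖ ≠ r := by
    intro x hx hxr
    obtain ⟨h5, h6⟩ := h3 x hx hxr
    have hxC : x ∈ C := by
      rw [hC]
      exact ⟨h5, by simpa using hxr⟩
    have h7 := ht2 hxC
    rw [mem_iUnion₂] at h7
    obtain ⟨z, hz, hzx⟩ := h7
    exact hzx (h6 (d z) (List.mem_map.mpr ⟨z, by simpa using hz, rfl⟩))
  obtain ⟨x, hx, hmax⟩ := h1.comp.exists_isMaxOn h1.ne continuous_norm.continuousOn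
  refine ⟨K', ‖x‖, h1, norm_nonneg _, lt_of_le_of_ne ?_ (h4 x hx), ?_⟩
  · simpa using h2 hx
  · intro y hy
    rw [mem_closedBall_zero_iff]
    exact hmax hy

/-- Limits of bodies of the class. -/
theorem Cls.limit {V : ℝ≥0∞} {m R : ℝ} (K : ℕ → Set (En n)) (hK : ∀ k, Cls V m (K k))
    (hR : ∀ k, K k ⊆ closedBall 0 R) :
    ∃ L : Set (En n), Cls V m L ∧ ∀ x ∈ L, ∀ ε > 0, ∀ N : ℕ, ∃ k ≥ N, ∃ y ∈ K k, dist x y < ε := by
  obtain ⟨L, h1, h2, h3, _, φ, hφ, hlim⟩ := blaschke K R (fun k => (hK k).comp)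
    (fun k => (hK k).ne) (fun k => (hK k).conv) hR
  have hfin : ∀ k, hausdorffEDist (K k) L ≠ ⊤ := fun k => haus_fin (hK k).ne h2 (hK k).comp h1
  have hnear : ∀ x ∈ L, ∀ ε > 0, ∀ N : ℕ, ∃ k ≥ N, ∃ y ∈ K (φ k), dist x y < ε := by
    intro x hx ε hε N
    obtain ⟨k, hk1, hk2⟩ := ((hlim.eventually_lt_const hε).and (eventually_ge_atTop N)).exists
    obtain ⟨y, hy, hxy⟩ := exists_dist_lt_of_hausdorffDist_lt' hx hk1 (hfin _)
    exact ⟨k, hk2, y, hy, by rwa [dist_comm]⟩
  refine ⟨L, ⟨h1, h3, h2, ?_, ?_⟩, ?_⟩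
  · -- volume
    have ht := tendsto_measure_cthickening_of_isCompact (μ := volume) h1
    have ht' : Tendsto (fun r => volume (cthickening r L)) (𝓝[>] 0) (𝓝 (volume L)) :=
      ht.mono_left nhdsWithin_le_nhds
    apply ge_of_tendsto ht'
    filter_upwards [self_mem_nhdsWithin] with r hr
    obtain ⟨k, hk⟩ := (hlim.eventually_lt_const (show (0 : ℝ) < r from hr)).exists
    refine ((hK (φ k)).vol).trans (measure_mono ?_)
    intro x hx
    obtain ⟨y, hy, hxy⟩ := exists_dist_lt_of_hausdorffDist_lt hx hk (hfin _)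
    exact mem_cthickening_of_dist_le x y r L hy hxy.le
  · -- determinants
    intro v hv
    have hcl : IsClosed {w : Fin n → En n | adet w ≤ m} :=
      isClosed_le continuous_adet continuous_const
    have hmem : v ∈ closure {w : Fin n → En n | adet w ≤ m} := by
      rw [Metric.mem_closure_iff]
      intro ε hε
      obtain ⟨k, hk⟩ := (hlim.eventually_lt_const (show (0 : ℝ) < ε / 2 by linarith)).exists
      have hex : ∀ i, ∃ y ∈ K (φ k), dist y (v i) < ε / 2 := fun i =>
        exists_dist_lt_of_hausdorffDist_lt' (hv i) hk (hfin _)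
      choose w hw hwd using hex
      refine ⟨w, (hK (φ k)).det w hw, ?_⟩
      refine lt_of_le_of_lt ((dist_pi_le_iff (by linarith)).mpr fun i => ?_)
        (show ε / 2 < ε by linarith)
      rw [dist_comm]
      exact (hwd i).le
    rwa [hcl.closure_eq] at hmem
  · intro x hx ε hε N
    obtain ⟨k, hk, y, hy, hxy⟩ := hnear x hx ε hε N
    exact ⟨φ k, hk.trans (hφ.id_le k), y, hy, hxy⟩

/-- **The extremal inequality.**  If all determinants of `n` points of the convex body `K` are at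
most `m` in absolute value, then the volume of `K` is at most `m` times that of the unit ball. -/
theorem volume_le {K : Set (En n)} (hK : IsCompact K) (hc : Convex ℝ K) (hne : K.Nonempty)
    (m : ℝ) (h : ∀ v : Fin n → En n, (∀ i, v i ∈ K) → adet v ≤ m) :
    volume K ≤ ENNReal.ofReal m * volume (ball (0 : En n) 1) := by
  obtain ⟨V, hV⟩ : ∃ V, V = volume K := ⟨_, rfl⟩
  rw [← hV]
  have hKc : Cls V m K := ⟨hK, hc, hne, hV.le, h⟩
  obtain ⟨P, hP⟩ : ∃ P : Set ℝ, P = {r | 0 ≤ r ∧ ∃ K' : Set (En n), Cls V m K' ∧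
    K' ⊆ closedBall 0 r} := ⟨_, rfl⟩
  have hPne : P.Nonempty := by
    obtain ⟨R, hR⟩ := hK.isBounded.subset_closedBall (0 : En n)
    refine ⟨max R 0, ?_⟩
    rw [hP]
    exact ⟨le_max_right _ _, K, hKc, hR.trans (closedBall_subset_closedBall (le_max_left _ _))⟩
  have hPbdd : BddBelow P := ⟨0, fun r hr => by rw [hP] at hr; exact hr.1⟩
  obtain ⟨r, hr1, hr2, hr3⟩ := exists_seq_tendsto_sInf hPne hPbdd
  obtain ⟨r0, hr0⟩ : ∃ r0, r0 = sInf P := ⟨_, rfl⟩
  rw [← hr0] at hr2
  have hr0nn : 0 ≤ r0 := by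
    rw [hr0]
    exact le_csInf hPne fun r hr => by rw [hP] at hr; exact hr.1
  have hseq : ∀ k, ∃ K' : Set (En n), Cls V m K' ∧ K' ⊆ closedBall 0 (r k) := by
    intro k
    have := hr3 k
    rw [hP] at this
    exact this.2
  choose Ks hKs1 hKs2 using hseq
  obtain ⟨L, hL1, hL2⟩ := Cls.limit (R := r 0) Ks hKs1 (fun k =>
    (hKs2 k).trans (closedBall_subset_closedBall (hr1 (Nat.zero_le k))))
  have hLr : L ⊆ closedBall 0 r0 := by
    intro x hx
    rw [mem_closedBall_zero_iff]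
    apply le_of_forall_pos_le_add
    intro ε hε
    have hev := hr2.eventually_lt_const (show r0 < r0 + ε / 2 by linarith)
    obtain ⟨N, hN⟩ := hev.exists_forall_of_atTop
    obtain ⟨k, hk, y, hy, hxy⟩ := hL2 x hx (ε / 2) (by linarith) N
    have h1 : ‖y‖ ≤ r k := by simpa using hKs2 k hy
    have h2 := hN k hk
    have h3 : ‖x‖ ≤ dist x y + ‖y‖ := by
      rw [dist_eq_norm]
      calc ‖x‖ = ‖(x - y) + y‖ := by rw [sub_add_cancel]
        _ ≤ ‖x - y‖ + ‖y‖ := norm_add_le _ _
    linarith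
  have hsph : sphere (0 : En n) r0 ⊆ L := by
    intro p hp
    by_contra hpL
    obtain ⟨K', s, h1, h2, h3, h4⟩ := shrink hL1 hLr (by simpa using hp) hpL
    have h5 : sInf P ≤ s := csInf_le hPbdd (by rw [hP]; exact ⟨h2, K', h1, h4⟩)
    rw [← hr0] at h5
    linarith
  have hdet : r0 ^ n ≤ m := by
    have h1 := hL1.det (fun i => r0 • (EuclideanSpace.basisFun (Fin n) ℝ) i) (by
      intro i
      apply hsph
      rw [mem_sphere_zero_iff_norm, norm_smul, Real.norm_of_nonneg hr0nn,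
        (EuclideanSpace.basisFun (Fin n) ℝ).orthonormal.1, mul_one])
    rwa [adet_basis, abs_of_nonneg hr0nn] at h1
  calc V ≤ volume L := hL1.vol
    _ ≤ volume (closedBall (0 : En n) r0) := measure_mono hLr
    _ = ENNReal.ofReal (r0 ^ n) * volume (ball (0 : En n) 1) := by
      rw [Measure.addHaar_closedBall _ _ hr0nn, finrank_euclideanSpace_fin]
    _ ≤ ENNReal.ofReal m * volume (ball (0 : En n) 1) := by gcongr

end Pool.Agent.Q156.MaxDet
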