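import Pool.Agent.Q156.ProjSupport

/-!
Rotations of the plane orthogonal to a unit vector in three-space.
-/

open MeasureTheory Metric Module
open scoped RealInnerProductSpace

namespace Pool.Agent.Q156

section abstract

variable {V : Type*} [NormedAddCommGroup V] [InnerProductSpace ℝ V] [FiniteDimensional ℝ V]

/-- From a complex structure which is isometric one gets all rotations. -/
theorem exists_rot (J : V →ₗ[ℝ] V) (hJ : ∀ x, J (J x) = -x) (hn : ∀ x, ‖J x‖ = ‖x‖) (a b : ℝ)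
    (hab : a ^ 2 + b ^ 2 = 1) :
    ∃ R : V ≃ₗᵢ[ℝ] V, (∀ x, R x = a • x + b • J x) ∧ ∀ x, R (R x) = (2 * a) • R x - x := by
  have hpol : ∀ x y : V, ⟪J x, J y⟫ = ⟪x, y⟫ := by
    intro x y
    rw [real_inner_eq_norm_mul_self_add_norm_mul_self_sub_norm_sub_mul_self_div_two,
      real_inner_eq_norm_mul_self_add_norm_mul_self_sub_norm_sub_mul_self_div_two,
      ← map_sub, hn, hn, hn]
  have horth : ∀ x : V, ⟪x, J x⟫ = 0 := by
    intro x
    have h1 := hpol x (J x)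
    rw [hJ, inner_neg_right, real_inner_comm] at h1
    linarith
  have hnorm : ∀ x, ‖a • x + b • J x‖ = ‖x‖ := by
    intro x
    have : ‖a • x + b • J x‖ ^ 2 = ‖x‖ ^ 2 := by
      rw [@norm_add_sq_real, norm_smul, norm_smul, hn, mul_pow, mul_pow, Real.norm_eq_abs,
        Real.norm_eq_abs, sq_abs, sq_abs, inner_smul_left, inner_smul_right, horth]
      linear_combination ‖x‖ ^ 2 * hab
    exact (sq_eq_sq₀ (norm_nonneg _) (norm_nonneg _)).mp this
  let f : V →ₗ[ℝ] V := a • LinearMap.id + b • J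
  have hf : ∀ x, f x = a • x + b • J x := by
    intro x; simp [f]
  let fi : V →ₗᵢ[ℝ] V := ⟨f, fun x => by rw [hf]; exact hnorm x⟩
  refine ⟨fi.toLinearIsometryEquiv rfl, ?_, ?_⟩
  · intro x
    exact hf x
  · intro x
    have h1 : ∀ x, (fi.toLinearIsometryEquiv rfl) x = a • x + b • J x := fun x => hf x
    rw [h1, h1, map_add, map_smul, map_smul, hJ]
    have hb : b ^ 2 = 1 - a ^ 2 := by linarith
    have : a • (a • x + b • J x) + b • (a • J x + b • -x) =
        (a ^ 2 - b ^ 2) • x + (2 * a * b) • J x := by module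
    rw [this, hb]
    module

end abstract

/-- Three-dimensional Euclidean space. -/
abbrev E3 : Type := EuclideanSpace ℝ (Fin 3)

/-- The cross product with `u`. -/
noncomputable def crossE (u : E3) : E3 →ₗ[ℝ] E3 where
  toFun v := !₂[u 1 * v 2 - u 2 * v 1, u 2 * v 0 - u 0 * v 2, u 0 * v 1 - u 1 * v 0]
  map_add' x y := by
    ext i; fin_cases i <;> simp <;> ring
  map_smul' c x := by
    ext i; fin_cases i <;> simp <;> ring

theorem crossE_0 (u v : E3) : crossE u v 0 = u 1 * v 2 - u 2 * v 1 := rfl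
theorem crossE_1 (u v : E3) : crossE u v 1 = u 2 * v 0 - u 0 * v 2 := rfl
theorem crossE_2 (u v : E3) : crossE u v 2 = u 0 * v 1 - u 1 * v 0 := rfl

theorem inner_E3 (u v : E3) : ⟪u, v⟫ = u 0 * v 0 + u 1 * v 1 + u 2 * v 2 := by
  simp [PiLp.inner_apply, Fin.sum_univ_three]; ring

theorem norm_E3 (u : E3) : ‖u‖ ^ 2 = u 0 ^ 2 + u 1 ^ 2 + u 2 ^ 2 := by
  rw [← real_inner_self_eq_norm_sq, inner_E3]; ring

theorem mem_perp (u v : E3) : v ∈ (ℝ ∙ u)ᗮ ↔ u 0 * v 0 + u 1 * v 1 + u 2 * v 2 = 0 := by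
  rw [Submodule.mem_orthogonal_singleton_iff_inner_right, inner_E3]

/-- The quarter turn of the plane orthogonal to `u`. -/
noncomputable def planeJ (u : E3) : (ℝ ∙ u)ᗮ →ₗ[ℝ] (ℝ ∙ u)ᗮ :=
  (crossE u).restrict (by
    intro v hv
    rw [mem_perp] at hv ⊢
    rw [crossE_0, crossE_1, crossE_2]; ring)

theorem planeJ_coe (u : E3) (v : (ℝ ∙ u)ᗮ) : ((planeJ u v : (ℝ ∙ u)ᗮ) : E3) = crossE u v := rfl

theorem planeJ_sq (u : E3) (hu : ‖u‖ = 1) (v : (ℝ ∙ u)ᗮ) : planeJ u (planeJ u v) = -v := by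
  have hu' : u 0 ^ 2 + u 1 ^ 2 + u 2 ^ 2 = 1 := by rw [← norm_E3, hu]; norm_num
  have hv := (mem_perp u v).mp v.2
  apply Subtype.ext
  rw [planeJ_coe, planeJ_coe, Submodule.coe_neg]
  ext i
  fin_cases i
  · change crossE u (crossE u v) 0 = -(v : E3) 0
    rw [crossE_0, crossE_1, crossE_2]
    linear_combination (u 0) * hv - (v : E3) 0 * hu'
  · change crossE u (crossE u v) 1 = -(v : E3) 1
    rw [crossE_1, crossE_0, crossE_2]
    linear_combination (u 1) * hv - (v : E3) 1 * hu'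
  · change crossE u (crossE u v) 2 = -(v : E3) 2
    rw [crossE_2, crossE_0, crossE_1]
    linear_combination (u 2) * hv - (v : E3) 2 * hu'

theorem planeJ_norm (u : E3) (hu : ‖u‖ = 1) (v : (ℝ ∙ u)ᗮ) : ‖planeJ u v‖ = ‖v‖ := by
  have hu' : u 0 ^ 2 + u 1 ^ 2 + u 2 ^ 2 = 1 := by rw [← norm_E3, hu]; norm_num
  have hv := (mem_perp u v).mp v.2
  have : ‖crossE u v‖ ^ 2 = ‖(v : E3)‖ ^ 2 := by
    rw [norm_E3, norm_E3, crossE_0, crossE_1, crossE_2]
    linear_combination (-(u 0 * (v : E3) 0 + u 1 * (v : E3) 1 + u 2 * (v : E3) 2)) * hv +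
      ((v : E3) 0 ^ 2 + (v : E3) 1 ^ 2 + (v : E3) 2 ^ 2) * hu'
  exact (sq_eq_sq₀ (norm_nonneg _) (norm_nonneg _)).mp this

theorem finrank_perp (u : E3) (hu : ‖u‖ = 1) : finrank ℝ (ℝ ∙ u)ᗮ = 2 := by
  have hne : u ≠ 0 := by
    intro h; rw [h, norm_zero] at hu; norm_num at hu
  have h1 : finrank ℝ (ℝ ∙ u) = 1 := finrank_span_singleton hne
  have h2 := Submodule.finrank_add_finrank_orthogonal (ℝ ∙ u)
  rw [finrank_euclideanSpace_fin, h1] at h2
  omega

end Pool.Agent.Q156
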