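import Pool.Agent.Q156.CompleteSym

/-!
Convex bodies given by a support function, their orthogonal projections, and symmetric sets with
centroid at the origin.
-/

open MeasureTheory Metric Module
open scoped RealInnerProductSpace

namespace Pool.Agent.Q156

variable {V : Type*} [NormedAddCommGroup V] [InnerProductSpace ℝ V]

/-- The Wulff shape of `h`: all `x` with `⟪x, v⟫ ≤ h v` for every `v`. -/
def wulff (h : V → ℝ) : Set V := {x | ∀ v, ⟪x, v⟫ ≤ h v}

theorem wulff_eq_iInter (h : V → ℝ) : wulff h = ⋂ v, {x : V | ⟪x, v⟫ ≤ h v} := by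
  ext x; simp [wulff]

theorem wulff_convex (h : V → ℝ) : Convex ℝ (wulff h) := by
  rw [wulff_eq_iInter]
  refine convex_iInter fun v => ?_
  intro x hx y hy a b ha hb hab
  simp only [Set.mem_ofPred_eq] at hx hy ⊢
  rw [inner_add_left, inner_smul_left, inner_smul_left, RCLike.conj_to_real, RCLike.conj_to_real]
  have : h v = a * h v + b * h v := by rw [← add_mul, hab, one_mul]
  rw [this]
  exact add_le_add (mul_le_mul_of_nonneg_left hx ha) (mul_le_mul_of_nonneg_left hy hb)

theorem wulff_closed (h : V → ℝ) : IsClosed (wulff h) := by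
  rw [wulff_eq_iInter]
  refine isClosed_iInter fun v => ?_
  exact isClosed_le (by fun_prop) continuous_const

theorem wulff_subset_ball (h : V → ℝ) (C : ℝ) (hC0 : 0 ≤ C) (hC : ∀ v, h v ≤ C * ‖v‖) :
    wulff h ⊆ closedBall 0 C := by
  intro x hx
  rw [mem_closedBall, dist_zero_right]
  have h1 := hx x
  rw [real_inner_self_eq_norm_sq] at h1
  have h2 := h1.trans (hC x)
  rcases eq_or_ne x 0 with rfl | hx0
  · simpa using hC0
  · have h5 : 0 < ‖x‖ := norm_pos_iff.mpr hx0
    nlinarith

theorem ball_subset_wulff (h : V → ℝ) (r : ℝ) (hr : ∀ v, r * ‖v‖ ≤ h v) :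
    closedBall 0 r ⊆ wulff h := by
  intro x hx v
  rw [mem_closedBall, dist_zero_right] at hx
  calc ⟪x, v⟫ ≤ ‖x‖ * ‖v‖ := real_inner_le_norm x v
    _ ≤ r * ‖v‖ := mul_le_mul_of_nonneg_right hx (norm_nonneg v)
    _ ≤ h v := hr v

theorem wulff_compact [FiniteDimensional ℝ V] (h : V → ℝ) (C : ℝ) (hC0 : 0 ≤ C)
    (hC : ∀ v, h v ≤ C * ‖v‖) : IsCompact (wulff h) :=
  (isCompact_closedBall (0 : V) C).of_isClosed_subset (wulff_closed h)
    (wulff_subset_ball h C hC0 hC)

theorem wulff_interior (h : V → ℝ) (r : ℝ) (hr0 : 0 < r) (hr : ∀ v, r * ‖v‖ ≤ h v) :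
    (interior (wulff h)).Nonempty := by
  refine ⟨0, ?_⟩
  rw [mem_interior_iff_mem_nhds]
  exact Filter.mem_of_superset (closedBall_mem_nhds (0 : V) hr0) (ball_subset_wulff h r hr)

/-- The projection of a convex body with support function `h` onto a subspace has the restricted
support function. -/
theorem proj_wulff [FiniteDimensional ℝ V] (h : V → ℝ) (hK : IsCompact (wulff h))
    (hatt : ∀ v, ∃ x ∈ wulff h, ⟪x, v⟫ = h v) (U : Submodule ℝ V) :
    (U.orthogonalProjectionOnto : V → U) '' wulff h = wulff (fun v : U => h v) := by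
  apply Set.Subset.antisymm
  · rintro _ ⟨x, hx, rfl⟩ v
    rw [Submodule.inner_orthogonalProjectionOnto_eq_of_mem_right]
    exact hx v
  · intro y hy
    by_contra hny
    have hconv : Convex ℝ ((U.orthogonalProjectionOnto : V → U) '' wulff h) :=
      (wulff_convex h).is_linear_image (U.orthogonalProjectionOnto : V →L[ℝ] U).isBoundedLinearMap.toIsLinearMap
    have hclosed : IsClosed ((U.orthogonalProjectionOnto : V → U) '' wulff h) :=
      (hK.image (U.orthogonalProjectionOnto).continuous).isClosed
    obtain ⟨f, c, hf1, hf2⟩ := geometric_hahn_banach_closed_point hconv hclosed hny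
    set w : U := (InnerProductSpace.toDual ℝ U).symm f with hw
    have hfw : ∀ z, f z = ⟪w, z⟫ := by
      intro z
      rw [hw, InnerProductSpace.toDual_symm_apply]
    obtain ⟨x, hx, hxw⟩ := hatt w
    have h1 := hf1 _ ⟨x, hx, rfl⟩
    rw [hfw, real_inner_comm, Submodule.inner_orthogonalProjectionOnto_eq_of_mem_right, hxw] at h1
    have h2 := hy w
    rw [hfw, real_inner_comm] at hf2
    linarith

theorem wulff_translate (h : V → ℝ) (a : V) :
    wulff h = (fun x => x + a) '' wulff (fun v => h v - ⟪a, v⟫) := by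
  ext x
  constructor
  · intro hx
    refine ⟨x - a, ?_, by simp⟩
    intro v
    have := hx v
    rw [inner_sub_left]
    linarith
  · rintro ⟨y, hy, rfl⟩ v
    have := hy v
    simp only at this
    rw [inner_add_left]
    linarith

theorem wulff_linearIsometry (h : V → ℝ) (R : V ≃ₗᵢ[ℝ] V) (hR : ∀ v, h (R v) = h v) :
    R.toIsometryEquiv '' wulff h = wulff h := by
  apply Set.Subset.antisymm
  · rintro _ ⟨x, hx, rfl⟩ v
    have h1 := hx (R.symm v)
    have h2 := hR (R.symm v)
    rw [R.apply_symm_apply] at h2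
    rw [← h2] at h1
    have h3 : ⟪R x, v⟫ = ⟪x, R.symm v⟫ := by
      rw [← R.inner_map_map x (R.symm v), R.apply_symm_apply]
    exact h3.trans_le h1
  · intro x hx
    refine ⟨R.symm x, ?_, R.apply_symm_apply x⟩
    intro v
    have h1 := hx (R v)
    rw [hR] at h1
    have h3 : ⟪R.symm x, v⟫ = ⟪x, R v⟫ := by
      rw [← R.inner_map_map (R.symm x) v, R.apply_symm_apply]
    exact h3.trans_le h1

section centroid

variable [FiniteDimensional ℝ V] [MeasurableSpace V] [BorelSpace V]

/-- The centroid of a set with a linear symmetry without nonzero fixed vectors is the origin. -/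
theorem centroid_eq_zero (A : Set V) (R : V ≃ₗᵢ[ℝ] V) (hRA : R.toIsometryEquiv '' A = A)
    (hfix : ∀ w, R w = w → w = 0) : (⨍ x in A, x) = 0 := by
  have hpre : (R : V → V) ⁻¹' A = A := by
    ext x
    constructor
    · intro hx
      have hx' : R x ∈ R.toIsometryEquiv '' A := by rw [hRA]; exact hx
      obtain ⟨y, hy, hyx⟩ := hx'
      have : y = x := R.injective hyx
      rwa [← this]
    · intro hx
      have : R.toIsometryEquiv x ∈ R.toIsometryEquiv '' A := ⟨x, hx, rfl⟩
      rw [hRA] at this
      exact this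
  have hint : R (∫ x in A, x) = ∫ x in A, x := by
    calc R (∫ x in A, x) = ∫ x in A, R x :=
          ((R.toContinuousLinearEquiv).integral_comp_comm (fun x => x)).symm
      _ = ∫ x in (R : V → V) ⁻¹' A, R x := by rw [hpre]
      _ = ∫ x in A, x :=
          (R.measurePreserving).setIntegral_preimage_emb
            R.toHomeomorph.measurableEmbedding (fun x => x) A
  have h0 : (∫ x in A, x) = 0 := hfix _ hint
  rw [average_eq, h0, smul_zero]

/-- A set is completely symmetric if its centroid is the origin and its symmetry group is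
complete. -/
def CompletelySymmetric (A : Set V) : Prop :=
  (⨍ x in A, x) = 0 ∧ IsCompleteGroup (symGroup A)

/-- `B` is a translate of a completely symmetric set. -/
def IsTranslateOfCompletelySymmetric (B : Set V) : Prop :=
  ∃ (A : Set V) (a : V), CompletelySymmetric A ∧ B = (fun x => x + a) '' A

/-- The orthogonal projection of `K` onto the hyperplane orthogonal to `u`, as a subset of that
hyperplane. -/
noncomputable def hyperplaneProjection (K : Set V) (u : V) : Set (ℝ ∙ u)ᗮ :=
  (fun x => (ℝ ∙ u)ᗮ.orthogonalProjectionOnto x) '' K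

theorem completelySymmetric_of_rotation (hd : finrank ℝ V = 2) (R : V ≃ₗᵢ[ℝ] V) (c : ℝ)
    (hc : |c| < 2) (hR : ∀ x, R (R x) = c • R x - x) (A : Set V)
    (hA : R.toIsometryEquiv '' A = A) : CompletelySymmetric A := by
  refine ⟨centroid_eq_zero A R hA ?_, isCompleteGroup_of_rotation hd R c hc hR _ hA⟩
  obtain ⟨hc1, hc2⟩ := abs_lt.mp hc
  intro w hw
  have h1 := hR w
  rw [hw, hw] at h1
  have h2 : (2 - c) • w = 0 := by
    have : (2 - c) • w = w - (c • w - w) := by module
    rw [this, ← h1, sub_self]
  rcases smul_eq_zero.mp h2 with h | h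
  · linarith
  · exact h

end centroid

end Pool.Agent.Q156
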