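import Mathlib

/-!
Centroid (with respect to Hausdorff measure) of a subset of an affine subspace which has a linear
symmetry.
-/

open MeasureTheory Metric Module Set
open scoped RealInnerProductSpace MeasureTheory

namespace Pool.Agent.Q156

variable {E : Type*} [NormedAddCommGroup E] [InnerProductSpace ℝ E] [FiniteDimensional ℝ E]
  [MeasurableSpace E] [BorelSpace E]

theorem average_eq_of_symmetry (M : Submodule ℝ E) (n : ℕ) (hn : finrank ℝ M = n) (c : E)
    (S : Set E) (hS : ∀ y ∈ S, y - c ∈ M) (T : E ≃ₗ[ℝ] E) (hTc : T c = c)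
    (hTM : ∀ m ∈ M, T m ∈ M) (hTS : ∀ y, T y ∈ S ↔ y ∈ S) (hfix : ∀ m ∈ M, T m = m → m = 0)
    (hSb : Bornology.IsBounded S) (hSo : IsOpen {m : M | c + (m : E) ∈ S}) (hne : S.Nonempty) :
    (⨍ y in S, y ∂(Measure.hausdorffMeasure (n : ℝ))) = c := by
  subst hn
  set ν : Measure M := Measure.hausdorffMeasure (finrank ℝ M : ℝ) with hν
  set φ : M → E := fun m => c + (m : E) with hφdef
  have hφ : Isometry φ := by
    apply Isometry.of_dist_eq
    intro x y
    simp only [hφdef, dist_add_left]
    rfl
  set S' : Set M := φ ⁻¹' S with hS'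
  have hSo' : IsOpen S' := hSo
  have himg : φ '' S' = S := by
    apply Subset.antisymm
    · rintro _ ⟨m, hm, rfl⟩
      exact hm
    · intro y hy
      refine ⟨⟨y - c, hS y hy⟩, ?_, ?_⟩
      · change c + (y - c) ∈ S
        rwa [add_sub_cancel]
      · change c + (y - c) = y
        rw [add_sub_cancel]
  have hne' : S'.Nonempty := by
    rw [← himg] at hne
    exact hne.of_image
  have hb' : Bornology.IsBounded S' := by
    obtain ⟨C, hC⟩ := isBounded_iff.mp hSb
    refine isBounded_iff.mpr ⟨C, ?_⟩
    intro x hx y hy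
    rw [← hφ.dist_eq]
    exact hC hx hy
  have hpos : 0 < ν S' := hSo'.measure_pos ν hne'
  have hfin : ν S' < ⊤ := hb'.measure_lt_top
  have hmeas : (Measure.hausdorffMeasure (finrank ℝ M : ℝ) : Measure E) S = ν S' := by
    rw [← himg]
    exact hφ.hausdorffMeasure_image (Or.inl (Nat.cast_nonneg _)) S'
  have hemb : MeasurableEmbedding φ := (hφ.isClosedEmbedding).measurableEmbedding
  have hint : (∫ y in S, y ∂(Measure.hausdorffMeasure (finrank ℝ M : ℝ))) = ∫ m in S', φ m ∂ν := by
    have h1 := hemb.setIntegral_map (μ := ν) (fun y => y) S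
    rw [hν, hφ.map_hausdorffMeasure (Or.inl (Nat.cast_nonneg _)),
      Measure.restrict_restrict' (hφ.isClosedEmbedding.isClosed_range.measurableSet)] at h1
    have h2 : S ∩ range φ = S := by
      apply inter_eq_left.mpr
      rw [← himg]
      exact image_subset_range _ _
    rw [h2] at h1
    exact h1
  -- the symmetry on M
  set TM : M →ₗ[ℝ] M := (T : E →ₗ[ℝ] E).restrict hTM with hTMdef
  have hTMcoe : ∀ m : M, ((TM m : M) : E) = T m := fun m => rfl
  have hinj : Function.Injective TM := by
    intro x y hxy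
    apply Subtype.ext
    apply T.injective
    rw [← hTMcoe, ← hTMcoe, hxy]
  set TE : M ≃ₗ[ℝ] M := LinearEquiv.ofInjectiveEndo TM hinj with hTE
  have hTEcoe : ∀ m, TE m = TM m := fun m => rfl
  have hdet : LinearMap.det TM ≠ 0 := by
    have h := TE.isUnit_det'
    have h2 : (TE : M →ₗ[ℝ] M) = TM := by ext m; rfl
    rw [h2] at h
    exact h.ne_zero
  have hpre : TM ⁻¹' S' = S' := by
    ext m
    change c + ((TM m : M) : E) ∈ S ↔ c + (m : E) ∈ S
    rw [hTMcoe]
    have : c + T (m : E) = T (c + m) := by rw [map_add, hTc]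
    rw [this, hTS]
  have hmap : Measure.map TM ν = ν := by
    have h1 := Measure.map_linearMap_addHaar_eq_smul_addHaar ν hdet
    have h2 : (Measure.map TM ν) S' = (ENNReal.ofReal |(LinearMap.det TM)⁻¹| • ν) S' := by
      rw [h1]
    rw [Measure.map_apply (TM.continuous_of_finiteDimensional.measurable) hSo'.measurableSet,
      hpre, Measure.smul_apply, smul_eq_mul] at h2
    have h3 : ENNReal.ofReal |(LinearMap.det TM)⁻¹| = 1 := by
      have h4 : ENNReal.ofReal |(LinearMap.det TM)⁻¹| * ν S' = 1 * ν S' := by
        rw [one_mul]; exact h2.symm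
      exact (ENNReal.mul_left_inj hpos.ne' hfin.ne).mp h4
    rw [h1, h3, one_smul]
  have hmp : MeasurePreserving TM ν ν :=
    ⟨TM.continuous_of_finiteDimensional.measurable, hmap⟩
  have hw : TM (∫ m in S', m ∂ν) = ∫ m in S', m ∂ν := by
    have e1 : TM (∫ m in S', m ∂ν) = ∫ m in S', TM m ∂ν :=
      ((TE.toContinuousLinearEquiv).integral_comp_comm (μ := ν.restrict S') (fun m => m)).symm
    have e2 : (∫ m in S', TM m ∂ν) = ∫ m in TM ⁻¹' S', TM m ∂ν := by rw [hpre]
    have e3 : (∫ m in TM ⁻¹' S', TM m ∂ν) = ∫ m in S', m ∂ν :=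
      hmp.setIntegral_preimage_emb
        (TE.toContinuousLinearEquiv.toHomeomorph.measurableEmbedding) (fun m => m) S'
    rw [e1, e2, e3]
  have hw0 : (∫ m in S', m ∂ν) = 0 := by
    apply Subtype.ext
    apply hfix _ (∫ m in S', m ∂ν).2
    rw [← hTMcoe, hw]
  have hintble : IntegrableOn (fun m : M => (m : E)) S' ν := by
    apply Measure.integrableOn_of_bounded (M := (Classical.choose (hb'.exists_norm_le)))
    · exact hfin.ne
    · exact (continuous_subtype_val).aestronglyMeasurable
    · rw [ae_restrict_iff' hSo'.measurableSet]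
      refine Filter.Eventually.of_forall ?_
      intro m hm
      exact (Classical.choose_spec (hb'.exists_norm_le)) m hm
  have hsplit : (∫ m in S', φ m ∂ν) = (ν.real S') • c := by
    have hc : IntegrableOn (fun _ : M => c) S' ν := by
      exact integrableOn_const hfin.ne (by simp)
    have e1 : (∫ m in S', φ m ∂ν) = (∫ m in S', c ∂ν) + ∫ m in S', (m : E) ∂ν :=
      integral_add hc hintble
    have e2 : (∫ m in S', (m : E) ∂ν) = ((∫ m in S', m ∂ν : M) : E) := by
      have := M.subtypeL.integral_comp_comm (μ := ν.restrict S') (φ := fun m : M => m) (by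
        exact (MeasureTheory.IntegrableOn.integrable (by
          apply Measure.integrableOn_of_bounded (M := (Classical.choose (hb'.exists_norm_le)))
          · exact hfin.ne
          · exact continuous_id.aestronglyMeasurable
          · rw [ae_restrict_iff' hSo'.measurableSet]
            refine Filter.Eventually.of_forall ?_
            intro m hm
            exact (Classical.choose_spec (hb'.exists_norm_le)) m hm)))
      exact this
    rw [e1, e2, hw0, setIntegral_const]
    simp
  rw [setAverage_eq, hint, hsplit]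
  have : (Measure.hausdorffMeasure (finrank ℝ M : ℝ) : Measure E).real S = ν.real S' := by
    simp only [Measure.real, hmeas]
  rw [this, smul_smul, inv_mul_cancel₀, one_smul]
  exact (ENNReal.toReal_pos hpos.ne' hfin.ne).ne'

end Pool.Agent.Q156
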