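import Pool.Agent.Q156.ProjSupport

/-!
The support function of a compact set in a Euclidean space.
-/

open Metric Module Set
open scoped RealInnerProductSpace

namespace Pool.Agent.Q156

variable {V : Type*} [NormedAddCommGroup V] [InnerProductSpace ℝ V]

/-- The support function of `K`. -/
noncomputable def supp (K : Set V) (v : V) : ℝ := sSup ((fun x => ⟪v, x⟫) '' K)

theorem supp_eq (K : Set V) (v : V) (m : ℝ) (h1 : ∀ x ∈ K, ⟪v, x⟫ ≤ m) (h2 : ∃ x ∈ K, ⟪v, x⟫ = m) :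
    supp K v = m := by
  apply IsGreatest.csSup_eq
  refine ⟨?_, ?_⟩
  · obtain ⟨x, hx, hxm⟩ := h2
    exact ⟨x, hx, hxm⟩
  · rintro _ ⟨x, hx, rfl⟩
    exact h1 x hx

theorem supp_attained (K : Set V) (hK : IsCompact K) (hne : K.Nonempty) (v : V) :
    ∃ x ∈ K, ⟪v, x⟫ = supp K v ∧ ∀ y ∈ K, ⟪v, y⟫ ≤ ⟪v, x⟫ := by
  obtain ⟨x, hx, hmax⟩ := hK.exists_isMaxOn hne
    (by fun_prop : Continuous fun x => ⟪v, x⟫).continuousOn
  have h1 : ∀ y ∈ K, ⟪v, y⟫ ≤ ⟪v, x⟫ := fun y hy => hmax hy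
  exact ⟨x, hx, (supp_eq K v _ h1 ⟨x, hx, rfl⟩).symm, h1⟩

theorem le_supp (K : Set V) (hK : IsCompact K) (v x : V) (hx : x ∈ K) : ⟪v, x⟫ ≤ supp K v := by
  obtain ⟨y, _, hy, hmax⟩ := supp_attained K hK ⟨x, hx⟩ v
  rw [← hy]
  exact hmax x hx

theorem supp_smul (K : Set V) (hK : IsCompact K) (hne : K.Nonempty) (s : ℝ) (hs : 0 ≤ s) (v : V) :
    supp K (s • v) = s * supp K v := by
  obtain ⟨x, hx, hxs, hmax⟩ := supp_attained K hK hne v
  apply supp_eq
  · intro y hy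
    rw [inner_smul_left, RCLike.conj_to_real, ← hxs]
    exact mul_le_mul_of_nonneg_left (hmax y hy) hs
  · refine ⟨x, hx, ?_⟩
    rw [inner_smul_left, RCLike.conj_to_real, hxs]

theorem continuous_supp (K : Set V) (hK : IsCompact K) : Continuous (supp K) := by
  unfold supp
  apply hK.continuous_sSup
  exact (by fun_prop : Continuous fun p : V × V => ⟪p.1, p.2⟫)

theorem eq_of_supp_eq_ball [FiniteDimensional ℝ V] (K : Set V) (hK : IsCompact K)
    (hconv : Convex ℝ K) (hne : K.Nonempty) (p : V) (r : ℝ) (hr : 0 ≤ r)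
    (h : ∀ v, ‖v‖ = 1 → supp K v = r + ⟪p, v⟫) : K = closedBall p r := by
  apply Subset.antisymm
  · intro x hx
    rw [mem_closedBall, dist_eq_norm]
    rcases eq_or_ne (x - p) 0 with h0 | h0
    · rw [h0, norm_zero]; exact hr
    have hpos : 0 < ‖x - p‖ := norm_pos_iff.mpr h0
    obtain ⟨v, hv⟩ : ∃ v, v = ‖x - p‖⁻¹ • (x - p) := ⟨_, rfl⟩
    have hvn : ‖v‖ = 1 := by
      rw [hv, norm_smul, norm_inv, norm_norm, inv_mul_cancel₀ hpos.ne']
    have h1 := le_supp K hK v x hx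
    rw [h v hvn, real_inner_comm v p] at h1
    have h2 : ⟪v, x - p⟫ = ‖x - p‖ := by
      rw [hv, inner_smul_left, real_inner_self_eq_norm_sq, RCLike.conj_to_real]
      field_simp
    rw [inner_sub_right] at h2
    linarith
  · intro x hx
    by_contra hnx
    rw [mem_closedBall, dist_eq_norm] at hx
    obtain ⟨f, c, hf1, hf2⟩ := geometric_hahn_banach_closed_point hconv hK.isClosed hnx
    obtain ⟨w, hw⟩ : ∃ w : V, ∀ z, f z = ⟪w, z⟫ :=
      ⟨(InnerProductSpace.toDual ℝ V).symm f, fun z => (InnerProductSpace.toDual_symm_apply).symm⟩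
    obtain ⟨y, hy, hys, _⟩ := supp_attained K hK hne w
    have h1 := hf1 y hy
    rw [hw, hys] at h1
    rw [hw] at hf2
    have hw0 : w ≠ 0 := by
      rintro rfl
      have h3 := hf1 y hy
      rw [hw, inner_zero_left] at h3
      rw [inner_zero_left] at hf2
      linarith
    have hpos : 0 < ‖w‖ := norm_pos_iff.mpr hw0
    obtain ⟨v, hv⟩ : ∃ v, v = ‖w‖⁻¹ • w := ⟨_, rfl⟩
    have hvn : ‖v‖ = 1 := by
      rw [hv, norm_smul, norm_inv, norm_norm, inv_mul_cancel₀ hpos.ne']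
    have hwv : w = ‖w‖ • v := by
      rw [hv, smul_smul, mul_inv_cancel₀ hpos.ne', one_smul]
    have h4 : supp K w = ‖w‖ * (r + ⟪p, v⟫) := by
      rw [← h v hvn, ← supp_smul K hK hne _ hpos.le, ← hwv]
    have h5 : ⟪w, x⟫ = ‖w‖ * ⟪p, v⟫ + ‖w‖ * ⟪v, x - p⟫ := by
      conv_lhs => rw [hwv]
      rw [inner_smul_left, RCLike.conj_to_real, inner_sub_right, real_inner_comm p v]
      ring
    have h6 : ⟪v, x - p⟫ ≤ r := by
      have := real_inner_le_norm v (x - p)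
      rw [hvn, one_mul] at this
      linarith
    have h7 : ‖w‖ * ⟪v, x - p⟫ ≤ ‖w‖ * r := mul_le_mul_of_nonneg_left h6 hpos.le
    rw [h4] at h1
    rw [h5] at hf2
    linarith

end Pool.Agent.Q156
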