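import Pool.Agent.Q156.PlaneRot

/-!
A continuous, positively homogeneous function on three-space whose values at three unit vectors
with sum zero always add up to zero is linear.
-/

open MeasureTheory Metric Module Set
open scoped RealInnerProductSpace Real

namespace Pool.Agent.Q156.Triple

open Pool.Agent.Q156

/-- Rotation about the third axis. -/
noncomputable def rotMap (θ : ℝ) (x : E3) : E3 :=
  !₂[Real.cos θ * x 0 - Real.sin θ * x 1, Real.sin θ * x 0 + Real.cos θ * x 1, x 2]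

theorem rotMap_0 (θ : ℝ) (x : E3) : rotMap θ x 0 = Real.cos θ * x 0 - Real.sin θ * x 1 := rfl
theorem rotMap_1 (θ : ℝ) (x : E3) : rotMap θ x 1 = Real.sin θ * x 0 + Real.cos θ * x 1 := rfl
theorem rotMap_2 (θ : ℝ) (x : E3) : rotMap θ x 2 = x 2 := rfl

theorem ext3 {x y : E3} (h0 : x 0 = y 0) (h1 : x 1 = y 1) (h2 : x 2 = y 2) : x = y := by
  ext i
  fin_cases i
  · exact h0
  · exact h1
  · exact h2

theorem rotMap_add_angle (θ ψ : ℝ) (x : E3) : rotMap (θ + ψ) x = rotMap θ (rotMap ψ x) := by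
  apply ext3
  · rw [rotMap_0, rotMap_0, rotMap_0, rotMap_1, Real.cos_add, Real.sin_add]; ring
  · rw [rotMap_1, rotMap_1, rotMap_0, rotMap_1, Real.cos_add, Real.sin_add]; ring
  · rfl

theorem rotMap_zero_angle (x : E3) : rotMap 0 x = x := by
  apply ext3
  · rw [rotMap_0]; simp
  · rw [rotMap_1]; simp
  · rfl

/-- Rotation about the third axis as a linear isometry. -/
noncomputable def rot (θ : ℝ) : E3 ≃ₗᵢ[ℝ] E3 where
  toFun := rotMap θ
  invFun := rotMap (-θ)
  map_add' x y := by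
    apply ext3
    · simp only [PiLp.add_apply, rotMap_0]; ring
    · simp only [PiLp.add_apply, rotMap_1]; ring
    · simp only [PiLp.add_apply, rotMap_2]
  map_smul' c x := by
    apply ext3
    · simp only [PiLp.smul_apply, rotMap_0, smul_eq_mul, RingHom.id_apply]; ring
    · simp only [PiLp.smul_apply, rotMap_1, smul_eq_mul, RingHom.id_apply]; ring
    · simp only [PiLp.smul_apply, rotMap_2, RingHom.id_apply]
  left_inv x := by
    rw [← rotMap_add_angle, neg_add_cancel, rotMap_zero_angle]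
  right_inv x := by
    rw [← rotMap_add_angle, add_neg_cancel, rotMap_zero_angle]
  norm_map' x := by
    have h : ‖rotMap θ x‖ ^ 2 = ‖x‖ ^ 2 := by
      rw [norm_E3, norm_E3, rotMap_0, rotMap_1, rotMap_2]
      linear_combination (x 0 ^ 2 + x 1 ^ 2) * Real.sin_sq_add_cos_sq θ
    exact (sq_eq_sq₀ (norm_nonneg _) (norm_nonneg _)).mp h

theorem rot_apply (θ : ℝ) (x : E3) : rot θ x = rotMap θ x := rfl

theorem continuous_coord3 (i : Fin 3) : Continuous (fun x : E3 => x i) :=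
  (EuclideanSpace.proj (𝕜 := ℝ) i).continuous

theorem continuous_mk3 {X : Type*} [TopologicalSpace X] {f g h : X → ℝ} (hf : Continuous f)
    (hg : Continuous g) (hh : Continuous h) : Continuous (fun x => (!₂[f x, g x, h x] : E3)) := by
  apply (PiLp.continuous_toLp 2 _).comp
  apply continuous_pi
  intro i
  fin_cases i
  · exact hf
  · exact hg
  · exact hh

theorem continuous_rot : Continuous (fun p : ℝ × E3 => rotMap p.1 p.2) := by
  unfold rotMap
  have h0 : Continuous (fun p : ℝ × E3 => p.2 0) := (continuous_coord3 0).comp continuous_snd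
  have h1 : Continuous (fun p : ℝ × E3 => p.2 1) := (continuous_coord3 1).comp continuous_snd
  have h2 : Continuous (fun p : ℝ × E3 => p.2 2) := (continuous_coord3 2).comp continuous_snd
  have hc : Continuous (fun p : ℝ × E3 => Real.cos p.1) := Real.continuous_cos.comp continuous_fst
  have hs : Continuous (fun p : ℝ × E3 => Real.sin p.1) := Real.continuous_sin.comp continuous_fst
  exact continuous_mk3 ((hc.mul h0).sub (hs.mul h1)) ((hs.mul h0).add (hc.mul h1)) h2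

/-- The integral of `F` over the rotations of `x` about the third axis. -/
noncomputable def Phi (F : E3 → ℝ) (x : E3) : ℝ := ∫ θ in (0 : ℝ)..(2 * π), F (rotMap θ x)

variable {F : E3 → ℝ}

theorem continuous_Phi (hF : Continuous F) : Continuous (Phi F) := by
  unfold Phi
  apply intervalIntegral.continuous_parametric_intervalIntegral_of_continuous'
  have : (Function.uncurry fun (x : E3) (θ : ℝ) => F (rotMap θ x)) =
      F ∘ (fun p : ℝ × E3 => rotMap p.1 p.2) ∘ Prod.swap := by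
    ext ⟨x, θ⟩; rfl
  rw [this]
  exact hF.comp (continuous_rot.comp continuous_swap)

theorem Phi_rot (x : E3) (ψ : ℝ) : Phi F (rotMap ψ x) = Phi F x := by
  unfold Phi
  simp only [← rotMap_add_angle]
  rw [intervalIntegral.integral_comp_add_right (fun θ => F (rotMap θ x)) ψ]
  have hper : Function.Periodic (fun θ => F (rotMap θ x)) (2 * π) := by
    intro θ
    simp only [rotMap, Real.cos_add_two_pi, Real.sin_add_two_pi]
  have := hper.intervalIntegral_add_eq (0 + ψ) 0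
  rw [zero_add] at this
  rw [zero_add, add_comm (2 * π) ψ, this, zero_add]

/-- A meridian of the unit sphere. -/
noncomputable def mer (t : ℝ) : E3 := !₂[√(1 - t ^ 2), 0, t]

theorem continuous_mer : Continuous mer := by
  unfold mer
  exact continuous_mk3 (by fun_prop) continuous_const continuous_id

theorem Phi_eq_mer (x : E3) (hx : ‖x‖ = 1) : Phi F x = Phi F (mer (x 2)) := by
  have hn : x 0 ^ 2 + x 1 ^ 2 + x 2 ^ 2 = 1 := by rw [← norm_E3, hx]; norm_num
  obtain ⟨z, hz⟩ : ∃ z : ℂ, z = ⟨x 0, x 1⟩ := ⟨_, rfl⟩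
  have hzn : ‖z‖ = √(1 - x 2 ^ 2) := by
    rw [Complex.norm_def, Complex.normSq_apply, hz]
    congr 1
    linarith
  have h1 : ‖z‖ * Real.cos z.arg = x 0 := by
    rw [Complex.norm_mul_cos_arg, hz]
  have h2 : ‖z‖ * Real.sin z.arg = x 1 := by
    rw [Complex.norm_mul_sin_arg, hz]
  have hx' : x = rotMap z.arg (mer (x 2)) := by
    apply ext3
    · rw [rotMap_0]
      change x 0 = Real.cos z.arg * √(1 - x 2 ^ 2) - Real.sin z.arg * 0
      rw [← hzn, ← h1]; ring
    · rw [rotMap_1]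
      change x 1 = Real.sin z.arg * √(1 - x 2 ^ 2) + Real.cos z.arg * 0
      rw [← hzn, ← h2]; ring
    · rfl
  conv_lhs => rw [hx']
  rw [Phi_rot]

theorem continuous_F_rot (hF : Continuous F) (x : E3) : Continuous fun θ => F (rotMap θ x) := by
  have h1 : Continuous fun θ : ℝ => ((θ, x) : ℝ × E3) := continuous_id.prodMk continuous_const
  have h2 : Continuous ((fun p : ℝ × E3 => rotMap p.1 p.2) ∘ fun θ : ℝ => ((θ, x) : ℝ × E3)) :=
    continuous_rot.comp h1
  exact hF.comp h2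

theorem Phi_triple (hF : Continuous F)
    (heq : ∀ u v w : E3, ‖u‖ = 1 → ‖v‖ = 1 → ‖w‖ = 1 → u + v + w = 0 → F u + F v + F w = 0)
    (u v w : E3) (hu : ‖u‖ = 1) (hv : ‖v‖ = 1) (hw : ‖w‖ = 1) (h : u + v + w = 0) :
    Phi F u + Phi F v + Phi F w = 0 := by
  unfold Phi
  have i1 := (continuous_F_rot hF u).intervalIntegrable 0 (2 * π) (μ := volume)
  have i2 := (continuous_F_rot hF v).intervalIntegrable 0 (2 * π) (μ := volume)
  have i3 := (continuous_F_rot hF w).intervalIntegrable 0 (2 * π) (μ := volume)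
  rw [← intervalIntegral.integral_add i1 i2, ← intervalIntegral.integral_add (i1.add i2) i3]
  have : ∀ θ, F (rotMap θ u) + F (rotMap θ v) + F (rotMap θ w) = 0 := by
    intro θ
    rw [← rot_apply, ← rot_apply, ← rot_apply]
    apply heq
    · rw [LinearIsometryEquiv.norm_map, hu]
    · rw [LinearIsometryEquiv.norm_map, hv]
    · rw [LinearIsometryEquiv.norm_map, hw]
    · rw [← map_add, ← map_add, h, map_zero]
  simp only [this]
  simp

theorem norm_one_of_sq {x : E3} (h : x 0 ^ 2 + x 1 ^ 2 + x 2 ^ 2 = 1) : ‖x‖ = 1 := by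
  rw [← norm_E3] at h
  have h0 := norm_nonneg x
  nlinarith

/-- The meridian function. -/
noncomputable def phi (F : E3 → ℝ) (t : ℝ) : ℝ := Phi F (mer t)

theorem phi_add (hF : Continuous F)
    (heq : ∀ u v w : E3, ‖u‖ = 1 → ‖v‖ = 1 → ‖w‖ = 1 → u + v + w = 0 → F u + F v + F w = 0)
    (s t : ℝ) (hs : |s| ≤ 1 / 2) (ht : |t| ≤ 1 / 2) : phi F s + phi F t + phi F (-s - t) = 0 := by
  obtain ⟨hs1, hs2⟩ := abs_le.mp hs
  obtain ⟨ht1, ht2⟩ := abs_le.mp ht
  have hs3 : s ^ 2 ≤ 1 / 4 := by nlinarith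
  have ht3 : t ^ 2 ≤ 1 / 4 := by nlinarith
  obtain ⟨P, hP⟩ : ∃ P, P = √(1 - s ^ 2) := ⟨_, rfl⟩
  have hP2 : P ^ 2 = 1 - s ^ 2 := by rw [hP, Real.sq_sqrt (by linarith)]
  have hPpos : 0 < P := by rw [hP]; apply Real.sqrt_pos.mpr; linarith
  obtain ⟨q, hq⟩ : ∃ q, q = -(1 / 2 + s * t) / P := ⟨_, rfl⟩
  have hqP : q * P = -(1 / 2 + s * t) := by rw [hq, div_mul_cancel₀ _ hPpos.ne']
  have hq2 : q ^ 2 ≤ 1 - t ^ 2 := by
    have h1 : q ^ 2 * (1 - s ^ 2) = (1 / 2 + s * t) ^ 2 := by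
      rw [← hP2, ← mul_pow, hqP]; ring
    have h2 : (1 / 2 + s * t) ^ 2 ≤ (1 - t ^ 2) * (1 - s ^ 2) := by
      nlinarith [mul_self_nonneg (s + t), mul_self_nonneg (s - t)]
    have h3 : 0 < 1 - s ^ 2 := by linarith
    rw [← h1] at h2
    exact le_of_mul_le_mul_right h2 h3
  obtain ⟨r, hr⟩ : ∃ r, r = √(1 - t ^ 2 - q ^ 2) := ⟨_, rfl⟩
  have hr2 : r ^ 2 = 1 - t ^ 2 - q ^ 2 := by rw [hr, Real.sq_sqrt (by linarith)]
  obtain ⟨u, u0, u1, u2⟩ : ∃ u : E3, u 0 = P ∧ u 1 = 0 ∧ u 2 = s := ⟨!₂[P, 0, s], rfl, rfl, rfl⟩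
  obtain ⟨v, v0, v1, v2⟩ : ∃ v : E3, v 0 = q ∧ v 1 = r ∧ v 2 = t := ⟨!₂[q, r, t], rfl, rfl, rfl⟩
  obtain ⟨w, w0, w1, w2⟩ : ∃ w : E3, w 0 = -P - q ∧ w 1 = -r ∧ w 2 = -s - t :=
    ⟨!₂[-P - q, -r, -s - t], rfl, rfl, rfl⟩
  have hu : ‖u‖ = 1 := by
    apply norm_one_of_sq; rw [u0, u1, u2]; linarith
  have hv : ‖v‖ = 1 := by
    apply norm_one_of_sq; rw [v0, v1, v2]; linarith
  have hw : ‖w‖ = 1 := by
    apply norm_one_of_sq; rw [w0, w1, w2]
    linear_combination hP2 + hr2 + 2 * hqP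
  have h := Phi_triple hF heq u v w hu hv hw (by
    apply ext3
    · simp [u0, v0, w0]
    · simp [u1, v1, w1]
    · simp [u2, v2, w2])
  rw [Phi_eq_mer u hu, Phi_eq_mer v hv, Phi_eq_mer w hw, u2, v2, w2] at h
  exact h

theorem phi_half (hF : Continuous F)
    (heq : ∀ u v w : E3, ‖u‖ = 1 → ‖v‖ = 1 → ‖w‖ = 1 → u + v + w = 0 → F u + F v + F w = 0)
    (t : ℝ) (ht : |t| ≤ 1) : phi F t + 2 * phi F (-t / 2) = 0 := by
  obtain ⟨h1, h2⟩ := abs_le.mp ht
  have ht2 : t ^ 2 ≤ 1 := by nlinarith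
  obtain ⟨P, hP⟩ : ∃ P, P = √(1 - t ^ 2) := ⟨_, rfl⟩
  have hP2 : P ^ 2 = 1 - t ^ 2 := by rw [hP, Real.sq_sqrt (by linarith)]
  obtain ⟨r, hr⟩ : ∃ r, r = √3 / 2 := ⟨_, rfl⟩
  have hr2 : r ^ 2 = 3 / 4 := by rw [hr, div_pow, Real.sq_sqrt (by norm_num)]; norm_num
  obtain ⟨u, u0, u1, u2⟩ : ∃ u : E3, u 0 = P ∧ u 1 = 0 ∧ u 2 = t := ⟨!₂[P, 0, t], rfl, rfl, rfl⟩
  obtain ⟨v, v0, v1, v2⟩ : ∃ v : E3, v 0 = -P / 2 ∧ v 1 = r ∧ v 2 = -t / 2 :=
    ⟨!₂[-P / 2, r, -t / 2], rfl, rfl, rfl⟩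
  obtain ⟨w, w0, w1, w2⟩ : ∃ w : E3, w 0 = -P / 2 ∧ w 1 = -r ∧ w 2 = -t / 2 :=
    ⟨!₂[-P / 2, -r, -t / 2], rfl, rfl, rfl⟩
  have hu : ‖u‖ = 1 := by
    apply norm_one_of_sq; rw [u0, u1, u2]; linarith
  have hv : ‖v‖ = 1 := by
    apply norm_one_of_sq; rw [v0, v1, v2]; linear_combination hP2 / 4 + hr2
  have hw : ‖w‖ = 1 := by
    apply norm_one_of_sq; rw [w0, w1, w2]
    linear_combination hP2 / 4 + hr2
  have h := Phi_triple hF heq u v w hu hv hw (by
    apply ext3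
    · simp [u0, v0, w0]; ring
    · simp [u1, v1, w1]
    · simp [u2, v2, w2]; ring)
  rw [Phi_eq_mer u hu, Phi_eq_mer v hv, Phi_eq_mer w hw, u2, v2, w2] at h
  unfold phi
  linarith

theorem phi_linear (hF : Continuous F)
    (heq : ∀ u v w : E3, ‖u‖ = 1 → ‖v‖ = 1 → ‖w‖ = 1 → u + v + w = 0 → F u + F v + F w = 0)
    (t : ℝ) (ht : |t| ≤ 1) : phi F t = t * phi F 1 := by
  have hhalf := phi_half hF heq
  have hadd := phi_add hF heq
  have h0 : phi F 0 = 0 := by
    have := hadd 0 0 (by norm_num) (by norm_num)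
    simp only [neg_zero, sub_zero] at this
    linarith
  obtain ⟨g, hg⟩ : ∃ g : ℝ → ℝ, ∀ t, g t = phi F t - t * phi F 1 := ⟨_, fun _ => rfl⟩
  have gadd : ∀ s t : ℝ, |s| ≤ 1 / 2 → |t| ≤ 1 / 2 → g s + g t + g (-s - t) = 0 := by
    intro s t hs ht
    rw [hg, hg, hg]
    linear_combination hadd s t hs ht
  have ghalf : ∀ t : ℝ, |t| ≤ 1 → g t + 2 * g (-t / 2) = 0 := by
    intro t ht
    rw [hg, hg]
    linear_combination hhalf t ht
  have g0 : g 0 = 0 := by rw [hg, h0]; ring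
  have g1 : g 1 = 0 := by rw [hg]; ring
  have godd' : ∀ s : ℝ, |s| ≤ 1 / 2 → g (-s) = -g s := by
    intro s hs
    have := gadd s 0 hs (by norm_num)
    rw [g0, sub_zero] at this
    linarith
  have godd : ∀ s : ℝ, |s| ≤ 1 → g (-s) = -g s := by
    intro s hs
    have h1 := ghalf s hs
    have h2 := ghalf (-s) (by rwa [abs_neg])
    have h3 := godd' (s / 2) (by rw [abs_div, abs_of_nonneg (by norm_num : (0 : ℝ) ≤ 2)]; linarith)
    rw [← neg_div] at h3
    rw [neg_neg] at h2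
    linarith
  have gdouble : ∀ s : ℝ, |s| ≤ 1 / 2 → g (2 * s) = 2 * g s := by
    intro s hs
    have h1 := ghalf (2 * s) (by rw [abs_mul, abs_of_nonneg (by norm_num : (0 : ℝ) ≤ 2)]; linarith)
    have h2 : -(2 * s) / 2 = -s := by ring
    rw [h2, godd' s hs] at h1
    linarith
  have ghf : g (1 / 2) = 0 := by
    have := gdouble (1 / 2) (by norm_num)
    norm_num at this
    rw [g1] at this
    linarith
  have gshift : ∀ s : ℝ, |s| ≤ 1 / 2 → g (s + 1 / 2) = g s := by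
    intro s hs
    have h1 := gadd s (1 / 2) hs (by norm_num)
    have h2 : -s - 1 / 2 = -(s + 1 / 2) := by ring
    obtain ⟨hs1, hs2⟩ := abs_le.mp hs
    rw [ghf, h2, godd (s + 1 / 2) (by rw [abs_le]; constructor <;> linarith)] at h1
    linarith
  have gcont : Continuous g := by
    have : g = fun t => phi F t - t * phi F 1 := funext hg
    rw [this]
    unfold phi
    exact ((continuous_Phi hF).comp continuous_mer).sub (continuous_id.mul continuous_const)
  obtain ⟨t0, ht0, hmax⟩ := (isCompact_Icc (a := (-1 : ℝ)) (b := 1)).exists_isMaxOn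
    ⟨0, by norm_num⟩ (gcont.abs.continuousOn)
  have hmax' : ∀ s : ℝ, |s| ≤ 1 → |g s| ≤ |g t0| := by
    intro s hs
    exact hmax (abs_le.mp hs)
  have key : ∀ t0 : ℝ, 0 ≤ t0 → t0 ≤ 1 → (∀ s : ℝ, |s| ≤ 1 → |g s| ≤ |g t0|) → |g t0| ≤ 0 := by
    intro t0 h1 h2 hm
    have h3 : |t0 - 1 / 2| ≤ 1 / 2 := by rw [abs_le]; constructor <;> linarith
    have h4 := gshift (t0 - 1 / 2) h3
    rw [sub_add_cancel] at h4
    have h5 := gdouble (t0 - 1 / 2) h3
    have h6 := hm (2 * (t0 - 1 / 2)) (by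
      rw [abs_mul, abs_of_nonneg (by norm_num : (0 : ℝ) ≤ 2)]; linarith)
    rw [h5, ← h4, abs_mul, abs_of_nonneg (by norm_num : (0 : ℝ) ≤ 2)] at h6
    linarith
  have hzero : |g t0| ≤ 0 := by
    rcases le_total 0 t0 with h | h
    · exact key t0 h ht0.2 hmax'
    · have h1 : |g (-t0)| = |g t0| := by
        rw [godd t0 (abs_le.mpr ht0), abs_neg]
      rw [← h1]
      apply key (-t0) (by linarith) (by linarith [ht0.1])
      rw [h1]
      exact hmax'
  have := hmax' t ht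
  have h2 : |g t| = 0 := le_antisymm (this.trans hzero) (abs_nonneg _)
  have h3 : g t = 0 := abs_eq_zero.mp h2
  rw [hg] at h3
  linarith

theorem Phi_linear (hF : Continuous F) (hhom : ∀ s : ℝ, 0 ≤ s → ∀ x, F (s • x) = s * F x)
    (heq : ∀ u v w : E3, ‖u‖ = 1 → ‖v‖ = 1 → ‖w‖ = 1 → u + v + w = 0 → F u + F v + F w = 0)
    (x : E3) : Phi F x = 2 * π * x 2 * F !₂[0, 0, 1] := by
  have h1 : phi F 1 = 2 * π * F !₂[0, 0, 1] := by
    unfold phi Phi
    have hmer : mer 1 = !₂[0, 0, 1] := by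
      unfold mer; norm_num
    have : ∀ θ, rotMap θ (mer 1) = !₂[0, 0, 1] := by
      intro θ
      rw [hmer]
      apply ext3
      · rw [rotMap_0]; simp
      · rw [rotMap_1]; simp
      · rfl
    simp only [this]
    simp
  have hPhom : ∀ s : ℝ, 0 ≤ s → ∀ x, Phi F (s • x) = s * Phi F x := by
    intro s hs x
    unfold Phi
    rw [← intervalIntegral.integral_const_mul]
    congr 1
    ext θ
    rw [← rot_apply, map_smul, hhom s hs, rot_apply]
  rcases eq_or_ne x 0 with rfl | hx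
  · have := hPhom 0 le_rfl 0
    simpa using this
  have hpos : 0 < ‖x‖ := norm_pos_iff.mpr hx
  obtain ⟨z, hz⟩ : ∃ z, z = ‖x‖⁻¹ • x := ⟨_, rfl⟩
  have hxz : x = ‖x‖ • z := by
    rw [hz, smul_smul, mul_inv_cancel₀ hpos.ne', one_smul]
  have hzn : ‖z‖ = 1 := by
    rw [hz, norm_smul, norm_inv, norm_norm, inv_mul_cancel₀ hpos.ne']
  have hz2 : |z 2| ≤ 1 := by
    have := PiLp.norm_apply_le z 2
    rwa [Real.norm_eq_abs, hzn] at this
  have h2 := phi_linear hF heq (z 2) hz2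
  have h3 : Phi F x = ‖x‖ * Phi F z := by
    conv_lhs => rw [hxz]
    exact hPhom _ hpos.le z
  have h4 : x 2 = ‖x‖ * z 2 := by
    conv_lhs => rw [hxz]
    rfl
  rw [h3, Phi_eq_mer z hzn, h4]
  change ‖x‖ * phi F (z 2) = _
  rw [h2, h1]; ring

theorem integral_rot (G : E3 → ℝ) (θ : ℝ) :
    ∫ x in ball (0 : E3) 1, G (rotMap θ x) = ∫ x in ball (0 : E3) 1, G x := by
  have h := (rot θ).measurePreserving.setIntegral_preimage_emb
    (rot θ).toHomeomorph.measurableEmbedding G (ball (0 : E3) 1)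
  have h2 : (rot θ : E3 → E3) ⁻¹' ball (0 : E3) 1 = ball (0 : E3) 1 := by
    ext x
    simp
  rw [h2] at h
  exact h

theorem continuous_pair (hF : Continuous F) :
    Continuous (fun p : E3 × ℝ => F (rotMap p.2 p.1) * p.1 2) := by
  have h0 : Continuous (Prod.swap : E3 × ℝ → ℝ × E3) := continuous_swap
  have h1 : Continuous (F ∘ ((fun p : ℝ × E3 => rotMap p.1 p.2) ∘ (Prod.swap : E3 × ℝ → ℝ × E3))) :=
    hF.comp (continuous_rot.comp h0)
  have h2 : Continuous ((fun x : E3 => x 2) ∘ (Prod.fst : E3 × ℝ → E3)) :=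
    (continuous_coord3 2).comp continuous_fst
  exact h1.mul h2

theorem integrableOn_pair (hF : Continuous F) :
    IntegrableOn (fun p : E3 × ℝ => F (rotMap p.2 p.1) * p.1 2)
      (ball (0 : E3) 1 ×ˢ Ioc 0 (2 * π)) (volume.prod volume) := by
  have hcomp : IsCompact (closedBall (0 : E3) 1 ×ˢ Icc (0 : ℝ) (2 * π)) :=
    (isCompact_closedBall _ _).prod isCompact_Icc
  have hint : IntegrableOn (fun p : E3 × ℝ => F (rotMap p.2 p.1) * p.1 2)
      (closedBall (0 : E3) 1 ×ˢ Icc 0 (2 * π)) (volume.prod volume) :=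
    (continuous_pair hF).continuousOn.integrableOn_compact hcomp
  exact hint.mono_set (prod_mono ball_subset_closedBall Ioc_subset_Icc_self)

/-- The mean value identity for the third axis. -/
theorem axis_identity (hF : Continuous F) (hhom : ∀ s : ℝ, 0 ≤ s → ∀ x, F (s • x) = s * F x)
    (heq : ∀ u v w : E3, ‖u‖ = 1 → ‖v‖ = 1 → ‖w‖ = 1 → u + v + w = 0 → F u + F v + F w = 0) :
    (∫ x in ball (0 : E3) 1, (x 2) ^ 2) * F !₂[0, 0, 1] = ∫ x in ball (0 : E3) 1, F x * x 2 := by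
  have hswap : ∫ x in ball (0 : E3) 1, (∫ θ in (0 : ℝ)..(2 * π), F (rotMap θ x) * x 2) =
      ∫ θ in (0 : ℝ)..(2 * π), (∫ x in ball (0 : E3) 1, F (rotMap θ x) * x 2) := by
    simp only [intervalIntegral.integral_of_le (by positivity : (0 : ℝ) ≤ 2 * π)]
    apply MeasureTheory.integral_integral_swap
    rw [Measure.prod_restrict]
    exact integrableOn_pair hF
  have hL : ∫ x in ball (0 : E3) 1, (∫ θ in (0 : ℝ)..(2 * π), F (rotMap θ x) * x 2) =
      2 * π * F !₂[0, 0, 1] * ∫ x in ball (0 : E3) 1, (x 2) ^ 2 := by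
    rw [← integral_const_mul]
    congr 1
    ext x
    rw [intervalIntegral.integral_mul_const]
    change Phi F x * x 2 = _
    rw [Phi_linear hF hhom heq]; ring
  have hR : ∫ θ in (0 : ℝ)..(2 * π), (∫ x in ball (0 : E3) 1, F (rotMap θ x) * x 2) =
      2 * π * ∫ x in ball (0 : E3) 1, F x * x 2 := by
    have : ∀ θ, (∫ x in ball (0 : E3) 1, F (rotMap θ x) * x 2) =
        ∫ x in ball (0 : E3) 1, F x * x 2 := by
      intro θ
      have := integral_rot (fun x => F x * x 2) θ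
      simpa only [rotMap_2] using this
    simp only [this]
    simp
  rw [hL, hR] at hswap
  have hpi : (0 : ℝ) < 2 * π := by positivity
  have : 2 * π * ((∫ x in ball (0 : E3) 1, (x 2) ^ 2) * F !₂[0, 0, 1]) =
      2 * π * ∫ x in ball (0 : E3) 1, F x * x 2 := by
    rw [← hswap]; ring
  exact mul_left_cancel₀ hpi.ne' this

theorem kappa_pos : 0 < ∫ x in ball (0 : E3) 1, (x 2) ^ 2 := by
  have hnn : 0 ≤ ∫ x in ball (0 : E3) 1, (x 2) ^ 2 := integral_nonneg fun x => sq_nonneg _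
  rcases hnn.lt_or_eq with h | h
  · exact h
  exfalso
  have hc : Continuous (fun x : E3 => (x 2) ^ 2) := (continuous_coord3 2).pow 2
  have hint : IntegrableOn (fun x : E3 => (x 2) ^ 2) (ball (0 : E3) 1) :=
    (hc.continuousOn.integrableOn_compact (isCompact_closedBall (0 : E3) 1)).mono_set
      ball_subset_closedBall
  have h1 := (integral_eq_zero_iff_of_nonneg (fun x => sq_nonneg _) hint).mp h.symm
  have h2 := Measure.eqOn_open_of_ae_eq h1 isOpen_ball hc.continuousOn continuousOn_const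
  have h3 : (!₂[0, 0, 1 / 2] : E3) ∈ ball (0 : E3) 1 := by
    rw [mem_ball_zero_iff]
    have h4 : ‖(!₂[0, 0, 1 / 2] : E3)‖ ^ 2 = 1 / 4 := by
      rw [norm_E3]
      change (0 : ℝ) ^ 2 + 0 ^ 2 + (1 / 2) ^ 2 = 1 / 4
      norm_num
    have h5 := norm_nonneg (!₂[0, 0, 1 / 2] : E3)
    nlinarith
  have h4 := h2 h3
  change ((1 / 2 : ℝ)) ^ 2 = 0 at h4
  norm_num at h4

/-- **Linearity.** -/
theorem triple_linear (hF : Continuous F) (hhom : ∀ s : ℝ, 0 ≤ s → ∀ x, F (s • x) = s * F x)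
    (heq : ∀ u v w : E3, ‖u‖ = 1 → ‖v‖ = 1 → ‖w‖ = 1 → u + v + w = 0 → F u + F v + F w = 0) :
    ∃ p : E3, ∀ a, ‖a‖ = 1 → F a = ⟪p, a⟫ := by
  obtain ⟨k, hk⟩ : ∃ k, k = ∫ x in ball (0 : E3) 1, (x 2) ^ 2 := ⟨_, rfl⟩
  have hkpos : 0 < k := hk ▸ kappa_pos
  refine ⟨k⁻¹ • ∫ x in ball (0 : E3) 1, F x • x, ?_⟩
  intro a ha
  obtain ⟨e, he⟩ : ∃ e : E3, e = !₂[0, 0, 1] := ⟨_, rfl⟩
  have hen : ‖e‖ = 1 := by
    apply norm_one_of_sq
    rw [he]
    change (0 : ℝ) ^ 2 + 0 ^ 2 + 1 ^ 2 = 1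
    norm_num
  obtain ⟨S, hS⟩ : ∃ S : E3 ≃ₗᵢ[ℝ] E3, S = (ℝ ∙ (e - a))ᗮ.reflection := ⟨_, rfl⟩
  have hSe : S e = a := by
    rw [hS]
    exact Submodule.reflection_sub (by rw [hen, ha])
  have hSS : ∀ x, S (S x) = x := by
    intro x
    rw [hS]
    exact Submodule.reflection_reflection _ x
  -- apply the axis identity to F ∘ S
  have h1 := axis_identity (F := fun x => F (S x)) (hF.comp S.continuous)
    (fun s hs x => by rw [map_smul, hhom s hs])
    (fun u v w hu hv hw h => heq _ _ _ (by rw [S.norm_map, hu]) (by rw [S.norm_map, hv])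
      (by rw [S.norm_map, hw]) (by rw [← map_add, ← map_add, h, map_zero]))
  rw [← hk, ← he] at h1
  simp only at h1
  rw [hSe] at h1
  have h2 : ∫ x in ball (0 : E3) 1, F (S x) * x 2 = ∫ x in ball (0 : E3) 1, F x * ⟪x, a⟫ := by
    have h := S.measurePreserving.setIntegral_preimage_emb
      S.toHomeomorph.measurableEmbedding (fun x => F x * ⟪x, a⟫) (ball (0 : E3) 1)
    have h3 : (S : E3 → E3) ⁻¹' ball (0 : E3) 1 = ball (0 : E3) 1 := by
      ext x
      simp
    rw [h3] at h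
    rw [← h]
    congr 1
    ext x
    rw [← hSe, S.inner_map_map, he, inner_E3]
    simp
  have hint : IntegrableOn (fun x : E3 => F x • x) (ball (0 : E3) 1) := by
    have hc : Continuous (fun x : E3 => F x • x) := hF.smul continuous_id
    exact (hc.continuousOn.integrableOn_compact (isCompact_closedBall (0 : E3) 1)).mono_set
      ball_subset_closedBall
  have h3 : ⟪∫ x in ball (0 : E3) 1, F x • x, a⟫ = ∫ x in ball (0 : E3) 1, F x * ⟪x, a⟫ := by
    rw [real_inner_comm, ← integral_inner hint a]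
    congr 1
    ext x
    rw [inner_smul_right, real_inner_comm]
  rw [inner_smul_left, RCLike.conj_to_real, h3, ← h2, ← h1, ← mul_assoc,
    inv_mul_cancel₀ hkpos.ne', one_mul]

end Pool.Agent.Q156.Triple
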